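import Pool.Agent.H373R2.T7.BilF

set_option autoImplicit false
set_option linter.unusedSectionVars false

/-! A bilinear sum with a Fourier uniform weight. -/

namespace Pool.Agent.N913.KU

open Finset
open Pool.Agent.H807R2.Dav Pool.Agent.H373R2.T7

theorem pars (M U : ℕ) (hM : 1 ≤ M) (x : ℕ → ℝ) (X1 : ℝ) (hx : ∀ a ∈ range U, |x a| ≤ X1) (p : ℤ)
    (hp : ∀ a ∈ range U, ∀ b ∈ range U, a ≠ b → ¬ (M : ℤ) ∣ -(p * a) - -(p * b)) :
    ∑ t ∈ range M, ‖∑ a ∈ range U, (x a : ℂ) * ee ((t : ℝ) * (((-(p * a) : ℤ) : ℝ) / M))‖ ^ 2 ≤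
      M * (U * X1 ^ 2) := by
  have h1 := sq_expand (range U) (fun a => (x a : ℂ)) (fun a => -(p * a)) M hM
  have h2 : ∑ i ∈ range U, ∑ j ∈ range U, (x i : ℂ) * (starRingEnd ℂ) (x j : ℂ) *
      (if (M : ℤ) ∣ -(p * i) - -(p * j) then (M : ℂ) else 0) =
      ((∑ i ∈ range U, M * (x i) ^ 2 : ℝ) : ℂ) := by
    push_cast
    apply sum_congr rfl
    intro i hi
    rw [sum_eq_single i]
    · rw [sub_self, if_pos (dvd_zero _), Complex.conj_ofReal]
      ring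
    · intro j hj hne
      rw [if_neg (hp i hi j hj hne.symm), mul_zero]
    · intro h; exact absurd hi h
  rw [h2] at h1
  have h3 : ∑ t ∈ range M, ‖∑ a ∈ range U, (x a : ℂ) * ee ((t : ℝ) * (((-(p * a) : ℤ) : ℝ) / M))‖ ^ 2 =
      ∑ i ∈ range U, M * (x i) ^ 2 := by exact_mod_cast h1
  rw [h3]
  calc ∑ i ∈ range U, (M : ℝ) * (x i) ^ 2 ≤ ∑ _i ∈ range U, (M : ℝ) * X1 ^ 2 := by
        apply sum_le_sum
        intro i hi
        apply mul_le_mul_of_nonneg_left _ (Nat.cast_nonneg _)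
        have := hx i hi
        rw [← sq_abs (x i)]
        exact pow_le_pow_left₀ (abs_nonneg _) this 2
    _ = _ := by rw [sum_const, card_range, nsmul_eq_mul]; ring

theorem u2 (v : ℤ → ℝ) (Y M : ℕ) (hM : 2 * Y < M) (B : ℝ)
    (hV : ∀ t : ℕ, ‖∑ m ∈ Icc (-(Y : ℤ)) Y, (v m : ℂ) * ee ((t : ℝ) * ((m : ℝ) / M))‖ ≤ B)
    (x y : ℕ → ℝ) (U : ℕ) (X1 Y1 : ℝ) (hX1 : 0 ≤ X1) (hY1 : 0 ≤ Y1) (hx : ∀ a ∈ range U, |x a| ≤ X1)
    (hy : ∀ a ∈ range U, |y a| ≤ Y1) (s p q : ℤ) (hp : p ≠ 0) (hq : q ≠ 0)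
    (hr : ∀ a ∈ range U, ∀ b ∈ range U, |s + p * a + q * b| ≤ Y) :
    |∑ a ∈ range U, ∑ b ∈ range U, x a * y b * v (s + p * a + q * b)| ≤ B * U * X1 * Y1 := by
  have hM1 : 1 ≤ M := by omega
  have hM0 : (0 : ℝ) < M := by exact_mod_cast hM1
  have hB0 : 0 ≤ B := (norm_nonneg _).trans (hV 0)
  obtain ⟨S, hS⟩ : ∃ S : ℝ, S = ∑ a ∈ range U, ∑ b ∈ range U, x a * y b * v (s + p * a + q * b) :=
    ⟨_, rfl⟩
  rw [← hS]
  obtain ⟨V, hVd⟩ : ∃ V : ℕ → ℂ, V = fun t : ℕ => ∑ m ∈ Icc (-(Y : ℤ)) Y, (v m : ℂ) * ee ((t : ℝ) * ((m : ℝ) / M)) :=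
    ⟨_, rfl⟩
  obtain ⟨Xt, hXt⟩ : ∃ Xt : ℕ → ℂ, Xt = fun t : ℕ => ∑ a ∈ range U, (x a : ℂ) *
    ee ((t : ℝ) * (((-(p * a) : ℤ) : ℝ) / M)) := ⟨_, rfl⟩
  obtain ⟨Yt, hYt⟩ : ∃ Yt : ℕ → ℂ, Yt = fun t : ℕ => ∑ b ∈ range U, (y b : ℂ) *
    ee ((t : ℝ) * (((-(q * b) : ℤ) : ℝ) / M)) := ⟨_, rfl⟩
  -- inversion
  have hinv : ∀ w : ℤ, |w| ≤ Y → (M : ℂ) * (v w : ℂ) =
      ∑ t ∈ range M, V t * ee ((t : ℝ) * (((-w : ℤ) : ℝ) / M)) := by
    intro w hw
    have h1 : ∑ m ∈ Icc (-(Y : ℤ)) Y, (v m : ℂ) * (if (M : ℤ) ∣ m - w then (M : ℂ) else 0) =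
        (v w : ℂ) * M := by
      rw [sum_eq_single w]
      · rw [sub_self, if_pos (dvd_zero _)]
      · intro m hm hne
        rw [if_neg, mul_zero]
        intro hd
        rw [mem_Icc] at hm
        rw [abs_le] at hw
        have h4 : |m - w| < M := by rw [abs_lt]; constructor <;> omega
        have := Int.eq_zero_of_abs_lt_dvd hd h4
        apply hne
        omega
      · intro h
        exfalso
        apply h
        rw [mem_Icc]
        exact abs_le.1 hw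
    rw [mul_comm, ← h1, hVd]
    simp only [sum_mul]
    rw [sum_comm]
    apply sum_congr rfl
    intro m _
    rw [← orth M hM1, mul_sum]
    apply sum_congr rfl
    intro t _
    rw [mul_assoc, ← ee_add]
    congr 2
    push_cast
    ring
  have key : (M : ℂ) * (S : ℂ) = ∑ t ∈ range M, V t * ee ((t : ℝ) * (((-s : ℤ) : ℝ) / M)) * Xt t * Yt t := by
    have e1 : (M : ℂ) * (S : ℂ) = ∑ a ∈ range U, ∑ b ∈ range U, (x a : ℂ) * (y b : ℂ) *
        ∑ t ∈ range M, V t * ee ((t : ℝ) * (((-(s + p * a + q * b) : ℤ) : ℝ) / M)) := by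
      rw [hS]
      push_cast
      rw [mul_sum]
      apply sum_congr rfl
      intro a ha
      rw [mul_sum]
      apply sum_congr rfl
      intro b hb
      have := hinv (s + p * a + q * b) (hr a ha b hb)
      push_cast at this
      rw [← this]
      ring
    rw [e1, hXt, hYt]
    have e2 : ∀ t ∈ range M, V t * ee ((t : ℝ) * (((-s : ℤ) : ℝ) / M)) *
        (∑ a ∈ range U, (x a : ℂ) * ee ((t : ℝ) * (((-(p * a) : ℤ) : ℝ) / M))) *
        (∑ b ∈ range U, (y b : ℂ) * ee ((t : ℝ) * (((-(q * b) : ℤ) : ℝ) / M))) =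
        ∑ a ∈ range U, ∑ b ∈ range U, (x a : ℂ) * (y b : ℂ) *
          (V t * ee ((t : ℝ) * (((-(s + p * a + q * b) : ℤ) : ℝ) / M))) := by
      intro t _
      rw [mul_assoc, sum_mul_sum, mul_sum]
      apply sum_congr rfl
      intro a _
      rw [mul_sum]
      apply sum_congr rfl
      intro b _
      have h2 : ee ((t : ℝ) * (((-(s + p * a + q * b) : ℤ) : ℝ) / M)) =
          ee ((t : ℝ) * (((-s : ℤ) : ℝ) / M)) * ee ((t : ℝ) * (((-(p * a) : ℤ) : ℝ) / M)) *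
          ee ((t : ℝ) * (((-(q * b) : ℤ) : ℝ) / M)) := by
        rw [← ee_add, ← ee_add]
        congr 1
        push_cast
        ring
      rw [h2]
      ring
    rw [sum_congr rfl e2]
    symm
    rw [sum_comm]
    apply sum_congr rfl
    intro a _
    rw [sum_comm]
    apply sum_congr rfl
    intro b _
    rw [mul_sum]
  rcases Nat.eq_zero_or_pos U with hU | hU
  · rw [hS, hU]
    simp
  have hdiv : ∀ p' : ℤ, p' ≠ 0 → (∀ a ∈ range U, ∀ b ∈ range U, |p' * a - p' * b| ≤ 2 * Y) →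
      ∀ a ∈ range U, ∀ b ∈ range U, a ≠ b → ¬ (M : ℤ) ∣ -(p' * a) - -(p' * b) := by
    intro p' hp' hb' a ha b hb hab hd
    have h1 := hb' a ha b hb
    have h2 : |-(p' * a) - -(p' * b)| < M := by
      have e : -(p' * a) - -(p' * b) = -(p' * a - p' * b) := by ring
      rw [e, abs_neg]
      have : (2 * (Y : ℤ)) < M := by exact_mod_cast hM
      linarith
    have h3 := Int.eq_zero_of_abs_lt_dvd hd h2
    have h4 : p' * ((a : ℤ) - b) = 0 := by linarith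
    rcases mul_eq_zero.1 h4 with h5 | h5
    · exact hp' h5
    · apply hab
      have : (a : ℤ) = b := by linarith
      exact_mod_cast this
  have h0U : 0 ∈ range U := mem_range.2 hU
  have hXs := pars M U hM1 x X1 hx p (hdiv p hp (by
    intro a ha b hb
    have h1 := hr a ha 0 h0U
    have h2 := hr b hb 0 h0U
    have e : p * (a : ℤ) - p * b = (s + p * a + q * (0 : ℕ)) - (s + p * b + q * (0 : ℕ)) := by ring
    rw [e]
    exact (abs_sub _ _).trans (by linarith)))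
  have hYs := pars M U hM1 y Y1 hy q (hdiv q hq (by
    intro a ha b hb
    have h1 := hr 0 h0U a ha
    have h2 := hr 0 h0U b hb
    have e : q * (a : ℤ) - q * b = (s + p * (0 : ℕ) + q * a) - (s + p * (0 : ℕ) + q * b) := by ring
    rw [e]
    exact (abs_sub _ _).trans (by linarith)))
  have h1 : M * |S| ≤ ∑ t ∈ range M, B * (‖Xt t‖ * ‖Yt t‖) := by
    have e : (M : ℝ) * |S| = ‖(M : ℂ) * (S : ℂ)‖ := by
      rw [norm_mul, Complex.norm_real, Real.norm_eq_abs, Complex.norm_natCast]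
    rw [e, key]
    refine (norm_sum_le _ _).trans (sum_le_sum fun t _ => ?_)
    rw [norm_mul, norm_mul, norm_mul, norm_ee, mul_one, mul_assoc]
    apply mul_le_mul_of_nonneg_right _ (by positivity)
    rw [hVd]
    exact hV t
  have h2 : (∑ t ∈ range M, ‖Xt t‖ * ‖Yt t‖) ^ 2 ≤ (M * (U * X1 ^ 2)) * (M * (U * Y1 ^ 2)) := by
    refine (sum_mul_sq_le_sq_mul_sq _ _ _).trans ?_
    rw [hXt, hYt]
    exact mul_le_mul hXs hYs (sum_nonneg fun _ _ => by positivity) (by positivity)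
  have h3 : ∑ t ∈ range M, ‖Xt t‖ * ‖Yt t‖ ≤ M * U * X1 * Y1 := by
    apply le_of_sq_le_sq _ (by positivity)
    refine h2.trans (le_of_eq ?_)
    ring
  rw [← mul_sum] at h1
  have h4 := h1.trans (mul_le_mul_of_nonneg_left h3 hB0)
  have h5 : M * |S| ≤ M * (B * U * X1 * Y1) := by
    refine h4.trans (le_of_eq ?_)
    ring
  exact le_of_mul_le_mul_left h5 hM0

end Pool.Agent.N913.KU
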