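import Pool.Agent.N913.KU.U9

set_option autoImplicit false
set_option linter.unusedSectionVars false

/-! Concentration in a class, with parameters, with fewer coefficients: the assembly. -/

namespace Pool.Agent.N913.KU

open Finset Polynomial Filter
open Pool.Agent.H373R2.T7
open Pool.Agent.N913.MT (th th_nonneg th_le tot_prod Wz Wz_le Wz_pos dvd_Wz evt_log_pow evt_log_ge)
open Pool.Agent.N913.MG (BVz AP1 kappa2)
open Pool.Agent.N913.KT (zK WK LK TK evt_ll sw pol_size exists_eta)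
open Pool.Agent.N913.KS (Bx mem_Bx strip strip_card ev Fw pr bc ev_size Fk fk_evt DK FK UK YK SK Bx_card)

theorem classV (r k N d A E : ℕ) (hr : 1 ≤ r) (hk : 1 ≤ k) (hN : 2 ≤ N) (hE : 1 ≤ E) (κ δ lam δ' : ℝ)
    (hκ0 : 0 < κ) (hκ1 : κ ≤ 1)
    (hδ : 0 < δ) (hlam : 0 < lam) (hδ0' : 0 < δ') (hδ1' : δ' ≤ 1) (K0 : ℕ) :
    ∃ Kc : ℝ, 0 < Kc ∧ ∀ c0 : ℝ, ∃ H0 : ℕ, ∀ H : ℕ, H0 ≤ H →
      (∃ η ξ : ℝ, Fk k (N + r + 2) (r * N) E d A κ η ξ δ' c0 H) ∧
      ∀ P : Fin r → ℤ[X], (∀ a, (P a).natDegree ≤ d) →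
      (∀ a i, |((P a).coeff i : ℝ)| ≤ H * Real.log H ^ A) →
      ∀ cs : Fin r × Fin N → ℤ, ∀ I : Finset ℕ, ∀ ps : ℕ → ℕ → Fin r × ℤ,
        Kc * Real.log H ^ k ≤ I.card →
        (∀ n ∈ I, ∀ i < k, |(ps n i).2| ≤ TK E H) →
        (∀ n ∈ I, ∀ a, bc k (ps n) a + 1 ≤ N) →
        (∀ n ∈ I, ∀ i < k, ∀ j < k, i ≠ j → ps n i ≠ ps n j) →
        (∀ n ∈ I, ∀ i < k, (ev P cs (ps n i)).natAbs.Coprime (WK κ H)) →
        (∀ n ∈ I, (I.filter (fun n' => ∃ i < k, ∃ j < k, ps n i = ps n' j)).card ≤ K0) →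
        (((Bx H (WK κ H) cs).filter (fun c => δ * (I.card * ((WK κ H : ℝ) / Nat.totient (WK κ H)) ^ k) ≤
          |∑ n ∈ I, Fw P (2 * TK E H) (ps n) k c -
            I.card * ((WK κ H : ℝ) / Nat.totient (WK κ H)) ^ k|)).card : ℝ) ≤
          lam * (Bx H (WK κ H) cs).card := by
  obtain ⟨μ, hμ⟩ : ∃ μ, μ = lam * δ ^ 2 / 4 := ⟨_, rfl⟩
  have hμ0 : 0 < μ := by rw [hμ]; positivity
  obtain ⟨η, hη0, hη1, Z1, hη2⟩ := consts k (μ / 4) (by positivity)
  obtain ⟨ξ, hξ⟩ : ∃ ξ, ξ = min 1 (μ / (16 * (k + 1) * 16 ^ k)) := ⟨_, rfl⟩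
  have hξ0 : 0 < ξ := by rw [hξ]; positivity
  have hξ1 : ξ ≤ 1 := by rw [hξ]; exact min_le_left _ _
  have h16 : (1 : ℝ) ≤ 16 ^ k := one_le_pow₀ (by norm_num)
  have hk1r : (1 : ℝ) ≤ k := by exact_mod_cast hk
  have hξ3 : 16 * (k + 1) * ξ * 16 ^ k ≤ μ := by
    have h1 : ξ ≤ μ / (16 * (k + 1) * 16 ^ k) := by rw [hξ]; exact min_le_right _ _
    rw [le_div_iff₀ (by positivity)] at h1
    linarith
  have hkξ : 0 ≤ (k : ℝ) * ξ := by positivity
  have hξ4 : 16 * (k + 1) * ξ ≤ μ := by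
    have h2 : 0 ≤ 16 * ((k : ℝ) + 1) * ξ := by positivity
    have h3 := mul_le_mul_of_nonneg_left h16 h2
    linarith
  have hξ2 : 2 * k * ξ * 16 ^ k ≤ μ := by
    have h2 : 0 ≤ ξ * 16 ^ k := by positivity
    have h3 : 2 * (k : ℝ) ≤ 16 * (k + 1) := by linarith
    have h4 := mul_le_mul_of_nonneg_right h3 h2
    linarith
  have hξs' : (2 * (k : ℝ) + 1) * (2 * ξ) ≤ μ / 4 := by nlinarith
  have hξk : (k : ℝ) * ξ ≤ μ / 4 := by nlinarith
  refine ⟨K0 * ((k + 1) * 8 ^ k) / μ + 1, by positivity, fun c0 => ?_⟩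
  obtain ⟨Nq, hNq⟩ : ∃ Nq, Nq = N + r + 2 := ⟨_, rfl⟩
  rw [← hNq]
  have hNN : N ≤ Nq := by omega
  obtain ⟨G, hG⟩ : ∃ G, G = DK k Nq (r * N) E + 2 * FK Nq E d A + 1 := ⟨_, rfl⟩
  obtain ⟨X0, hX0⟩ := sw G
  obtain ⟨Be, hBe⟩ := supv (G + 4 * k)
  obtain ⟨Y1, hY1⟩ := hBe (Be + 2)
  obtain ⟨Y2, hY2⟩ := Vz_inv_small (Be + 2)
  obtain ⟨Y3, hY3⟩ := two_par (2 * k) (2 * (Be + 2)) 1 (by omega)
  have hv : 1 ≤ r * N := Nat.mul_pos hr (by omega)
  obtain ⟨H1, hH1⟩ := fk_evt k Nq (r * N) E d A hv hE κ η ξ δ' c0 hκ0 hκ1 hη0 hξ0 hδ0' hδ1'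
  obtain ⟨H2, hH2⟩ := eventually_atTop.1 (((evt_log_pow (1 / 8) (by norm_num) 2
    (DK k Nq (r * N) E)).and (evt_log_ge (8 + 8 / μ))).and
    ((evt_ll ((Z1 + 4 * k + 3) / κ)).and (eventually_ge_atTop (3 + Y3 ^ 2))))
  refine ⟨max (max X0 H1) (max (max Y1 Y2) H2), fun H hH => ?_⟩
  have hHX0 : X0 ≤ H := ((le_max_left _ _).trans (le_max_left _ _)).trans hH
  have hHH1 : H1 ≤ H := ((le_max_right _ _).trans (le_max_left _ _)).trans hH
  have hHY1 : Y1 ≤ H := ((le_max_left _ _).trans ((le_max_left _ _).trans (le_max_right _ _))).trans hH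
  have hHY2 : Y2 ≤ H := ((le_max_right _ _).trans ((le_max_left _ _).trans (le_max_right _ _))).trans hH
  have hHH2 : H2 ≤ H := ((le_max_right _ _).trans (le_max_right _ _)).trans hH
  obtain ⟨⟨g1, g2⟩, g3, g4⟩ := hH2 H hHH2
  have hF := hH1 H hHH1
  refine ⟨⟨η, ξ, hF⟩, fun P hPd hP cs I ps hI hT hbc hd hcop hK => ?_⟩
  have hYH := hF.YH
  obtain ⟨M, hM0, hM1, hM2⟩ := hX0 (YK Nq E d A H) (hHX0.trans hYH)
  have l4 := hF.l4
  have hl0 : 0 < Real.log H := by linarith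
  have hW1 := hF.W1
  have hT1 := hF.T1
  have h2T : 1 ≤ 2 * TK E H := by omega
  have hYq := hF.Yq
  have hH3 : (3 : ℝ) ≤ H := by
    have : 3 ≤ H := by omega
    exact_mod_cast this
  have hH0' : (0 : ℝ) < H := by linarith
  have hle1 : 2 * TK E H ≤ WK κ H * (2 * TK E H) ^ Nq := by
    calc 2 * TK E H = (2 * TK E H) ^ 1 := (pow_one _).symm
      _ ≤ (2 * TK E H) ^ Nq := Nat.pow_le_pow_right h2T (by omega)
      _ ≤ _ := Nat.le_mul_of_pos_left _ hW1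
  have hRY : 2 * TK E H ≤ (YK Nq E d A H).sqrt := (hle1.trans hYq).trans (Nat.sqrt_le_self _)
  have hlogYH : Real.log H ≤ Real.log (YK Nq E d A H) :=
    Real.log_le_log hH0' (by exact_mod_cast hYH)
  obtain ⟨Y, hY⟩ : ∃ Y, Y = YK Nq E d A H := ⟨_, rfl⟩
  obtain ⟨L, hL⟩ : ∃ L, L = Real.log Y := ⟨_, rfl⟩
  obtain ⟨Un, hUn⟩ : ∃ Un, Un = UK k Nq (r * N) E H := ⟨_, rfl⟩
  obtain ⟨W, hW⟩ : ∃ W, W = WK κ H := ⟨_, rfl⟩
  obtain ⟨T, hTd⟩ : ∃ T, T = TK E H := ⟨_, rfl⟩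
  obtain ⟨ω, hω⟩ : ∃ ω, ω = (W : ℝ) / Nat.totient W := ⟨_, rfl⟩
  obtain ⟨σ, hσd⟩ : ∃ σ, σ = SK k Nq (r * N) E κ H := ⟨_, rfl⟩
  have hLH : Real.log H ≤ L := by rw [hL, hY]; exact hlogYH
  have hL8 : 8 + 8 / μ ≤ L := by linarith
  have hL1 : 1 ≤ L := by
    have : 0 ≤ 8 / μ := by positivity
    linarith
  have hL2 : 2 ≤ L := by
    have : 0 ≤ 8 / μ := by positivity
    linarith
  have hLle : L ≤ 2 * Real.log H := by
    rw [hL, hY]
    refine hF.Ylog.trans ?_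
    apply mul_le_mul_of_nonneg_right _ hl0.le
    linarith
  -- the level of the sieve
  obtain ⟨z, hz⟩ : ∃ z, z = ⌈L ^ (Be + 1)⌉₊ := ⟨_, rfl⟩
  have hzge : L ^ (Be + 1) ≤ z := by rw [hz]; exact Nat.le_ceil _
  have hzge0 : L ^ Be ≤ z := (pow_le_pow_right₀ hL1 (by omega)).trans hzge
  have hzle : (z : ℝ) ≤ L ^ (Be + 2) := by
    have h1 : (z : ℝ) < L ^ (Be + 1) + 1 := by rw [hz]; exact Nat.ceil_lt_add_one (by positivity)
    have h2 : 1 ≤ L ^ (Be + 1) := one_le_pow₀ hL1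
    have h3 : 2 * L ^ (Be + 1) ≤ L ^ (Be + 2) := by
      rw [pow_succ L (Be + 1), mul_comm]
      exact mul_le_mul_of_nonneg_left hL2 (by positivity)
    linarith
  have hzL : L ≤ z := by
    refine le_trans ?_ hzge
    calc L = L ^ 1 := (pow_one L).symm
      _ ≤ _ := pow_le_pow_right₀ hL1 (by omega)
  have hz1 : 1 ≤ z := by
    have : (1 : ℝ) ≤ z := hL1.trans hzL
    exact_mod_cast this
  -- the first level
  have hκl : (Z1 : ℝ) + 4 * k + 3 ≤ κ * Real.log (Real.log H) := by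
    have := mul_le_mul_of_nonneg_left g3 hκ0.le
    rwa [mul_div_cancel₀ _ hκ0.ne'] at this
  have hz0ge : Z1 + 4 * k + 3 ≤ zK κ H := by
    unfold zK
    apply Nat.le_floor
    push_cast
    exact hκl
  have hll0 : 0 ≤ Real.log (Real.log H) := Real.log_nonneg (by linarith)
  have hz0le : zK κ H ≤ z := by
    have h1 : (zK κ H : ℝ) ≤ κ * Real.log (Real.log H) := by
      unfold zK; exact Nat.floor_le (by positivity)
    have h2 : κ * Real.log (Real.log H) ≤ 1 * Real.log (Real.log H) :=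
      mul_le_mul_of_nonneg_right hκ1 hll0
    have h3 := Real.log_le_sub_one_of_pos hl0
    have h4 : (zK κ H : ℝ) ≤ z := by linarith
    exact_mod_cast h4
  have hWz : ∀ p : ℕ, p.Prime → ¬ p ∣ W → zK κ H ≤ p := by
    intro p hp hnd
    by_contra hcon
    push Not at hcon
    rw [hW] at hnd
    exact hnd ((dvd_Wz (zK κ H) p hp).2 hcon)
  -- the number of parameters
  have hDpos : 0 < Real.log H ^ (DK k Nq (r * N) E) := by positivity
  have hUge : (H : ℝ) ^ (1 / 2 : ℝ) ≤ Un := by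
    have h1 : (H : ℝ) / Real.log H ^ (DK k Nq (r * N) E) - 1 < Un := by
      rw [hUn]; unfold UK; exact Nat.sub_one_lt_floor _
    have h2 : 2 * (H : ℝ) ^ (1 / 2 : ℝ) ≤ H / Real.log H ^ (DK k Nq (r * N) E) := by
      rw [le_div_iff₀ hDpos]
      calc 2 * (H : ℝ) ^ (1 / 2 : ℝ) * Real.log H ^ (DK k Nq (r * N) E) =
            (H : ℝ) ^ (1 / 2 : ℝ) * (2 * Real.log H ^ (DK k Nq (r * N) E)) := by ring
        _ ≤ (H : ℝ) ^ (1 / 2 : ℝ) * (H : ℝ) ^ (1 / 8 : ℝ) := mul_le_mul_of_nonneg_left g1 (by positivity)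
        _ = (H : ℝ) ^ (1 / 2 + 1 / 8 : ℝ) := (Real.rpow_add hH0' _ _).symm
        _ ≤ (H : ℝ) ^ (1 : ℝ) := Real.rpow_le_rpow_of_exponent_le (by linarith) (by norm_num)
        _ = H := Real.rpow_one _
    have h3 : (1 : ℝ) ≤ (H : ℝ) ^ (1 / 2 : ℝ) := Real.one_le_rpow (by linarith) (by norm_num)
    linarith
  have hU1 : 1 ≤ Un := by rw [hUn]; exact hF.U1
  have hU0 : (0 : ℝ) < Un := by exact_mod_cast hU1
  have hlogU : Real.log H ≤ 2 * Real.log Un := by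
    have h1 := Real.log_le_log (by positivity) hUge
    rw [Real.log_rpow hH0'] at h1
    linarith
  have hUY3 : Y3 ≤ Un := by
    have h1 : (Y3 : ℝ) ≤ (H : ℝ) ^ (1 / 2 : ℝ) := by
      rw [← Real.sqrt_eq_rpow]
      apply Real.le_sqrt_of_sq_le
      have : Y3 ^ 2 ≤ H := by omega
      exact_mod_cast this
    exact_mod_cast h1.trans hUge
  have hlU4 : 4 ≤ Real.log Un := by
    have : 0 ≤ 8 / μ := by positivity
    linarith
  have hzU : (z : ℝ) ≤ Real.log Un ^ (2 * (Be + 2)) := by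
    refine hzle.trans ?_
    rw [pow_mul]
    apply pow_le_pow_left₀ (by linarith)
    nlinarith
  have hω1 : 1 ≤ ω := by
    have hW1' : 1 ≤ W := by rw [hW]; exact hW1
    have h1 : (0 : ℝ) < Nat.totient W := by exact_mod_cast Nat.totient_pos.2 hW1'
    rw [hω, le_div_iff₀ h1, one_mul]
    exact_mod_cast Nat.totient_le W
  have hδη : Real.log (((2 * T : ℕ) ^ Nq : ℕ) : ℝ) ≤ η * (zK κ H * Real.log (zK κ H)) := by
    rw [hTd]; exact hF.δη
  have hT1' : 1 ≤ T := by rw [hTd]; exact hT1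
  have hpowT : ∀ m : ℕ, m ≤ Nq → (2 * T) ^ m ≤ (2 * T) ^ Nq := fun m hm =>
    Nat.pow_le_pow_right (by omega) hm
  -- the main term
  obtain ⟨D, hD⟩ : ∃ D, D = ω ^ (2 * k) * Real.exp (2 * ((2 * k : ℕ) : ℝ) ^ 2 / ((zK κ H - 1 : ℕ) : ℝ)) *
      ((1 + 2 * η) ^ (2 * k)) ^ ((2 * k) ^ 2) + 1 / Real.log Un ^ 1 := ⟨_, rfl⟩
  have htwo : ∀ v μ' : ℕ → ℤ, (∀ j < 2 * k, (v j).natAbs.Coprime W) →
      (∀ i < 2 * k, ∀ j < 2 * k, i ≠ j → μ' i ≠ μ' j) →
      (∀ i < 2 * k, ∀ j < 2 * k, i ≠ j → (μ' i - μ' j).natAbs ≤ (2 * T) ^ (r + 2)) →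
      ∑ n ∈ Icc 1 Un, ∑ m ∈ Icc 1 Un, ∏ j ∈ range (2 * k), gz z (v j + W * (n * μ' j + m)) ≤
        (Un : ℝ) ^ 2 * D := by
    intro v μ' h1 h2 h3
    have h4 := hY3 Un hUY3 z hz1 hzU W (zK κ H) (by rw [hW]; exact hW1) hF.z2 (by omega) hz0le hWz v μ' h1
      η hη0.le hη1 h2 (by
        intro i hi j hj hij
        refine le_trans (Real.log_le_log ?_ ?_) hδη
        · have := Int.natAbs_pos.2 (sub_ne_zero.2 (h2 i hi j hj hij))
          exact_mod_cast this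
        · exact_mod_cast (h3 i hi j hj hij).trans (hpowT (r + 2) (by omega)))
    rw [hD, hω]
    exact h4
  have hDle : D ≤ ω ^ (2 * k) * (1 + μ / 4) + μ / 4 := by
    rw [hD, mul_assoc]
    apply add_le_add
    · apply mul_le_mul_of_nonneg_left _ (by positivity)
      exact hη2 (zK κ H) (by omega)
    · rw [pow_one, div_le_iff₀ (by linarith)]
      have h1 : 4 / μ ≤ Real.log Un := by
        have e : 8 / μ = 2 * (4 / μ) := by ring
        have : 8 / μ ≤ 2 * Real.log Un := by linarith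
        linarith
      rw [div_le_iff₀ hμ0] at h1
      linarith
  -- the Fourier bound
  obtain ⟨B, hB⟩ : ∃ B, B = (Y : ℝ) / L ^ (G + 4 * k) := ⟨_, rfl⟩
  have hL0 : 0 < L := by linarith
  have hY0 : (0 : ℝ) ≤ Y := Nat.cast_nonneg _
  have hV : ∀ t : ℕ, ‖∑ m ∈ Icc (-(Y : ℤ)) Y, (vz (2 * T) z m : ℂ) *
      Pool.Agent.H807R2.Dav.ee ((t : ℝ) * ((m : ℝ) / ((2 * Y + 1 : ℕ) : ℝ)))‖ ≤ B := by
    intro t
    rw [hB, hL]
    have hYY1 : Y1 ≤ Y := by rw [hY]; exact hHY1.trans hYH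
    exact hY1 Y hYY1 z (by rw [← hL]; exact hzge0) (by rw [← hL]; exact hzle) (2 * T)
      (by rw [hY, hTd]; exact hRY) (2 * Y + 1) t
  have hVz : (Vz z)⁻¹ ≤ L := by
    rw [hL]
    have hYY2 : Y2 ≤ Y := by rw [hY]; exact hHY2.trans hYH
    exact hY2 Y hYY2 z hz1 (by rw [← hL]; exact hzle)
  have hMbd := hF.Mbd
  rw [← hY, ← hL, ← hG, ← hUn] at hMbd
  have hBU : 2 * (k : ℝ) * (B * L ^ (2 * (2 * k)) / Un) ≤ μ / 4 := by
    have e : B * L ^ (2 * (2 * k)) / Un = (Y / L ^ G) / Un := by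
      rw [hB, pow_add, show 2 * (2 * k) = 4 * k by ring]
      field_simp
    rw [e]
    have e2 : 2 * (k : ℝ) * (Y / L ^ G / Un) = k * (2 * (Y / L ^ G) / Un) := by ring
    rw [e2]
    have := mul_le_mul_of_nonneg_left hMbd (show (0 : ℝ) ≤ k by positivity)
    linarith
  have hYb : ∀ c : Fin r × Fin N → ℤ, (∀ i, |c i| ≤ H + σ) → ∀ x : Fin r × ℤ, |x.2| ≤ T →
      |ev P c x| + (W * (2 * T) ^ N * Un : ℕ) + 1 ≤ Y := by
    intro c hc x hx
    rw [hσd] at hc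
    rw [hTd] at hx
    rw [hW, hTd, hUn, hY]
    exact size_Y hNN hF P hPd hP c hc x hx
  have hYb2 : ∀ c : Fin r × Fin N → ℤ, (∀ i, |c i| ≤ H + σ) → ∀ x : Fin r × ℤ, |x.2| ≤ T →
      |ev P c x| ≤ Y := by
    intro c hc x hx
    have h1 := hYb c hc x hx
    have h2 : (0 : ℤ) ≤ ((W * (2 * T) ^ N * Un : ℕ) : ℤ) := Int.natCast_nonneg _
    linarith
  have hσe : σ = W * Un * (1 + T) ^ Nq := by
    rw [hσd, hW, hUn, hTd]; rfl
  have hσN : ∀ m : ℕ, m ≤ Nq → W * Un * (1 + T) ^ m ≤ σ := by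
    intro m hm
    rw [hσe]
    exact Nat.mul_le_mul_left _ (Nat.pow_le_pow_right (by omega) hm)
  have hσ2 : 2 * (W * Un * (1 + T) ^ N) ≤ σ := by
    have h1 := hσN (N + 1) (by omega)
    refine le_trans ?_ h1
    have h2 : 2 ≤ 1 + T := by omega
    calc 2 * (W * Un * (1 + T) ^ N) ≤ (1 + T) * (W * Un * (1 + T) ^ N) := Nat.mul_le_mul_right _ h2
      _ = _ := by ring
  have hcard : Fintype.card (Fin r × Fin N) = r * N := by
    rw [Fintype.card_prod, Fintype.card_fin, Fintype.card_fin]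
  have hξst : L ^ (2 * k) * (strip H W σ cs).card ≤ ξ * (Bx H W cs).card := by
    rw [hL, hY, hσd, hW]
    refine le_trans ?_ ((hF.strip).trans ?_)
    · apply mul_le_mul_of_nonneg_left _ (pow_nonneg (by linarith) _)
      have h1 := strip_card H (WK κ H) (SK k Nq (r * N) E κ H) cs
      rw [hcard] at h1
      exact h1
    · apply mul_le_mul_of_nonneg_left _ hξ0.le
      have h1 := Bx_card H (WK κ H) hW1 hF.WH cs
      rw [hcard] at h1
      exact h1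
  have hIpos : (0 : ℝ) < I.card := by
    refine lt_of_lt_of_le ?_ hI
    positivity
  have hIne : I.Nonempty := card_pos.1 (by exact_mod_cast hIpos)
  rw [← hTd] at hT
  rw [← hW] at hcop
  -- pairs
  have hpair : ∀ n ∈ I, ∀ n' ∈ I, (∀ i < k, ∀ j < k, ps n i ≠ ps n' j) →
      ∑ c ∈ Bx H W cs, Fw P (2 * T) (pr k (ps n) (ps n')) (2 * k) c ≤
        (Bx H W cs).card * (((W : ℝ) / Nat.totient W) ^ (2 * k) * (1 + μ)) := by
    intro n hn n' hn' hb
    have h1 := pairU hN P (2 * T) z Y (2 * Y + 1) (by omega) B L hV hL1 (by rw [hL]) hVz W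
      (by rw [hW]; exact hW1) H σ Un T hU1 hT1' cs (pr k (ps n) (ps n')) k
      (fun a => by rw [bc_lo]; have := hbc n hn a; omega)
      (fun a => by rw [bc_hi]; have := hbc n' hn' a; omega)
      (by
        intro l hl
        unfold pr
        split_ifs with h
        · exact hT n hn l h
        · exact hT n' hn' (l - k) (by omega))
      (by
        intro l hl l' hl' hne
        unfold pr
        split_ifs with h h' h'
        · exact hd n hn l h l' h' hne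
        · exact hb l h (l' - k) (by omega)
        · exact (hb l' h' (l - k) (by omega)).symm
        · exact hd n' hn' (l - k) (by omega) (l' - k) (by omega) (by omega))
      (by
        intro l hl
        unfold pr
        split_ifs with h
        · exact hcop n hn l h
        · exact hcop n' hn' (l - k) (by omega))
      hσ2 (hσN (r + 2) (by omega)) hYb2 D htwo
    refine h1.trans ?_
    rw [← hω]
    obtain ⟨Ac, hAc⟩ : ∃ Ac : ℝ, Ac = (Bx H W cs).card := ⟨_, rfl⟩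
    have hAc0 : 0 ≤ Ac := by rw [hAc]; exact Nat.cast_nonneg _
    rw [← hAc] at hξst ⊢
    have hωp : 1 ≤ ω ^ (2 * k) := one_le_pow₀ hω1
    have h2 : (2 * (k : ℝ) + 1) * (2 * L ^ (2 * k) * (strip H W σ cs).card) ≤ Ac * (μ / 4) := by
      have h3 := mul_le_mul_of_nonneg_left hξst (show (0 : ℝ) ≤ 2 * (2 * k + 1) by positivity)
      have h4 := mul_le_mul_of_nonneg_right hξs' hAc0
      linarith
    have h5 : D + 2 * k * (B * L ^ (2 * (2 * k)) / Un) ≤ ω ^ (2 * k) * (1 + μ / 4) + μ / 4 + μ / 4 := by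
      linarith
    have h6 := mul_le_mul_of_nonneg_left h5 hAc0
    have h7 : μ / 4 + μ / 4 + μ / 4 ≤ ω ^ (2 * k) * (3 * (μ / 4)) := by
      have := mul_le_mul_of_nonneg_right hωp (show 0 ≤ 3 * (μ / 4) by positivity)
      linarith
    have h8 := mul_le_mul_of_nonneg_left h7 hAc0
    have e : Ac * (ω ^ (2 * k) * (1 + μ)) = Ac * (ω ^ (2 * k) * (1 + μ / 4)) +
      Ac * (ω ^ (2 * k) * (3 * (μ / 4))) := by ring
    rw [e]
    linarith
  have hmain := classU k P (2 * T) Y M (by rw [hY]; exact hM1 _ (by rw [hTd]; exact hRY)) hM0 W (zK κ H)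
    (by rw [hW]; exact hW1) hF.z2 hWz H σ Un T hU1 cs
    (fun p hp hpd => by
      rw [hW] at hpd
      have := (dvd_Wz (zK κ H) p hp).1 hpd
      have := hF.zT
      rw [hTd]
      omega) le_rfl (hσN N hNN) hYb hT1' η hη0.le hη1 (by
      refine le_trans (Real.log_le_log ?_ ?_) hδη
      · have : 0 < (2 * T) ^ N := Nat.pow_pos (by omega)
        exact_mod_cast this
      · exact_mod_cast hpowT N hNN) ξ hξ0.le hξ1 (by
      intro δ₁ h1 h2
      have h3 := hM2 (W * δ₁) (Nat.mul_pos (by rw [hW]; exact hW1) h1) (by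
        rw [hW]
        refine (Nat.mul_le_mul_left _ (h2.trans (hpowT N hNN))).trans ?_
        rw [hTd]
        exact hYq)
      refine le_trans ?_ hMbd
      rw [← hY, ← hL] at h3
      gcongr) (by rw [← hL]; exact hL1) (by rw [← hL]; exact hξst)
    I hIne ps hT hbc hd hcop K0 hK δ hδ μ hμ0.le hpair
  rw [← hW, ← hTd]
  have hA0 : (0 : ℝ) ≤ (Bx H W cs).card := Nat.cast_nonneg _
  have h3 : K0 * ((k + 1) * 4 ^ k * Real.log Y ^ k) / I.card ≤ μ := by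
    rw [div_le_iff₀ hIpos, ← hL]
    have h4 : L ^ k ≤ (2 * Real.log H) ^ k := pow_le_pow_left₀ (by linarith) hLle k
    have h5 : (K0 * ((k + 1) * 8 ^ k) / μ) * Real.log H ^ k ≤ I.card := by
      refine le_trans ?_ hI
      apply mul_le_mul_of_nonneg_right _ (by positivity)
      linarith
    have h6 : K0 * ((k + 1) * 8 ^ k) * Real.log H ^ k ≤ μ * I.card := by
      have := mul_le_mul_of_nonneg_left h5 hμ0.le
      calc K0 * ((k + 1) * 8 ^ k) * Real.log H ^ k =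
            μ * (K0 * ((k + 1) * 8 ^ k) / μ * Real.log H ^ k) := by field_simp
        _ ≤ _ := this
    refine le_trans ?_ h6
    calc K0 * ((k + 1) * 4 ^ k * L ^ k) ≤
          K0 * ((k + 1) * 4 ^ k * (2 * Real.log H) ^ k) := by gcongr
      _ = K0 * ((k + 1) * 8 ^ k) * Real.log H ^ k := by
          rw [mul_pow, show (8 : ℝ) ^ k = 4 ^ k * 2 ^ k by rw [← mul_pow]; norm_num]
          ring
  have h7 := hmain.trans (mul_le_mul_of_nonneg_left (add_le_add (add_le_add le_rfl hξ2) h3) hA0)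
  have hδ2 : 0 < δ ^ 2 := by positivity
  have h8 : (Bx H W cs).card * (μ + μ + μ) ≤ (lam * (Bx H W cs).card) * δ ^ 2 := by
    have e : (lam * ((Bx H W cs).card : ℝ)) * δ ^ 2 = (Bx H W cs).card * (4 * μ) := by
      rw [hμ]; ring
    rw [e]
    apply mul_le_mul_of_nonneg_left _ hA0
    linarith
  exact le_of_mul_le_mul_right (h7.trans h8) hδ2

end Pool.Agent.N913.KU
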