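import Pool.Agent.N913.KS.S12

set_option autoImplicit false
set_option linter.unusedSectionVars false

/-! Local moments from pairwise independence. -/

namespace Pool.Agent.N913.KS

open Finset Polynomial
open Pool.Agent.N913.KT (pol om)

/-- indicator of a zero -/
noncomputable def za {r N p : ℕ} (Q : Fin r → (ZMod p)[X]) (x : Fin r × ZMod p)
    (c : Fin r × Fin N → ZMod p) : ℝ := if evp Q c x = 0 then 1 else 0

theorem za1 {r N p : ℕ} [Fact p.Prime] (hN : 1 ≤ N) (Q : Fin r → (ZMod p)[X]) (x : Fin r × ZMod p) :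
    ∑ c : Fin r × Fin N → ZMod p, za Q x c = (p : ℝ) ^ (r * N) / p := by
  classical
  have hp0 : (0 : ℝ) < p := by exact_mod_cast (Fact.out : p.Prime).pos
  have h1 := cnt (N := N) Q {x} (fun a => (card_filter_le _ _).trans (by rw [card_singleton]; exact hN))
  rw [card_singleton, pow_one] at h1
  have h2 : (((univ : Finset (Fin r × Fin N → ZMod p)).filter (fun c => ∀ y ∈ ({x} : Finset _), evp Q c y ≠ 0)).card : ℝ) =
      ∑ c : Fin r × Fin N → ZMod p, (1 - za Q x c) := by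
    rw [card_filter]
    push_cast
    apply sum_congr rfl
    intro c _
    unfold za
    by_cases h : evp Q c x = 0
    · rw [if_pos h, if_neg (fun g => g x (mem_singleton_self x) h), sub_self]
    · rw [if_neg h, if_pos (fun y hy => by rw [mem_singleton.1 hy]; exact h), sub_zero]
  rw [h2, sum_sub_distrib, sum_const, card_univ, Fintype.card_fun, ZMod.card, Fintype.card_prod,
    Fintype.card_fin, Fintype.card_fin, nsmul_eq_mul, mul_one] at h1
  push_cast at h1
  have e : (p : ℝ) ^ (r * N) * (1 - 1 / p) = (p : ℝ) ^ (r * N) - (p : ℝ) ^ (r * N) / p := by ring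
  rw [e] at h1
  linarith

theorem za2 {r N p : ℕ} [Fact p.Prime] (hN : 2 ≤ N) (Q : Fin r → (ZMod p)[X]) (x y : Fin r × ZMod p)
    (hxy : x ≠ y) :
    ∑ c : Fin r × Fin N → ZMod p, za Q x c * za Q y c = (p : ℝ) ^ (r * N) / (p : ℝ) ^ 2 := by
  classical
  have hp0 : (0 : ℝ) < p := by exact_mod_cast (Fact.out : p.Prime).pos
  have h1 := cnt (N := N) Q {x, y} (fun a => (card_filter_le _ _).trans (by rw [card_pair hxy]; exact hN))
  rw [card_pair hxy] at h1
  have h2 : (((univ : Finset (Fin r × Fin N → ZMod p)).filter (fun c => ∀ w ∈ ({x, y} : Finset _), evp Q c w ≠ 0)).card : ℝ) =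
      ∑ c : Fin r × Fin N → ZMod p, (1 - za Q x c - za Q y c + za Q x c * za Q y c) := by
    rw [card_filter]
    push_cast
    apply sum_congr rfl
    intro c _
    unfold za
    by_cases h : evp Q c x = 0
    · rw [if_pos h, if_neg (fun g => g x (mem_insert_self _ _) h)]
      ring
    · by_cases h' : evp Q c y = 0
      · rw [if_pos h', if_neg h, if_neg (fun g => g y (mem_insert_of_mem (mem_singleton_self y)) h')]
        ring
      · rw [if_neg h, if_neg h', if_pos (fun w hw => by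
          rw [mem_insert, mem_singleton] at hw
          rcases hw with rfl | rfl
          · exact h
          · exact h')]
        ring
  rw [h2, sum_add_distrib, sum_sub_distrib, sum_sub_distrib, za1 (by omega) Q x, za1 (by omega) Q y,
    sum_const, card_univ, Fintype.card_fun, ZMod.card, Fintype.card_prod,
    Fintype.card_fin, Fintype.card_fin, nsmul_eq_mul, mul_one] at h1
  push_cast at h1
  have e : (p : ℝ) ^ (r * N) * (1 - 1 / p) ^ 2 = (p : ℝ) ^ (r * N) - (p : ℝ) ^ (r * N) / p -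
      (p : ℝ) ^ (r * N) / p + (p : ℝ) ^ (r * N) / (p : ℝ) ^ 2 := by
    field_simp
    ring
  rw [e] at h1
  linarith

theorem cnt_le {r N p : ℕ} [Fact p.Prime] (hN : 2 ≤ N) (Q : Fin r → (ZMod p)[X])
    (T : Finset (Fin r × ZMod p)) :
    (((univ : Finset (Fin r × Fin N → ZMod p)).filter (fun c => ∀ y ∈ T, evp Q c y ≠ 0)).card : ℝ) ≤
      (p : ℝ) ^ (r * N) * (1 - T.card / p + (T.card : ℝ) ^ 2 / (p : ℝ) ^ 2) := by
  classical
  have hp0 : (0 : ℝ) < p := by exact_mod_cast (Fact.out : p.Prime).pos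
  obtain ⟨M, hM⟩ : ∃ M : ℝ, M = (p : ℝ) ^ (r * N) := ⟨_, rfl⟩
  have hM0 : 0 ≤ M := by rw [hM]; positivity
  obtain ⟨D, hD⟩ : ∃ D : ℝ, D = T.card := ⟨_, rfl⟩
  have hD0 : 0 ≤ D := by rw [hD]; exact Nat.cast_nonneg _
  obtain ⟨Z, hZ⟩ : ∃ Z : (Fin r × Fin N → ZMod p) → ℝ, Z = fun c => ∑ x ∈ T, za Q x c := ⟨_, rfl⟩
  have h1 : ∑ c, Z c = D * (M / p) := by
    rw [hZ]
    rw [sum_comm, sum_congr rfl (fun x _ => za1 (by omega) Q x), sum_const, nsmul_eq_mul, hD, hM]
  have h2 : ∑ c, Z c ^ 2 ≤ D * (M / p) + D ^ 2 * (M / (p : ℝ) ^ 2) := by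
    have e : ∀ c, Z c ^ 2 = ∑ x ∈ T, ∑ y ∈ T, za Q x c * za Q y c := by
      intro c
      rw [hZ, sq, sum_mul_sum]
    rw [sum_congr rfl (fun c _ => e c), sum_comm]
    have h3 : ∀ x ∈ T, ∑ c : Fin r × Fin N → ZMod p, ∑ y ∈ T, za Q x c * za Q y c ≤ M / p + D * (M / (p : ℝ) ^ 2) := by
      intro x hx
      rw [sum_comm]
      have h4 : ∀ y ∈ T, ∑ c : Fin r × Fin N → ZMod p, za Q x c * za Q y c ≤
          (if y = x then M / p else 0) + M / (p : ℝ) ^ 2 := by
        intro y _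
        have hMp : 0 ≤ M / (p : ℝ) ^ 2 := by positivity
        by_cases hxy : y = x
        · rw [if_pos hxy, hxy]
          have h5 : ∑ c : Fin r × Fin N → ZMod p, za Q x c * za Q x c = ∑ c : Fin r × Fin N → ZMod p, za Q x c := by
            apply sum_congr rfl
            intro c _
            unfold za
            split_ifs <;> simp
          rw [h5, za1 (by omega) Q x, ← hM]
          linarith
        · rw [if_neg hxy, zero_add, za2 hN Q x y (fun h => hxy h.symm), ← hM]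
      refine (sum_le_sum h4).trans (le_of_eq ?_)
      rw [sum_add_distrib, sum_ite_eq' T x, if_pos hx, sum_const, nsmul_eq_mul, hD]
    refine (sum_le_card_nsmul _ _ _ h3).trans (le_of_eq ?_)
    rw [nsmul_eq_mul, ← hD]
    ring
  have h3 : (((univ : Finset (Fin r × Fin N → ZMod p)).filter (fun c => ∀ y ∈ T, evp Q c y ≠ 0)).card : ℝ) ≤
      ∑ c, (1 - 3 / 2 * Z c + 1 / 2 * Z c ^ 2) := by
    rw [card_filter]
    push_cast
    apply sum_le_sum
    intro c _
    have hZn : Z c = ((T.filter (fun x => evp Q c x = 0)).card : ℝ) := by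
      rw [hZ, card_filter]
      push_cast
      rfl
    by_cases h : ∀ y ∈ T, evp Q c y ≠ 0
    · rw [if_pos h]
      have : T.filter (fun x => evp Q c x = 0) = ∅ := filter_eq_empty_iff.2 (fun x hx => h x hx)
      rw [hZn, this, card_empty, Nat.cast_zero]
      norm_num
    · rw [if_neg h]
      push Not at h
      obtain ⟨y, hy, h0⟩ := h
      have hpos : 1 ≤ (T.filter (fun x => evp Q c x = 0)).card :=
        card_pos.2 ⟨y, mem_filter.2 ⟨hy, h0⟩⟩
      obtain ⟨n, hn⟩ : ∃ n, n = (T.filter (fun x => evp Q c x = 0)).card := ⟨_, rfl⟩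
      rw [← hn] at hpos hZn
      rw [hZn]
      have h5 : 0 ≤ ((n : ℝ) - 1) * ((n : ℝ) - 2) := by
        rcases Nat.lt_or_ge n 2 with g | g
        · have : n = 1 := by omega
          rw [this]; norm_num
        · have g1 : (2 : ℝ) ≤ n := by exact_mod_cast g
          exact mul_nonneg (by linarith) (by linarith)
      nlinarith
  refine h3.trans ?_
  rw [sum_add_distrib, sum_sub_distrib, ← mul_sum, ← mul_sum, h1, sum_const, card_univ, Fintype.card_fun,
    ZMod.card, Fintype.card_prod, Fintype.card_fin, Fintype.card_fin, nsmul_eq_mul, mul_one]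
  push_cast
  rw [← hM, ← hD]
  have h6 : 0 ≤ D ^ 2 * (M / (p : ℝ) ^ 2) := by positivity
  have e : M * (1 - D / p + D ^ 2 / (p : ℝ) ^ 2) = M - D * (M / p) + D ^ 2 * (M / (p : ℝ) ^ 2) := by ring
  rw [e]
  linarith

theorem mom1V {r k N p : ℕ} [Fact p.Prime] (α : Fin k → Fin r) (τ : Fin k → ℤ[X]) (P : Fin r → ℤ[X])
    (hN : ∀ a, (univ.filter (fun i => α i = a)).card + 1 ≤ N) :
    (p : ℝ) * ((p : ℝ) ^ (r * N) * (1 - 1 / (p : ℝ)) ^ k) ≤
      ∑ c : Fin r × Fin N → ZMod p, (Bp α τ P p c : ℝ) := by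
  classical
  have hp := (Fact.out : p.Prime)
  have hp1 : (1 : ℝ) < p := by exact_mod_cast hp.one_lt
  have hq0 : 0 ≤ 1 - 1 / (p : ℝ) := by
    have : 1 / (p : ℝ) ≤ 1 := by rw [div_le_one (by linarith)]; linarith
    linarith
  have hq1 : 1 - 1 / (p : ℝ) ≤ 1 := by
    have : 0 ≤ 1 / (p : ℝ) := by positivity
    linarith
  have e : ∑ c : Fin r × Fin N → ZMod p, (Bp α τ P p c : ℝ) =
      ∑ n ∈ range p, (((univ : Finset (Fin r × Fin N → ZMod p)).filter
        (fun c => ∀ x ∈ Tn α τ p n, evp (Qp P p) c x ≠ 0)).card : ℝ) := by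
    unfold Bp
    simp only [card_filter]
    push_cast
    rw [sum_comm]
  rw [e]
  have h1 : ∀ n ∈ range p, (p : ℝ) ^ (r * N) * (1 - 1 / (p : ℝ)) ^ k ≤
      (((univ : Finset (Fin r × Fin N → ZMod p)).filter
        (fun c => ∀ x ∈ Tn α τ p n, evp (Qp P p) c x ≠ 0)).card : ℝ) := by
    intro n _
    rw [cnt (Qp P p) (Tn α τ p n) (fun a => (Tn_bc α τ p n a).trans (by have := hN a; omega))]
    apply mul_le_mul_of_nonneg_left _ (by positivity)
    exact pow_le_pow_of_le_one hq0 hq1 (Tn_card α τ p n)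
  have h2 := card_nsmul_le_sum _ _ _ h1
  rw [card_range, nsmul_eq_mul] at h2
  exact h2

theorem mom2V {r k N p : ℕ} [Fact p.Prime] (α : Fin k → Fin r) (τ : Fin k → ℤ[X]) (P : Fin r → ℤ[X])
    (hτ : ∀ i, 1 ≤ (τ i).natDegree) (hinj : Function.Injective (fun i => (α i, τ i)))
    (hN : 2 ≤ N) (hG : Gp α τ p) :
    ∑ c : Fin r × Fin N → ZMod p, (Bp α τ P p c : ℝ) ^ 2 ≤
      (p : ℝ) ^ (r * N) * ((p : ℝ) ^ 2 * (1 - 1 / (p : ℝ)) ^ (2 * k) +
        (6 * k * (k * k * ∑ j, (τ j).natDegree : ℕ) + 4 * k ^ 2)) := by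
  classical
  have hp := (Fact.out : p.Prime)
  have hp1 : (1 : ℝ) < p := by exact_mod_cast hp.one_lt
  have hq0 : 0 ≤ 1 - 1 / (p : ℝ) := by
    have : 1 / (p : ℝ) ≤ 1 := by rw [div_le_one (by linarith)]; linarith
    linarith
  have hq1 : 1 - 1 / (p : ℝ) ≤ 1 := by
    have : 0 ≤ 1 / (p : ℝ) := by positivity
    linarith
  obtain ⟨C1, hC1⟩ : ∃ C1, C1 = k * k * ∑ j, (τ j).natDegree := ⟨_, rfl⟩
  rw [← hC1]
  have e : ∑ c : Fin r × Fin N → ZMod p, (Bp α τ P p c : ℝ) ^ 2 =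
      ∑ n ∈ range p, ∑ m ∈ range p, (((univ : Finset (Fin r × Fin N → ZMod p)).filter
        (fun c => ∀ x ∈ Tn α τ p n ∪ Tn α τ p m, evp (Qp P p) c x ≠ 0)).card : ℝ) := by
    have e1 : ∀ c : Fin r × Fin N → ZMod p, (Bp α τ P p c : ℝ) ^ 2 =
        ∑ n ∈ range p, ∑ m ∈ range p,
          (if ∀ x ∈ Tn α τ p n ∪ Tn α τ p m, evp (Qp P p) c x ≠ 0 then (1 : ℝ) else 0) := by
      intro c
      unfold Bp
      rw [card_filter]
      push_cast
      rw [sq, sum_mul_sum]
      apply sum_congr rfl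
      intro n _
      apply sum_congr rfl
      intro m _
      rw [ite_zero_mul_ite_zero, mul_one]
      by_cases h : ∀ x ∈ Tn α τ p n ∪ Tn α τ p m, evp (Qp P p) c x ≠ 0
      · rw [if_pos h, if_pos (forall_mem_union.1 h)]
      · rw [if_neg h, if_neg (fun h2 => h (forall_mem_union.2 h2))]
    rw [sum_congr rfl (fun c _ => e1 c), sum_comm]
    apply sum_congr rfl
    intro n _
    rw [sum_comm]
    apply sum_congr rfl
    intro m _
    rw [card_filter]
    push_cast
    rfl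
  rw [e]
  obtain ⟨q, hq⟩ : ∃ q, q = 1 - 1 / (p : ℝ) := ⟨_, rfl⟩
  rw [← hq]
  have hbern : 1 - 2 * k / p ≤ q ^ (2 * k) := by
    have h1 := one_add_mul_le_pow (a := -(1 / (p : ℝ))) (by
      have : 1 / (p : ℝ) ≤ 1 := by rw [div_le_one (by linarith)]; linarith
      linarith) (2 * k)
    have e2 : 1 + -(1 / (p : ℝ)) = q := by rw [hq]; ring
    rw [e2] at h1
    refine le_trans (le_of_eq ?_) h1
    push_cast
    ring
  have hterm : ∀ n ∈ range p, ∀ m ∈ range p, (((univ : Finset (Fin r × Fin N → ZMod p)).filter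
        (fun c => ∀ x ∈ Tn α τ p n ∪ Tn α τ p m, evp (Qp P p) c x ≠ 0)).card : ℝ) ≤
      (p : ℝ) ^ (r * N) * (q ^ (2 * k) + 4 * (k : ℝ) ^ 2 / (p : ℝ) ^ 2 +
        ((if (Tn α τ p n).card ≠ k then 2 * (k : ℝ) / p else 0) +
        (if (Tn α τ p m).card ≠ k then 2 * (k : ℝ) / p else 0) +
        (if ¬ Disjoint (Tn α τ p n) (Tn α τ p m) then 2 * (k : ℝ) / p else 0))) := by
    intro n _ m _
    have hkp : 0 ≤ 2 * (k : ℝ) / p := by positivity
    have hkp2 : 0 ≤ 4 * (k : ℝ) ^ 2 / (p : ℝ) ^ 2 := by positivity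
    obtain ⟨g, hg⟩ : ∃ g : ℝ, g = (((univ : Finset (Fin r × Fin N → ZMod p)).filter
        (fun c => ∀ x ∈ Tn α τ p n ∪ Tn α τ p m, evp (Qp P p) c x ≠ 0)).card : ℝ) /
          (p : ℝ) ^ (r * N) := ⟨_, rfl⟩
    have hM0 : 0 < (p : ℝ) ^ (r * N) := by positivity
    have hgM : (((univ : Finset (Fin r × Fin N → ZMod p)).filter
        (fun c => ∀ x ∈ Tn α τ p n ∪ Tn α τ p m, evp (Qp P p) c x ≠ 0)).card : ℝ) =
          (p : ℝ) ^ (r * N) * g := by
      rw [hg, mul_div_cancel₀ _ hM0.ne']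
    rw [hgM]
    apply mul_le_mul_of_nonneg_left _ (by positivity)
    have hone : g ≤ q ^ (2 * k) + 2 * (k : ℝ) / p := by
      have : g ≤ 1 := by
        rw [hg, div_le_one hM0]
        have h1 := card_filter_le (univ : Finset (Fin r × Fin N → ZMod p))
          (fun c => ∀ x ∈ Tn α τ p n ∪ Tn α τ p m, evp (Qp P p) c x ≠ 0)
        rw [card_univ, Fintype.card_fun, ZMod.card, Fintype.card_prod, Fintype.card_fin,
          Fintype.card_fin] at h1
        exact_mod_cast h1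
      linarith
    have htwo : (Tn α τ p n ∪ Tn α τ p m).card = 2 * k → g ≤ q ^ (2 * k) + 4 * (k : ℝ) ^ 2 / (p : ℝ) ^ 2 := by
      intro hc
      have h1 := cnt_le hN (Qp P p) (Tn α τ p n ∪ Tn α τ p m)
      rw [hgM, hc] at h1
      have h2 := le_of_mul_le_mul_left h1 hM0
      push_cast at h2
      have e : (2 * (k : ℝ)) ^ 2 / (p : ℝ) ^ 2 = 4 * (k : ℝ) ^ 2 / (p : ℝ) ^ 2 := by ring
      rw [e] at h2
      linarith
    by_cases a1 : (Tn α τ p n).card = k
    · by_cases a2 : (Tn α τ p m).card = k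
      · by_cases a3 : Disjoint (Tn α τ p n) (Tn α τ p m)
        · rw [if_neg (not_not.2 a1), if_neg (not_not.2 a2), if_neg (not_not.2 a3)]
          have := htwo (by rw [card_union_of_disjoint a3, a1, a2, two_mul])
          linarith
        · rw [if_neg (not_not.2 a1), if_neg (not_not.2 a2), if_pos a3]
          linarith
      · rw [if_neg (not_not.2 a1), if_pos a2]
        split_ifs <;> linarith
    · rw [if_pos a1]
      split_ifs <;> linarith
  refine (sum_le_sum fun n hn => sum_le_sum fun m hm => hterm n hn m hm).trans ?_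
  have hb1 : ((range p).filter (fun n => (Tn α τ p n).card ≠ k)).card ≤ C1 := by
    rw [hC1]; exact bad1 α τ hinj hG
  have hb2 : ∀ n, ((range p).filter (fun m => ¬ Disjoint (Tn α τ p n) (Tn α τ p m))).card ≤ C1 := by
    intro n; rw [hC1]; exact bad2 α τ hτ hG n
  have s1 : ∑ n ∈ range p, ∑ _m ∈ range p, (if (Tn α τ p n).card ≠ k then 2 * (k : ℝ) / p else 0) ≤
      2 * k * C1 := by
    have : ∀ n ∈ range p, ∑ _m ∈ range p, (if (Tn α τ p n).card ≠ k then 2 * (k : ℝ) / p else 0) =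
        if (Tn α τ p n).card ≠ k then 2 * (k : ℝ) else 0 := by
      intro n _
      rw [sum_const, card_range, nsmul_eq_mul]
      split_ifs
      · field_simp
      · simp
    rw [sum_congr rfl this, ← sum_filter, sum_const, nsmul_eq_mul]
    have : (((range p).filter (fun n => (Tn α τ p n).card ≠ k)).card : ℝ) ≤ C1 := by exact_mod_cast hb1
    have h2 := mul_le_mul_of_nonneg_right this (show (0 : ℝ) ≤ 2 * k by positivity)
    linarith
  have s2 : ∑ _n ∈ range p, ∑ m ∈ range p, (if (Tn α τ p m).card ≠ k then 2 * (k : ℝ) / p else 0) ≤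
      2 * k * C1 := by
    rw [sum_comm]
    exact s1
  have s3 : ∑ n ∈ range p, ∑ m ∈ range p,
      (if ¬ Disjoint (Tn α τ p n) (Tn α τ p m) then 2 * (k : ℝ) / p else 0) ≤ 2 * k * C1 := by
    have h1 : ∀ n ∈ range p, ∑ m ∈ range p,
        (if ¬ Disjoint (Tn α τ p n) (Tn α τ p m) then 2 * (k : ℝ) / p else 0) ≤ C1 * (2 * k / p) := by
      intro n _
      rw [← sum_filter, sum_const, nsmul_eq_mul]
      apply mul_le_mul_of_nonneg_right _ (by positivity)
      exact_mod_cast hb2 n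
    refine (sum_le_card_nsmul _ _ _ h1).trans (le_of_eq ?_)
    rw [card_range, nsmul_eq_mul]
    field_simp
  have hsum : ∑ n ∈ range p, ∑ m ∈ range p, ((p : ℝ) ^ (r * N) * (q ^ (2 * k) +
        4 * (k : ℝ) ^ 2 / (p : ℝ) ^ 2 +
        ((if (Tn α τ p n).card ≠ k then 2 * (k : ℝ) / p else 0) +
        (if (Tn α τ p m).card ≠ k then 2 * (k : ℝ) / p else 0) +
        (if ¬ Disjoint (Tn α τ p n) (Tn α τ p m) then 2 * (k : ℝ) / p else 0)))) =
      (p : ℝ) ^ (r * N) * ((p : ℝ) ^ 2 * (q ^ (2 * k) + 4 * (k : ℝ) ^ 2 / (p : ℝ) ^ 2) +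
        (∑ n ∈ range p, ∑ _m ∈ range p, (if (Tn α τ p n).card ≠ k then 2 * (k : ℝ) / p else 0) +
        ∑ _n ∈ range p, ∑ m ∈ range p, (if (Tn α τ p m).card ≠ k then 2 * (k : ℝ) / p else 0) +
        ∑ n ∈ range p, ∑ m ∈ range p,
          (if ¬ Disjoint (Tn α τ p n) (Tn α τ p m) then 2 * (k : ℝ) / p else 0))) := by
    simp only [← mul_sum, sum_add_distrib]
    congr 2
    rw [sum_const, sum_const, sum_const, sum_const, card_range, smul_smul, smul_smul, nsmul_eq_mul,
      nsmul_eq_mul]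
    push_cast
    ring
  rw [hsum]
  apply mul_le_mul_of_nonneg_left _ (by positivity)
  have e9 : (p : ℝ) ^ 2 * (q ^ (2 * k) + 4 * (k : ℝ) ^ 2 / (p : ℝ) ^ 2) =
      (p : ℝ) ^ 2 * q ^ (2 * k) + 4 * (k : ℝ) ^ 2 := by
    have : (p : ℝ) ^ 2 ≠ 0 := by positivity
    field_simp
  rw [e9]
  linarith

end Pool.Agent.N913.KS
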