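import Pool.Agent.N913.KS.S13
import Pool.Agent.N913.KU.U11
import Pool.Agent.N913.KU.U13

set_option autoImplicit false
set_option linter.unusedSectionVars false

/-! The main theorem, with the product over more primes, with fewer coefficients. -/

namespace Pool.Agent.N913.KS

open Finset Polynomial Filter
open Pool.Agent.N913.MT (Wz evt_log_ge)
open Pool.Agent.N913.KT (zK evt_ll SS om good_card)

theorem main2V (r k N : ℕ) (hk : 1 ≤ k) (α : Fin k → Fin r) (τ : Fin k → ℤ[X])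
    (hτ : ∀ i, 1 ≤ (τ i).natDegree) (hinj : Function.Injective (fun i => (α i, τ i)))
    (hN : ∀ a, (univ.filter (fun i => α i = a)).card + 1 ≤ N) (d A C : ℕ) (ε : ℝ) (hε0 : 0 < ε)
    (hε1 : ε ≤ 1) :
    ∃ H0 : ℕ, ∀ H : ℕ, H0 ≤ H → ∀ P : Fin r → ℤ[X], (∀ a, (P a).natDegree ≤ d) →
      (∀ a i, |((P a).coeff i : ℝ)| ≤ H * Real.log H ^ A) →
      ∀ J x : ℕ, Real.log H ^ ((k : ℝ) + ε) ≤ x → ((J + x : ℕ) : ℝ) ≤ Real.log H ^ C →
      ∀ y : ℕ, Real.log (Real.log H) ≤ y → (y : ℝ) ≤ Real.log H / 2 →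
      (((box r N H).filter (fun c =>
        ¬ |(QQ α τ (pf P c) J x : ℝ) - SS k (FP α τ (pf P c)) y * x / Real.log H ^ k| ≤
          ε * (SS k (FP α τ (pf P c)) y * x / Real.log H ^ k))).card : ℝ) ≤
        ε * H ^ (r * N) := by
  classical
  obtain ⟨Ha, hHa⟩ := mainV r k N hk α τ hτ hinj hN d A C (ε / 4) (by positivity) (by linarith) (ε / 2)
    (by positivity)
  obtain ⟨z1, Hb, hHb⟩ := tailV r k N α τ hk hτ hinj hN (ε / 4) (ε / (2 * 3 ^ (r * N))) (by positivity)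
    (by positivity)
  obtain ⟨Hc, hHc⟩ := eventually_atTop.1 (((evt_ll ((z1 + 1) / (ε / 4 / 4))).and (evt_log_ge 1)).and
    (eventually_ge_atTop 1))
  refine ⟨max Ha (max Hb Hc), fun H hH P hPd hP J x hx1 hx2 y hy1 hy2 => ?_⟩
  obtain ⟨⟨g1, g2⟩, g3⟩ := hHc H ((le_trans (le_max_right _ _) (le_max_right _ _)).trans hH)
  have hH1 : (1 : ℝ) ≤ H := by exact_mod_cast g3
  obtain ⟨ℓ, hℓ⟩ : ∃ ℓ, ℓ = Real.log H := ⟨_, rfl⟩
  obtain ⟨z, hz⟩ : ∃ z, z = zK (ε / 4 / 4) H := ⟨_, rfl⟩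
  have hκ : 0 < ε / 4 / 4 := by positivity
  have hll0 : 0 ≤ Real.log (Real.log H) := by
    refine le_trans ?_ g1
    positivity
  have hz1 : z1 ≤ z := by
    rw [hz]
    unfold zK
    apply Nat.le_floor
    have := mul_le_mul_of_nonneg_left g1 hκ.le
    rw [mul_div_cancel₀ _ hκ.ne'] at this
    linarith
  have hzy : z ≤ y := by
    have h1 : (z : ℝ) ≤ y := by
      rw [hz]
      unfold zK
      refine (Nat.floor_le (by positivity)).trans ?_
      have h2 : ε / 4 / 4 * Real.log (Real.log H) ≤ 1 * Real.log (Real.log H) :=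
        mul_le_mul_of_nonneg_right (by linarith) hll0
      linarith
    exact_mod_cast h1
  have hm := hHa H ((le_max_left _ _).trans hH) P hPd hP J x (by
    refine le_trans ?_ hx1
    apply Real.rpow_le_rpow_of_exponent_le g2
    linarith) hx2
  have ht := hHb H ((le_trans (le_max_left _ _) (le_max_right _ _)).trans hH) z hz1 y hzy hy2 P
  rw [← hz, ← hℓ] at hm
  rw [← hℓ]
  obtain ⟨B1, hB1⟩ : ∃ B1, B1 = (box r N H).filter (fun c =>
        ε / 4 * (x * SS k (FP α τ (pf P c)) z / ℓ ^ k) <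
          |(QQ α τ (pf P c) J x : ℝ) - x * SS k (FP α τ (pf P c)) z / ℓ ^ k|) := ⟨_, rfl⟩
  obtain ⟨B2, hB2⟩ : ∃ B2, B2 = (box r N H).filter (fun c =>
        ε / 4 ≤ |∏ p ∈ (Ico z y).filter Nat.Prime, Xp α τ P p c - 1|) := ⟨_, rfl⟩
  rw [← hB1] at hm
  rw [← hB2] at ht
  have hℓ0 : 0 < ℓ := by rw [hℓ]; linarith
  have hsub : (box r N H).filter (fun c =>
        ¬ |(QQ α τ (pf P c) J x : ℝ) - SS k (FP α τ (pf P c)) y * x / ℓ ^ k| ≤
          ε * (SS k (FP α τ (pf P c)) y * x / ℓ ^ k)) ⊆ B1 ∪ B2 := by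
    intro c hc
    rw [mem_filter] at hc
    obtain ⟨c1, c2⟩ := hc
    by_contra hcon
    apply c2
    rw [mem_union, not_or, hB1, hB2, mem_filter, mem_filter] at hcon
    obtain ⟨k1, k2⟩ := hcon
    have k3 : |(QQ α τ (pf P c) J x : ℝ) - x * SS k (FP α τ (pf P c)) z / ℓ ^ k| ≤
        ε / 4 * (x * SS k (FP α τ (pf P c)) z / ℓ ^ k) := by
      by_contra h
      push Not at h
      exact k1 ⟨c1, h⟩
    have k4 : |∏ p ∈ (Ico z y).filter Nat.Prime, Xp α τ P p c - 1| < ε / 4 := by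
      by_contra h
      push Not at h
      exact k2 ⟨c1, h⟩
    have hA0 : 0 ≤ x * SS k (FP α τ (pf P c)) z / ℓ ^ k := by
      rw [← good_card]
      positivity
    have h5 := comb _ _ _ ε hA0 hε0 hε1 k3 k4
    rw [SS_split α τ P c z y hzy]
    have e : x * SS k (FP α τ (pf P c)) z / ℓ ^ k *
        ∏ p ∈ (Ico z y).filter Nat.Prime, Xp α τ P p c = SS k (FP α τ (pf P c)) z *
        (∏ p ∈ (Ico z y).filter Nat.Prime, Xp α τ P p c) * x / ℓ ^ k := by ring
    rw [e] at h5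
    exact h5
  have h1 : (((box r N H).filter (fun c =>
        ¬ |(QQ α τ (pf P c) J x : ℝ) - SS k (FP α τ (pf P c)) y * x / ℓ ^ k| ≤
          ε * (SS k (FP α τ (pf P c)) y * x / ℓ ^ k))).card : ℝ) ≤ B1.card + B2.card := by
    exact_mod_cast (card_le_card hsub).trans (card_union_le _ _)
  have h2 : ε / (2 * 3 ^ (r * N)) * (2 * (H : ℝ) + 1) ^ (r * N) ≤ ε / 2 * H ^ (r * N) := by
    have h3 : (2 * (H : ℝ) + 1) ^ (r * N) ≤ (3 * H) ^ (r * N) :=
      pow_le_pow_left₀ (by positivity) (by linarith) _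
    calc ε / (2 * 3 ^ (r * N)) * (2 * (H : ℝ) + 1) ^ (r * N) ≤
          ε / (2 * 3 ^ (r * N)) * (3 * H) ^ (r * N) :=
          mul_le_mul_of_nonneg_left h3 (by positivity)
      _ = ε / 2 * H ^ (r * N) := by
          rw [mul_pow]
          field_simp
  linarith

end Pool.Agent.N913.KS
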