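import Pool.Agent.N913.KU.U14

set_option autoImplicit false
set_option linter.unusedSectionVars false

/-! The main theorem for families of windows, with fewer coefficients. -/

namespace Pool.Agent.N913.KS

open Finset Polynomial Filter
open Pool.Agent.N913.MT (Wz evt_log_ge)
open Pool.Agent.N913.KT (zK evt_ll SS om good_card)

theorem windowsV (r k N : ℕ) (hk : 1 ≤ k) (α : Fin k → Fin r) (τ : Fin k → ℤ[X])
    (hτ : ∀ i, 1 ≤ (τ i).natDegree) (hinj : Function.Injective (fun i => (α i, τ i)))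
    (hN : ∀ a, (univ.filter (fun i => α i = a)).card + 1 ≤ N) (d A C : ℕ) (ε : ℝ) (hε0 : 0 < ε) :
    ∃ H0 : ℕ, ∀ H : ℕ, H0 ≤ H → ∀ P : Fin r → ℤ[X], (∀ a, (P a).natDegree ≤ d) →
      (∀ a i, |((P a).coeff i : ℝ)| ≤ H * Real.log H ^ A) →
      ∀ x y : ℕ, Real.log H ^ ((k : ℝ) + ε) ≤ x → Real.log (Real.log H) ≤ y →
      (y : ℝ) ≤ Real.log H / 2 →
      ∀ W : Finset ℕ, (∀ J ∈ W, ((J + x : ℕ) : ℝ) ≤ Real.log H ^ C) →
      ∃ Bad : Finset (Fin r × Fin N → ℤ), (Bad.card : ℝ) ≤ ε * H ^ (r * N) ∧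
        ∀ c : Fin r × Fin N → ℤ, (∀ s, |c s| ≤ H) → c ∉ Bad →
          ∃ G ⊆ W, (1 - ε) * W.card ≤ G.card ∧ ∀ J ∈ G,
            |(QQ α τ (pf P c) J x : ℝ) - SS k (FP α τ (pf P c)) y * x / Real.log H ^ k| ≤
              ε * (SS k (FP α τ (pf P c)) y * x / Real.log H ^ k) := by
  classical
  obtain ⟨e, he⟩ : ∃ e, e = min ε 1 := ⟨_, rfl⟩
  have he0 : 0 < e := by rw [he]; positivity
  have he1 : e ≤ 1 := by rw [he]; exact min_le_right _ _
  have heε : e ≤ ε := by rw [he]; exact min_le_left _ _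
  have he2 : e ^ 2 ≤ e := by nlinarith
  obtain ⟨H0, hH0⟩ := main2V r k N hk α τ hτ hinj hN d A C (e ^ 2) (by positivity) (by linarith)
  obtain ⟨H1, hH1⟩ := eventually_atTop.1 ((evt_log_ge 1).and (eventually_ge_atTop 1))
  refine ⟨max H0 H1, fun H hH P hPd hP x y hx hy1 hy2 W hW => ?_⟩
  obtain ⟨g1, g2⟩ := hH1 H ((le_max_right _ _).trans hH)
  have hm := hH0 H ((le_max_left _ _).trans hH) P hPd hP
  obtain ⟨ℓ, hℓ⟩ : ∃ ℓ, ℓ = Real.log H := ⟨_, rfl⟩
  rw [← hℓ] at g1 hm hx hy1 hy2 hW ⊢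
  have hH0' : (0 : ℝ) < (H : ℝ) ^ (r * N) := by
    have : (1 : ℝ) ≤ H := by exact_mod_cast g2
    positivity
  obtain ⟨Bd, hBd⟩ : ∃ Bd : ℕ → Finset (Fin r × Fin N → ℤ), Bd = fun J => (box r N H).filter (fun c =>
        ¬ |(QQ α τ (pf P c) J x : ℝ) - SS k (FP α τ (pf P c)) y * x / ℓ ^ k| ≤
          e ^ 2 * (SS k (FP α τ (pf P c)) y * x / ℓ ^ k)) := ⟨_, rfl⟩
  have hBdc : ∀ J ∈ W, ((Bd J).card : ℝ) ≤ e ^ 2 * H ^ (r * N) := by
    intro J hJ
    rw [hBd]
    exact hm J x (by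
      refine le_trans ?_ hx
      apply Real.rpow_le_rpow_of_exponent_le g1
      linarith) (hW J hJ) y hy1 hy2
  obtain ⟨Bad, hBad⟩ : ∃ Bad, Bad = (box r N H).filter
    (fun c => e * W.card < ((W.filter (fun J => c ∈ Bd J)).card : ℝ)) := ⟨_, rfl⟩
  refine ⟨Bad, ?_, ?_⟩
  · have h1 : (Bad.card : ℝ) * (e * W.card) ≤ ∑ c ∈ box r N H, ((W.filter (fun J => c ∈ Bd J)).card : ℝ) := by
      have h2 : (Bad.card : ℝ) * (e * W.card) ≤ ∑ c ∈ Bad, ((W.filter (fun J => c ∈ Bd J)).card : ℝ) := by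
        rw [← nsmul_eq_mul]
        apply card_nsmul_le_sum
        intro c hc
        rw [hBad, mem_filter] at hc
        exact hc.2.le
      refine h2.trans (sum_le_sum_of_subset_of_nonneg ?_ (fun _ _ _ => Nat.cast_nonneg _))
      rw [hBad]
      exact filter_subset _ _
    have h3 : ∑ c ∈ box r N H, ((W.filter (fun J => c ∈ Bd J)).card : ℝ) ≤ ∑ J ∈ W, ((Bd J).card : ℝ) := by
      simp only [card_filter]
      push_cast
      rw [sum_comm]
      apply sum_le_sum
      intro J _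
      rw [← sum_filter, sum_const, nsmul_eq_mul, mul_one]
      exact_mod_cast card_le_card (fun c hc => (mem_filter.1 hc).2)
    have h4 : ∑ J ∈ W, ((Bd J).card : ℝ) ≤ W.card * (e ^ 2 * H ^ (r * N)) := by
      rw [← nsmul_eq_mul]
      exact sum_le_card_nsmul _ _ _ hBdc
    rcases W.eq_empty_or_nonempty with h0 | h0
    · have : Bad = ∅ := by
        rw [hBad, h0, filter_eq_empty_iff]
        intro c _
        simp
      rw [this, card_empty, Nat.cast_zero]
      positivity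
    · have hW0 : (0 : ℝ) < W.card := by exact_mod_cast h0.card_pos
      have h5 : (Bad.card : ℝ) * (e * W.card) ≤ (e * H ^ (r * N)) * (e * W.card) := by
        refine (h1.trans (h3.trans h4)).trans (le_of_eq ?_)
        ring
      have h6 := le_of_mul_le_mul_right h5 (by positivity)
      exact h6.trans (mul_le_mul_of_nonneg_right heε hH0'.le)
  · intro c hc hcB
    have hcb : c ∈ box r N H := by
      unfold box
      rw [Fintype.mem_piFinset]
      intro s
      exact mem_Icc.2 (abs_le.1 (hc s))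
    refine ⟨W.filter (fun J => ¬ c ∈ Bd J), filter_subset _ _, ?_, ?_⟩
    · have h1 : ((W.filter (fun J => c ∈ Bd J)).card : ℝ) ≤ e * W.card := by
        by_contra h
        push Not at h
        exact hcB (by rw [hBad, mem_filter]; exact ⟨hcb, h⟩)
      have h2 : (((W.filter (fun J => c ∈ Bd J)).card : ℕ) : ℝ) +
          ((W.filter (fun J => ¬ c ∈ Bd J)).card : ℝ) = W.card := by
        exact_mod_cast card_filter_add_card_filter_not (s := W) (fun J => c ∈ Bd J)
      have h3 : e * (W.card : ℝ) ≤ ε * W.card := mul_le_mul_of_nonneg_right heε (Nat.cast_nonneg _)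
      linarith
    · intro J hJ
      rw [mem_filter, hBd] at hJ
      obtain ⟨_, h2⟩ := hJ
      simp only [mem_filter, not_and, not_not] at h2
      refine (h2 hcb).trans ?_
      apply mul_le_mul_of_nonneg_right (by linarith)
      rw [← good_card]
      positivity

end Pool.Agent.N913.KS
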