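import Pool.Agent.N913.KU.U1
import Pool.Agent.H373R2.T7.SupE2
import Pool.Agent.N913.MT.C1

set_option autoImplicit false
set_option linter.unusedSectionVars false

/-! The logarithm on the primes minus its sieve model. -/

namespace Pool.Agent.N913.KU

open Finset
open Pool.Agent.H807R2.Dav Pool.Agent.H373R2.T7
open Pool.Agent.N913.MT (th th_nonneg th_le)

/-- the sieve model -/
noncomputable def gz (z : ℕ) (m : ℤ) : ℝ := lamz z m.natAbs

/-- the difference -/
noncomputable def vz (R z : ℕ) (m : ℤ) : ℝ := th R m.natAbs - gz z m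

theorem th_diff (R N : ℕ) (hN : 1 ≤ N) (hRN : R ≤ N.sqrt) :
    ∑ n ∈ Icc 1 N, |ArithmeticFunction.vonMangoldt n - th R n| ≤ 3 * √N * Real.log N := by
  have hN1 : (1 : ℝ) ≤ N := by exact_mod_cast hN
  have hl0 : 0 ≤ Real.log N := Real.log_nonneg hN1
  have h1 : ∀ n ∈ Icc 1 N, |ArithmeticFunction.vonMangoldt n - th R n| ≤
      (if ¬ n.Prime then ArithmeticFunction.vonMangoldt n else 0) + (if n ≤ R then Real.log N else 0) := by
    intro n hn
    rw [mem_Icc] at hn
    have hln : Real.log n ≤ Real.log N :=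
      Real.log_le_log (by exact_mod_cast hn.1) (by exact_mod_cast hn.2)
    unfold th
    by_cases hp : n.Prime
    · rw [if_neg (not_not.2 hp), ArithmeticFunction.vonMangoldt_apply_prime hp, zero_add]
      by_cases hR : R < n
      · rw [if_pos ⟨hp, hR⟩, sub_self, abs_zero]
        split_ifs <;> simp [hl0]
      · rw [if_neg (fun h => hR h.2), sub_zero, if_pos (not_lt.1 hR),
          abs_of_nonneg (Real.log_natCast_nonneg n)]
        exact hln
    · rw [if_pos hp, if_neg (fun h => hp h.1), sub_zero,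
        abs_of_nonneg ArithmeticFunction.vonMangoldt_nonneg]
      have : (0 : ℝ) ≤ if n ≤ R then Real.log N else 0 := by split_ifs <;> simp [hl0]
      linarith
  refine (sum_le_sum h1).trans ?_
  rw [sum_add_distrib]
  have h2 : ∑ n ∈ Icc 1 N, (if ¬ n.Prime then ArithmeticFunction.vonMangoldt n else 0) ≤
      2 * √N * Real.log N := by
    have h3 := Chebyshev.psi_sub_theta_le (x := (N : ℝ)) hN1
    rw [Chebyshev.psi_sub_theta_eq_sum_not_prime, Nat.floor_natCast, sum_filter] at h3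
    have e : Icc 1 N = Ioc 0 N := by ext; simp [Nat.lt_iff_add_one_le]
    rw [e]
    exact h3
  have h4 : ∑ n ∈ Icc 1 N, (if n ≤ R then Real.log N else 0) ≤ √N * Real.log N := by
    rw [← sum_filter, sum_const, nsmul_eq_mul]
    apply mul_le_mul_of_nonneg_right _ hl0
    have h5 : ((Icc 1 N).filter (fun n => n ≤ R)).card ≤ R := by
      have : (Icc 1 N).filter (fun n => n ≤ R) ⊆ Icc 1 R := by
        intro n hn
        rw [mem_filter, mem_Icc] at hn
        rw [mem_Icc]
        exact ⟨hn.1.1, hn.2⟩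
      exact (card_le_card this).trans (by rw [Nat.card_Icc]; omega)
    have h6 : (N.sqrt : ℝ) ≤ √N := Real.nat_sqrt_le_real_sqrt
    calc (((Icc 1 N).filter (fun n => n ≤ R)).card : ℝ) ≤ R := by exact_mod_cast h5
      _ ≤ N.sqrt := by exact_mod_cast hRN
      _ ≤ _ := h6
  linarith

theorem supv (U : ℕ) : ∃ B : ℕ, ∀ E : ℕ, ∃ N0 : ℕ, ∀ N : ℕ, N0 ≤ N → ∀ z : ℕ, Real.log N ^ B ≤ z →
    (z : ℝ) ≤ Real.log N ^ E → ∀ R : ℕ, R ≤ N.sqrt → ∀ M t : ℕ,
    ‖∑ m ∈ Icc (-(N : ℤ)) N, (vz R z m : ℂ) * ee ((t : ℝ) * ((m : ℝ) / M))‖ ≤ N / Real.log N ^ U := by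
  obtain ⟨B, hB⟩ := sup_diff (U + 1)
  refine ⟨B + 1, fun E => ?_⟩
  obtain ⟨N0, hN0⟩ := hB E
  obtain ⟨n1, hn1⟩ := ev_log' (U + 2) 3
  obtain ⟨n2, hn2⟩ := ev_L' 8
  refine ⟨max (max N0 n1) (max n2 2), fun N hN z hz1 hz2 R hR M t => ?_⟩
  have a1 := le_trans (le_trans (le_max_left _ _) (le_max_left _ _)) hN
  have a2 := le_trans (le_trans (le_max_right _ _) (le_max_left _ _)) hN
  have a3 := le_trans (le_trans (le_max_left _ _) (le_max_right _ _)) hN
  have a4 : 2 ≤ N := le_trans (le_trans (le_max_right _ _) (le_max_right _ _)) hN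
  have b1 := hn1 N a2
  have b2 := hn2 N a3
  obtain ⟨L, hL⟩ : ∃ L, L = Real.log N := ⟨_, rfl⟩
  rw [← hL] at hz1 hz2 b1 b2 ⊢
  have hL1 : 1 ≤ L := by linarith
  have hN1 : (1 : ℝ) ≤ N := by exact_mod_cast (by omega : 1 ≤ N)
  have hN00 : (0 : ℝ) < N := by linarith
  have hz2' : (2 : ℝ) ≤ z := by
    refine le_trans ?_ hz1
    calc (2 : ℝ) ≤ L := by linarith
      _ = L ^ 1 := (pow_one L).symm
      _ ≤ L ^ (B + 1) := pow_le_pow_right₀ hL1 (by omega)
  have hz2n : 2 ≤ z := by exact_mod_cast hz2'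
  have hzB : L ^ B ≤ z := (pow_le_pow_right₀ hL1 (by omega)).trans hz1
  -- the half sums
  have half : ∀ α : ℝ, ‖∑ n ∈ Icc 1 N, ((th R n - lamz z n : ℝ) : ℂ) * ee ((n : ℝ) * α)‖ ≤
      N / L ^ (U + 1) + 3 * √N * L := by
    intro α
    have h1 := hN0 N a1 z (by rw [← hL]; exact hzB) (by rw [← hL]; exact hz2) α
    rw [← hL] at h1
    have h2 := th_diff R N (by omega) hR
    rw [← hL] at h2
    have e : ∑ n ∈ Icc 1 N, ((th R n - lamz z n : ℝ) : ℂ) * ee ((n : ℝ) * α) =
        ∑ n ∈ Icc 1 N, ((ArithmeticFunction.vonMangoldt n - lamz z n : ℝ) : ℂ) * ee ((n : ℝ) * α) -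
        ∑ n ∈ Icc 1 N, ((ArithmeticFunction.vonMangoldt n - th R n : ℝ) : ℂ) * ee ((n : ℝ) * α) := by
      rw [← sum_sub_distrib]
      apply sum_congr rfl
      intro n _
      push_cast
      ring
    rw [e]
    refine (norm_sub_le _ _).trans (add_le_add h1 ?_)
    refine le_trans ?_ h2
    refine (norm_sum_le _ _).trans (sum_le_sum fun n _ => ?_)
    rw [norm_mul, norm_ee, mul_one, Complex.norm_real, Real.norm_eq_abs]
  have hv0 : vz R z 0 = 0 := by
    unfold vz gz th lamz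
    rw [Int.natAbs_zero, if_neg (fun h => Nat.not_prime_zero h.1), if_neg, sub_zero]
    intro h
    exact h 2 (mem_pz.2 ⟨hz2n, Nat.prime_two⟩) (dvd_zero 2)
  -- splitting
  have hsplit : ∑ m ∈ Icc (-(N : ℤ)) N, (vz R z m : ℂ) * ee ((t : ℝ) * ((m : ℝ) / M)) =
      ∑ n ∈ Icc 1 N, ((th R n - lamz z n : ℝ) : ℂ) * ee ((n : ℝ) * (t / M)) +
      ∑ n ∈ Icc 1 N, ((th R n - lamz z n : ℝ) : ℂ) * ee ((n : ℝ) * (-(t / M))) := by
    have hpos : ∑ m ∈ Icc (1 : ℤ) N, (vz R z m : ℂ) * ee ((t : ℝ) * ((m : ℝ) / M)) =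
        ∑ n ∈ Icc 1 N, ((th R n - lamz z n : ℝ) : ℂ) * ee ((n : ℝ) * (t / M)) := by
      symm
      apply sum_bij (fun (n : ℕ) _ => (n : ℤ))
      · intro n hn
        rw [mem_Icc] at hn ⊢
        exact ⟨by exact_mod_cast hn.1, by exact_mod_cast hn.2⟩
      · intro a _ b _ h
        exact_mod_cast h
      · intro m hm
        rw [mem_Icc] at hm
        refine ⟨m.toNat, ?_, ?_⟩
        · rw [mem_Icc]
          omega
        · exact Int.toNat_of_nonneg (by omega)
      · intro n _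
        unfold vz gz
        rw [Int.natAbs_natCast]
        congr 2
        push_cast
        ring
    have hneg : ∑ m ∈ Icc (-(N : ℤ)) (-1), (vz R z m : ℂ) * ee ((t : ℝ) * ((m : ℝ) / M)) =
        ∑ n ∈ Icc 1 N, ((th R n - lamz z n : ℝ) : ℂ) * ee ((n : ℝ) * (-(t / M))) := by
      symm
      apply sum_bij (fun (n : ℕ) _ => -(n : ℤ))
      · intro n hn
        rw [mem_Icc] at hn ⊢
        omega
      · intro a _ b _ h
        have : (a : ℤ) = b := by linarith
        exact_mod_cast this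
      · intro m hm
        rw [mem_Icc] at hm
        refine ⟨(-m).toNat, ?_, ?_⟩
        · rw [mem_Icc]
          omega
        · omega
      · intro n _
        unfold vz gz
        rw [Int.natAbs_neg, Int.natAbs_natCast]
        congr 2
        push_cast
        ring
    have hu : Icc (-(N : ℤ)) N = Icc (-(N : ℤ)) (-1) ∪ ({0} ∪ Icc (1 : ℤ) N) := by
      ext m
      rw [mem_union, mem_union, mem_Icc, mem_Icc, mem_Icc, mem_singleton]
      omega
    rw [hu, sum_union, sum_union, sum_singleton, hv0, hpos, hneg]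
    · push_cast
      ring
    · rw [disjoint_left]
      intro m hm hm'
      rw [mem_singleton] at hm
      rw [mem_Icc] at hm'
      omega
    · rw [disjoint_left]
      intro m hm hm'
      rw [mem_union, mem_singleton, mem_Icc] at hm'
      rw [mem_Icc] at hm
      omega
  rw [hsplit]
  refine (norm_add_le _ _).trans ((add_le_add (half _) (half _)).trans ?_)
  have hss : √(N : ℝ) * √(N : ℝ) = N := Real.mul_self_sqrt hN00.le
  have hs0 : 0 < √(N : ℝ) := Real.sqrt_pos.2 hN00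
  have hL0 : 0 < L := by linarith
  have h1 : 3 * √(N : ℝ) * L ≤ N / L ^ (U + 1) := by
    rw [le_div_iff₀ (by positivity)]
    calc 3 * √(N : ℝ) * L * L ^ (U + 1) = √(N : ℝ) * (3 * L ^ (U + 2)) := by ring
      _ ≤ √(N : ℝ) * √(N : ℝ) := mul_le_mul_of_nonneg_left b1 hs0.le
      _ = N := hss
  have h2 : (N : ℝ) / L ^ (U + 1) ≤ (N / L ^ U) / 8 := by
    rw [pow_succ, ← div_div]
    apply div_le_div_of_nonneg_left (by positivity) (by norm_num) b2
  have h3 : (0 : ℝ) ≤ N / L ^ U := by positivity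
  linarith

end Pool.Agent.N913.KU
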