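import Pool.Agent.H373R2.T7.SupE2
import Pool.Agent.H373R2.T7.Cnt

set_option autoImplicit false
set_option linter.unusedSectionVars false

/-! Counting pairs of integers which avoid pairs of classes modulo small primes. -/

namespace Pool.Agent.N913.KU

open Finset
open Pool.Agent.H373R2.T7

/-- pairs of classes -/
noncomputable def n2 (Q : ℕ → ℕ → ℕ → Prop) (p : ℕ) : ℕ := by
  classical exact ((range p ×ˢ range p).filter (fun a => Q p a.1 a.2)).card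

open Classical in
theorem count2 (A : ℕ → ℕ → ℕ → Prop) (x : ℕ) (S : Finset ℕ) (hS : ∀ p ∈ S, p.Prime) :
    ∀ q : ℕ, 1 ≤ q → (∀ p ∈ S, ¬ p ∣ q) → ∀ c c' : ℕ,
    |(((Icc 1 x ×ˢ Icc 1 x).filter (fun n : ℕ × ℕ => (n.1 ≡ c [MOD q] ∧ n.2 ≡ c' [MOD q]) ∧
      ∀ p ∈ S, A p (n.1 % p) (n.2 % p))).card : ℝ) -
      ((x : ℝ) / q) ^ 2 * ∏ p ∈ S, ((n2 A p : ℝ) / (p : ℝ) ^ 2)| ≤
      (2 * x + 1) * ∏ p ∈ S, (n2 A p : ℝ) := by
  induction S using Finset.induction_on with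
  | empty =>
    intro q hq _ c c'
    have h := count_class x q c hq
    have h' := count_class x q c' hq
    have e : (Icc 1 x ×ˢ Icc 1 x).filter (fun n : ℕ × ℕ => (n.1 ≡ c [MOD q] ∧ n.2 ≡ c' [MOD q]) ∧
      ∀ p ∈ (∅ : Finset ℕ), A p (n.1 % p) (n.2 % p)) =
      ((Icc 1 x).filter (fun n => n ≡ c [MOD q])) ×ˢ ((Icc 1 x).filter (fun n => n ≡ c' [MOD q])) := by
      ext n
      simp only [mem_filter, mem_product, notMem_empty, false_implies, implies_true, and_true]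
      tauto
    rw [e, card_product]
    push_cast
    rw [prod_empty, prod_empty, mul_one, mul_one]
    obtain ⟨u, hu⟩ : ∃ u : ℝ, u = ((Icc 1 x).filter (fun n => n ≡ c [MOD q])).card := ⟨_, rfl⟩
    obtain ⟨v, hv⟩ : ∃ v : ℝ, v = ((Icc 1 x).filter (fun n => n ≡ c' [MOD q])).card := ⟨_, rfl⟩
    rw [← hu] at h ⊢
    rw [← hv] at h' ⊢
    obtain ⟨w, hw⟩ : ∃ w : ℝ, w = (x : ℝ) / q := ⟨_, rfl⟩
    rw [← hw] at h h' ⊢
    have hw0 : 0 ≤ w := by rw [hw]; positivity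
    have hwx : w ≤ x := by
      rw [hw]
      apply div_le_self (Nat.cast_nonneg _)
      exact_mod_cast hq
    have e2 : u * v - w ^ 2 = (u - w) * v + w * (v - w) := by ring
    have hv0 : 0 ≤ v := by rw [hv]; positivity
    have hv1 : v ≤ w + 1 := by linarith [(abs_le.1 h').2]
    rw [e2]
    refine (abs_add_le _ _).trans ?_
    rw [abs_mul, abs_mul, abs_of_nonneg hv0, abs_of_nonneg hw0]
    have h1 : |u - w| * v ≤ 1 * (w + 1) := mul_le_mul h hv1 hv0 zero_le_one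
    have h2 : w * |v - w| ≤ w * 1 := mul_le_mul_of_nonneg_left h' hw0
    linarith
  | insert p S hp ih =>
    intro q hq hdq c c'
    have hpp := hS p (mem_insert_self _ _)
    have hS' : ∀ p' ∈ S, p'.Prime := fun p' h => hS p' (mem_insert_of_mem h)
    have hpq : q.Coprime p := by
      rw [Nat.coprime_comm]
      exact (Nat.Prime.coprime_iff_not_dvd hpp).2 (hdq p (mem_insert_self _ _))
    have hp0 : (0 : ℝ) < p := by exact_mod_cast hpp.pos
    have hq0 : (0 : ℝ) < q := by exact_mod_cast hq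
    rw [prod_insert hp, prod_insert hp]
    obtain ⟨ρ, hρ⟩ : ∃ ρ : Finset (ℕ × ℕ), ρ = (range p ×ˢ range p).filter (fun a => A p a.1 a.2) :=
      ⟨_, rfl⟩
    have hρc : n2 A p = ρ.card := by unfold n2; rw [hρ]
    rw [hρc]
    have h1 : ((Icc 1 x ×ˢ Icc 1 x).filter (fun n : ℕ × ℕ => (n.1 ≡ c [MOD q] ∧ n.2 ≡ c' [MOD q]) ∧
          ∀ p' ∈ insert p S, A p' (n.1 % p') (n.2 % p'))).card =
        ∑ a ∈ ρ, ((Icc 1 x ×ˢ Icc 1 x).filter (fun n : ℕ × ℕ =>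
          (n.1 ≡ (Nat.chineseRemainder hpq c a.1 : ℕ) [MOD (q * p)] ∧
          n.2 ≡ (Nat.chineseRemainder hpq c' a.2 : ℕ) [MOD (q * p)]) ∧
          ∀ p' ∈ S, A p' (n.1 % p') (n.2 % p'))).card := by
      rw [card_eq_sum_card_fiberwise (f := fun n : ℕ × ℕ => (n.1 % p, n.2 % p)) (t := ρ)]
      · apply sum_congr rfl
        intro a ha
        rw [hρ, mem_filter, mem_product, mem_range, mem_range] at ha
        congr 1
        ext n
        simp only [mem_filter, mem_insert, forall_eq_or_imp]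
        have hcr : ∀ (n c a : ℕ), n ≡ (Nat.chineseRemainder hpq c a : ℕ) [MOD (q * p)] ↔
            n ≡ c [MOD q] ∧ n ≡ a [MOD p] := by
          intro n c a
          constructor
          · intro h
            have k1 := (Nat.chineseRemainder hpq c a).2.1
            have k2 := (Nat.chineseRemainder hpq c a).2.2
            exact ⟨(h.of_mul_right p).trans k1, (h.of_mul_left q).trans k2⟩
          · rintro ⟨h1, h2⟩
            exact Nat.chineseRemainder_modEq_unique hpq h1 h2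
        have hmod1 : n.1 ≡ a.1 [MOD p] ↔ n.1 % p = a.1 := by
          unfold Nat.ModEq
          rw [Nat.mod_eq_of_lt ha.1.1]
        have hmod2 : n.2 ≡ a.2 [MOD p] ↔ n.2 % p = a.2 := by
          unfold Nat.ModEq
          rw [Nat.mod_eq_of_lt ha.1.2]
        rw [hcr, hcr, hmod1, hmod2, Prod.ext_iff]
        constructor
        · rintro ⟨⟨h1, h2, h3, h4⟩, h5, h6⟩
          exact ⟨h1, ⟨⟨h2.1, h5⟩, h2.2, h6⟩, h4⟩
        · rintro ⟨h1, ⟨⟨h2, h5⟩, h3, h6⟩, h4⟩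
          exact ⟨⟨h1, ⟨h2, h3⟩, by rw [h5, h6]; exact ha.2, h4⟩, h5, h6⟩
      · intro n hn
        have hn' := (mem_filter.1 (Finset.mem_coe.1 hn)).2
        rw [hρ]
        apply Finset.mem_coe.2
        rw [mem_filter, mem_product, mem_range, mem_range]
        exact ⟨⟨Nat.mod_lt _ hpp.pos, Nat.mod_lt _ hpp.pos⟩, hn'.2 p (mem_insert_self _ _)⟩
    rw [h1]
    push_cast
    have h2 : ((x : ℝ) / q) ^ 2 * (((ρ.card : ℝ) / (p : ℝ) ^ 2) * ∏ p' ∈ S, ((n2 A p' : ℝ) / (p' : ℝ) ^ 2)) =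
        ∑ a ∈ ρ, ((x : ℝ) / ((q * p : ℕ) : ℝ)) ^ 2 * ∏ p' ∈ S, ((n2 A p' : ℝ) / (p' : ℝ) ^ 2) := by
      rw [sum_const, nsmul_eq_mul]
      push_cast
      field_simp
    rw [h2, ← sum_sub_distrib]
    refine (abs_sum_le_sum_abs _ _).trans ?_
    have h3 : ∀ a ∈ ρ, |(((Icc 1 x ×ˢ Icc 1 x).filter (fun n : ℕ × ℕ =>
          (n.1 ≡ (Nat.chineseRemainder hpq c a.1 : ℕ) [MOD (q * p)] ∧
          n.2 ≡ (Nat.chineseRemainder hpq c' a.2 : ℕ) [MOD (q * p)]) ∧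
          ∀ p' ∈ S, A p' (n.1 % p') (n.2 % p'))).card : ℝ) -
        ((x : ℝ) / ((q * p : ℕ) : ℝ)) ^ 2 * ∏ p' ∈ S, ((n2 A p' : ℝ) / (p' : ℝ) ^ 2)| ≤
        (2 * x + 1) * ∏ p' ∈ S, (n2 A p' : ℝ) := by
      intro a _
      apply ih hS' (q * p) (Nat.mul_pos hq hpp.pos)
      intro p' hp' hd
      have hp'p := hS' p' hp'
      rcases (Nat.Prime.dvd_mul hp'p).1 hd with h | h
      · exact hdq p' (mem_insert_of_mem hp') h
      · rw [Nat.prime_dvd_prime_iff_eq hp'p hpp] at h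
        exact hp (h ▸ hp')
    refine (sum_le_sum h3).trans (le_of_eq ?_)
    rw [sum_const, nsmul_eq_mul]
    ring

open Classical in
theorem sys2 (c E U : ℕ) (hc : 1 ≤ c) : ∃ N0 : ℕ, ∀ N : ℕ, N0 ≤ N → ∀ z : ℕ, 1 ≤ z →
    (z : ℝ) ≤ Real.log N ^ E → ∀ Q : ℕ → ℕ → ℕ → Prop, (∀ p n m, Q p n m ↔ Q p (n % p) (m % p)) →
    (∀ p, p.Prime → n2 Q p ≤ c * p) →
    |((((Icc 1 N ×ˢ Icc 1 N).filter (fun n : ℕ × ℕ => ∀ p ∈ pz z, ¬ Q p n.1 n.2)).card : ℕ) : ℝ) -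
      (N : ℝ) ^ 2 * ∏ p ∈ pz z, (1 - (n2 Q p : ℝ) / (p : ℝ) ^ 2)| ≤ (N : ℝ) ^ 2 / Real.log N ^ U := by
  obtain ⟨U2, hU2⟩ : ∃ U2, U2 = U + 2 := ⟨_, rfl⟩
  obtain ⟨N0, h0⟩ := choice c E U2 4
  obtain ⟨C', hC'⟩ : ∃ C', C' = (3 * (c * (1 + E)) + U2 + 1) * c := ⟨_, rfl⟩
  obtain ⟨n1, h1⟩ := ev_log' (C' + U + 2) 3
  obtain ⟨n2', h2⟩ := ev_L' 3
  refine ⟨max (max N0 n1) (max n2' 4), fun N hN z hz hzE Q hQ hfew => ?_⟩
  have b1 := le_trans (le_trans (le_max_left _ _) (le_max_left _ _)) hN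
  have b2 := le_trans (le_trans (le_max_right _ _) (le_max_left _ _)) hN
  have b3 := le_trans (le_trans (le_max_left _ _) (le_max_right _ _)) hN
  have hN4 : 4 ≤ N := le_trans (le_trans (le_max_right _ _) (le_max_right _ _)) hN
  obtain ⟨r, hr1, hr2, hr3⟩ := h0 N b1 z hzE
  have a1 := h1 N b2
  have hL := h2 N b3
  have hNr : (4 : ℝ) ≤ N := by exact_mod_cast hN4
  have hN0 : (0 : ℝ) < N := by linarith
  obtain ⟨L, hLd⟩ : ∃ L, L = Real.log N := ⟨_, rfl⟩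
  rw [← hLd] at hr1 hr3 a1 hL ⊢
  have hL0 : 0 < L := by linarith
  have hL1 : 1 ≤ L := by linarith
  have hss : √(N : ℝ) * √(N : ℝ) = N := Real.mul_self_sqrt hN0.le
  have hs0 : 0 < √(N : ℝ) := Real.sqrt_pos.2 hN0
  have hcr : (1 : ℝ) ≤ c := by exact_mod_cast hc
  obtain ⟨D, hD⟩ : ∃ D : ℝ, D = ((z : ℝ) + 1) ^ r := ⟨_, rfl⟩
  have hD1r : (1 : ℝ) ≤ D := by
    rw [hD]
    exact one_le_pow₀ (by have : (0 : ℝ) ≤ z := Nat.cast_nonneg _; linarith)
  have hDs : D ^ 2 ≤ √N := by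
    have h5 : (D ^ 2) ^ 2 ≤ N := by
      rw [← pow_mul, hD]
      exact hr2
    have h6 := Real.sqrt_le_sqrt h5
    rwa [Real.sqrt_sq (by positivity)] at h6
  have hn2p : ∀ p : ℕ, n2 Q p ≤ p * p := by
    intro p
    unfold n2
    refine (card_filter_le _ _).trans ?_
    rw [card_product, card_range]
  have key := sieve_gen' (Icc 1 N ×ˢ Icc 1 N) (fun _ => (1 : ℝ)) (fun _ _ => zero_le_one)
    (fun p n => Q p n.1 n.2) (pz z)
    (fun p => (n2 Q p : ℝ) / (p : ℝ) ^ 2) (fun p hp => by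
      have hp0 : (0 : ℝ) < p := by exact_mod_cast (mem_pz.1 hp).2.pos
      constructor
      · positivity
      · rw [div_le_one (by positivity), sq]
        exact_mod_cast hn2p p) ((N : ℝ) ^ 2) (by positivity)
    (fun _ => (2 * N + 1) * ((c : ℝ) ^ r * D)) r (by
      intro S hS hr
      have hSp : ∀ p ∈ S, p.Prime := fun p hp => (mem_pz.1 (hS hp)).2
      have h3 := count2 Q N S hSp 1 le_rfl (fun p hp hd => (hSp p hp).one_lt.ne' (Nat.dvd_one.1 hd)) 0 0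
      have e1 : ∑ i ∈ (Icc 1 N ×ˢ Icc 1 N).filter (fun i => ∀ p ∈ S, Q p i.1 i.2), (1 : ℝ) =
          (((Icc 1 N ×ˢ Icc 1 N).filter (fun n : ℕ × ℕ => (n.1 ≡ 0 [MOD 1] ∧ n.2 ≡ 0 [MOD 1]) ∧
            ∀ p ∈ S, Q p (n.1 % p) (n.2 % p))).card : ℝ) := by
        rw [sum_const, nsmul_eq_mul, mul_one]
        congr 2
        apply filter_congr
        intro n _
        constructor
        · intro h
          exact ⟨⟨Nat.modEq_one, Nat.modEq_one⟩, fun p hp => (hQ p n.1 n.2).1 (h p hp)⟩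
        · rintro ⟨_, h⟩ p hp
          exact (hQ p n.1 n.2).2 (h p hp)
      rw [e1]
      rw [Nat.cast_one, div_one] at h3
      refine h3.trans ?_
      apply mul_le_mul_of_nonneg_left _ (by positivity)
      calc ∏ p ∈ S, (n2 Q p : ℝ) ≤ ∏ p ∈ S, ((c : ℝ) * p) := by
            apply prod_le_prod (fun _ _ => Nat.cast_nonneg _)
            intro p hp
            exact_mod_cast hfew p (hSp p hp)
        _ = (c : ℝ) ^ S.card * ∏ p ∈ S, (p : ℝ) := by rw [prod_mul_distrib, prod_const]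
        _ ≤ (c : ℝ) ^ r * D := by
            apply mul_le_mul (pow_le_pow_right₀ hcr hr) _ (by positivity) (by positivity)
            have h8 := prod_le_pow S z r hS hr
            have h9 : ((∏ p ∈ S, p : ℕ) : ℝ) ≤ (((z + 1) ^ r : ℕ) : ℝ) := Nat.cast_le.2 h8
            rw [Nat.cast_prod, Nat.cast_pow, Nat.cast_add, Nat.cast_one] at h9
            rw [hD]
            exact h9)
  have e0 : ∑ i ∈ (Icc 1 N ×ˢ Icc 1 N).filter (fun i => ∀ p ∈ pz z, ¬ Q p i.1 i.2), (1 : ℝ) =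
      ((((Icc 1 N ×ˢ Icc 1 N).filter (fun n : ℕ × ℕ => ∀ p ∈ pz z, ¬ Q p n.1 n.2)).card : ℕ) : ℝ) := by
    rw [sum_const, nsmul_eq_mul, mul_one]
  rw [e0] at key
  refine key.trans ?_
  have e1 : ∑ j ∈ range (r + 1), ∑ _S ∈ (pz z).powersetCard j, (2 * (N : ℝ) + 1) * ((c : ℝ) ^ r * D) =
      ((∑ j ∈ range (r + 1), ((pz z).powersetCard j).card : ℕ) : ℝ) * ((2 * (N : ℝ) + 1) * ((c : ℝ) ^ r * D)) := by
    rw [Nat.cast_sum, sum_mul]
    apply sum_congr rfl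
    intro j _
    rw [sum_const, nsmul_eq_mul]
  rw [e1]
  have h3 := card_small (pz z) r
  have h4 : (((pz z).card : ℝ) + 1) ^ r ≤ D := by
    have h8 : ((pz z).card : ℝ) ≤ z := by exact_mod_cast card_pz_le z
    rw [hD]
    have h9 : (0 : ℝ) ≤ ((pz z).card : ℝ) := Nat.cast_nonneg _
    exact pow_le_pow_left₀ (by linarith) (by linarith) r
  have h5 : es (fun p => (n2 Q p : ℝ) / (p : ℝ) ^ 2) (pz z) r ≤ 1 / L ^ U2 := by
    refine (es_le (fun p _ => by positivity) r).trans (le_trans ?_ hr1)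
    apply Real.exp_le_exp.2
    have h6 : ∑ p ∈ pz z, (n2 Q p : ℝ) / (p : ℝ) ^ 2 ≤ c * (1 + Real.log z) := by
      have h7 : ∀ p ∈ pz z, (n2 Q p : ℝ) / (p : ℝ) ^ 2 ≤ c * (1 / (p : ℝ)) := by
        intro p hp
        have hp0 : (0 : ℝ) < p := by exact_mod_cast (mem_pz.1 hp).2.pos
        rw [mul_one_div, div_le_div_iff₀ (by positivity) hp0]
        have := hfew p (mem_pz.1 hp).2
        have h8 : (n2 Q p : ℝ) ≤ c * p := by exact_mod_cast this
        calc (n2 Q p : ℝ) * p ≤ (c * p) * p := mul_le_mul_of_nonneg_right h8 hp0.le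
          _ = c * (p : ℝ) ^ 2 := by ring
      refine (sum_le_sum h7).trans ?_
      rw [← mul_sum]
      exact mul_le_mul_of_nonneg_left (sum_pz_le z) (Nat.cast_nonneg _)
    linarith
  obtain ⟨T, hT⟩ : ∃ T : ℝ, T = (N : ℝ) ^ 2 / L ^ (U + 2) := ⟨_, rfl⟩
  have hT0 : 0 < T := by rw [hT]; positivity
  have g1 : ((∑ j ∈ range (r + 1), ((pz z).powersetCard j).card : ℕ) : ℝ) *
      ((2 * (N : ℝ) + 1) * ((c : ℝ) ^ r * D)) ≤ T := by
    have h6 : ((∑ j ∈ range (r + 1), ((pz z).powersetCard j).card : ℕ) : ℝ) *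
        ((2 * (N : ℝ) + 1) * ((c : ℝ) ^ r * D)) ≤ D * ((3 * N) * (L ^ C' * D)) := by
      apply mul_le_mul (h3.trans h4) _ (by positivity) (by positivity)
      apply mul_le_mul (by linarith) _ (by positivity) (by positivity)
      apply mul_le_mul_of_nonneg_right _ (by positivity)
      have := hr3 c
      rw [hC']
      exact this
    refine h6.trans ?_
    rw [hT, le_div_iff₀ (by positivity)]
    calc D * ((3 * (N : ℝ)) * (L ^ C' * D)) * L ^ (U + 2) = D ^ 2 * N * (3 * L ^ (C' + U + 2)) := by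
          rw [add_assoc, pow_add L C']; ring
      _ ≤ √(N : ℝ) * N * √(N : ℝ) := by gcongr
      _ = N * (√(N : ℝ) * √(N : ℝ)) := by ring
      _ = (N : ℝ) ^ 2 := by rw [hss]; ring
  have g2 : 2 * (N : ℝ) ^ 2 * es (fun p => (n2 Q p : ℝ) / (p : ℝ) ^ 2) (pz z) r ≤ 2 * T := by
    calc 2 * (N : ℝ) ^ 2 * es (fun p => (n2 Q p : ℝ) / (p : ℝ) ^ 2) (pz z) r ≤ 2 * (N : ℝ) ^ 2 * (1 / L ^ U2) :=
          mul_le_mul_of_nonneg_left h5 (by positivity)
      _ = 2 * T := by rw [hT, hU2]; ring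
  calc _ ≤ T + 2 * T := add_le_add g1 g2
    _ = (3 / L ^ 2) * ((N : ℝ) ^ 2 / L ^ U) := by
        rw [hT, pow_add L U 2]
        field_simp
        ring
    _ ≤ 1 * ((N : ℝ) ^ 2 / L ^ U) := by
        apply mul_le_mul_of_nonneg_right _ (by positivity)
        rw [div_le_one (by positivity)]
        nlinarith
    _ = _ := one_mul _

end Pool.Agent.N913.KU
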