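import Pool.Agent.N913.KU.U3
import Pool.Agent.N913.KU.U2
import Pool.Agent.N913.KT.T3
import Pool.Agent.H373R2.T7.SingTail

set_option autoImplicit false
set_option linter.unusedSectionVars false

/-! The mean of a product of sieve models of linear forms in two variables. -/

namespace Pool.Agent.N913.KU

open Finset
open Pool.Agent.H373R2.T7
open Pool.Agent.N913.KT (rh_le)

/-- the pairs of classes -/
def QQ (K : ℕ) (W : ℕ) (v μ : ℕ → ℤ) (p n m : ℕ) : Prop :=
  ∃ j < K, (p : ℤ) ∣ v j + W * (n * μ j + m)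

theorem QQ_per (K W : ℕ) (v μ : ℕ → ℤ) (p n m : ℕ) : QQ K W v μ p n m ↔ QQ K W v μ p (n % p) (m % p) := by
  unfold QQ
  apply exists_congr
  intro j
  apply and_congr_right
  intro _
  have h : (p : ℤ) ∣ (v j + W * (n * μ j + m)) - (v j + W * (((n % p : ℕ) : ℤ) * μ j + ((m % p : ℕ) : ℤ))) := by
    have h1 : (p : ℤ) ∣ (n : ℤ) - ((n % p : ℕ) : ℤ) := by
      push_cast
      exact Int.dvd_self_sub_emod
    have h2 : (p : ℤ) ∣ (m : ℤ) - ((m % p : ℕ) : ℤ) := by
      push_cast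
      exact Int.dvd_self_sub_emod
    have e : (v j + W * (n * μ j + m)) - (v j + W * (((n % p : ℕ) : ℤ) * μ j + ((m % p : ℕ) : ℤ))) =
        W * (((n : ℤ) - ((n % p : ℕ) : ℤ)) * μ j + ((m : ℤ) - ((m % p : ℕ) : ℤ))) := by ring
    rw [e]
    exact Dvd.dvd.mul_left (dvd_add (Dvd.dvd.mul_right h1 _) h2) _
  exact (dvd_iff_dvd_of_dvd_sub h)

/-- one form, one modulus -/
theorem one_form (p : ℕ) (hp : p.Prime) (W : ℕ) (hW : ¬ p ∣ W) (v μ : ℤ) (a : ℕ) :
    ((range p).filter (fun b : ℕ => (p : ℤ) ∣ v + W * (a * μ + b))).card = 1 := by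
  haveI := Fact.mk hp
  have hp0 : p ≠ 0 := hp.ne_zero
  have hW0 : (W : ZMod p) ≠ 0 := by
    intro h
    exact hW ((ZMod.natCast_eq_zero_iff _ _).1 h)
  rw [card_eq_one]
  refine ⟨((-(v : ZMod p) / W - a * μ : ZMod p)).val, ?_⟩
  ext b
  rw [mem_filter, mem_range, mem_singleton]
  have key : (p : ℤ) ∣ v + W * (a * μ + b) ↔ (b : ZMod p) = -(v : ZMod p) / W - a * μ := by
    rw [← ZMod.intCast_zmod_eq_zero_iff_dvd]
    push_cast
    constructor
    · intro h
      field_simp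
      linear_combination h
    · intro h
      rw [h]
      field_simp
      ring
  rw [key]
  constructor
  · rintro ⟨h1, h2⟩
    rw [← h2, ZMod.val_natCast, Nat.mod_eq_of_lt h1]
  · intro h
    rw [h]
    exact ⟨ZMod.val_lt _, ZMod.natCast_zmod_val _⟩

open Classical in
theorem form_card (p : ℕ) (hp : p.Prime) (W : ℕ) (hW : ¬ p ∣ W) (v μ : ℤ) :
    ((range p ×ˢ range p).filter (fun a : ℕ × ℕ => (p : ℤ) ∣ v + W * (a.1 * μ + a.2))).card = p := by
  rw [card_filter, sum_product]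
  have h : ∀ a ∈ range p, ∑ b ∈ range p, (if (p : ℤ) ∣ v + W * (((a, b) : ℕ × ℕ).1 * μ + ((a, b) : ℕ × ℕ).2)
      then 1 else 0) = 1 := by
    intro a _
    rw [← card_filter]
    convert one_form p hp W hW v μ a
  rw [sum_congr rfl h, sum_const, card_range, smul_eq_mul, mul_one]

open Classical in
theorem two_card (p : ℕ) (hp : p.Prime) (W : ℕ) (hW : ¬ p ∣ W) (v μ v' μ' : ℤ) (hμ : ¬ (p : ℤ) ∣ μ - μ') :
    ((range p ×ˢ range p).filter (fun a : ℕ × ℕ => (p : ℤ) ∣ v + W * (a.1 * μ + a.2) ∧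
      (p : ℤ) ∣ v' + W * (a.1 * μ' + a.2))).card ≤ 1 := by
  rw [card_le_one]
  intro a ha b hb
  rw [mem_filter, mem_product, mem_range, mem_range] at ha hb
  obtain ⟨⟨a1, a2⟩, a3, a4⟩ := ha
  obtain ⟨⟨b1, b2⟩, b3, b4⟩ := hb
  have hpi : Prime (p : ℤ) := Nat.prime_iff_prime_int.1 hp
  have hWi : ¬ (p : ℤ) ∣ W := fun h => hW (Int.natCast_dvd_natCast.1 h)
  have c1 : (p : ℤ) ∣ W * (((a.1 : ℤ) - b.1) * (μ - μ')) := by
    have h1 := dvd_sub (dvd_sub a3 b3) (dvd_sub a4 b4)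
    have e : v + W * (a.1 * μ + a.2) - (v + W * (b.1 * μ + b.2)) -
        (v' + W * (a.1 * μ' + a.2) - (v' + W * (b.1 * μ' + b.2))) =
        W * (((a.1 : ℤ) - b.1) * (μ - μ')) := by ring
    rwa [e] at h1
  have c2 : (p : ℤ) ∣ (a.1 : ℤ) - b.1 := by
    rcases hpi.dvd_or_dvd c1 with h | h
    · exact absurd h hWi
    · rcases hpi.dvd_or_dvd h with h | h
      · exact h
      · exact absurd h hμ
  have c3 : (a.1 : ℤ) = b.1 := by
    have h4 : |(a.1 : ℤ) - b.1| < p := by rw [abs_lt]; constructor <;> omega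
    have := Int.eq_zero_of_abs_lt_dvd c2 h4
    omega
  have c4 : (p : ℤ) ∣ W * ((a.2 : ℤ) - b.2) := by
    have h1 := dvd_sub a3 b3
    have e : v + W * (a.1 * μ + a.2) - (v + W * (b.1 * μ + b.2)) = W * ((a.2 : ℤ) - b.2) := by
      rw [c3]; ring
    rwa [e] at h1
  have c5 : (a.2 : ℤ) = b.2 := by
    rcases hpi.dvd_or_dvd c4 with h | h
    · exact absurd h hWi
    · have h4 : |(a.2 : ℤ) - b.2| < p := by rw [abs_lt]; constructor <;> omega
      have := Int.eq_zero_of_abs_lt_dvd h h4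
      omega
  exact Prod.ext (by exact_mod_cast c3) (by exact_mod_cast c5)

theorem n2_le (K W : ℕ) (v μ : ℕ → ℤ) (hv : ∀ j < K, (v j).natAbs.Coprime W) (p : ℕ) (hp : p.Prime) :
    n2 (QQ K W v μ) p ≤ K * p := by
  classical
  by_cases hW : p ∣ W
  · have : n2 (QQ K W v μ) p = 0 := by
      unfold n2
      rw [card_eq_zero, filter_eq_empty_iff]
      rintro a _ ⟨j, hj, hd⟩
      have h1 : (p : ℤ) ∣ (W : ℤ) * (a.1 * μ j + a.2) :=
        Dvd.dvd.mul_right (Int.natCast_dvd_natCast.2 hW) _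
      have h2 : (p : ℤ) ∣ v j := by
        have := dvd_sub hd h1
        simpa using this
      have h3 := Nat.dvd_gcd (Int.natCast_dvd.1 h2) hW
      rw [hv j hj] at h3
      exact hp.one_lt.ne' (Nat.dvd_one.1 h3)
    rw [this]
    exact Nat.zero_le _
  · unfold n2
    have hsub : (range p ×ˢ range p).filter (fun a => QQ K W v μ p a.1 a.2) ⊆
        (range K).biUnion (fun j => (range p ×ˢ range p).filter
          (fun a : ℕ × ℕ => (p : ℤ) ∣ v j + W * (a.1 * μ j + a.2))) := by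
      intro a ha
      rw [mem_filter] at ha
      obtain ⟨ha1, j, hj, hd⟩ := ha
      rw [mem_biUnion]
      exact ⟨j, mem_range.2 hj, mem_filter.2 ⟨ha1, hd⟩⟩
    have h1 := (card_le_card hsub).trans card_biUnion_le
    have h2 : ∑ j ∈ range K, ((range p ×ˢ range p).filter
          (fun a : ℕ × ℕ => (p : ℤ) ∣ v j + W * (a.1 * μ j + a.2))).card = K * p := by
      rw [sum_congr rfl (fun j _ => form_card p hp W hW (v j) (μ j)), sum_const, card_range, smul_eq_mul]
    rw [h2] at h1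
    convert h1

theorem n2_ge (K W : ℕ) (v μ : ℕ → ℤ) (p : ℕ) (hp : p.Prime) (hW : ¬ p ∣ W)
    (hμ : ∀ i < K, ∀ j < K, i ≠ j → ¬ (p : ℤ) ∣ μ i - μ j) :
    (K : ℝ) * p - (K : ℝ) ^ 2 ≤ n2 (QQ K W v μ) p := by
  classical
  obtain ⟨G, hG⟩ : ∃ G : Finset (ℕ × ℕ), G = range p ×ˢ range p := ⟨_, rfl⟩
  obtain ⟨A, hA⟩ : ∃ A : ℕ → ℕ × ℕ → Prop, A = fun j a => (p : ℤ) ∣ v j + W * (a.1 * μ j + a.2) := ⟨_, rfl⟩
  have hn : (n2 (QQ K W v μ) p : ℝ) = ∑ a ∈ G, (if ∃ j < K, A j a then (1 : ℝ) else 0) := by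
    unfold n2
    rw [card_filter]
    push_cast
    rw [hG]
    apply sum_congr rfl
    intro a _
    rw [hA]
    unfold QQ
    split_ifs <;> rfl
  have hpt : ∀ a ∈ G, ∑ j ∈ range K, (if A j a then (1 : ℝ) else 0) -
      ∑ x ∈ (range K).offDiag, (if A x.1 a ∧ A x.2 a then (1 : ℝ) else 0) ≤
      (if ∃ j < K, A j a then (1 : ℝ) else 0) := by
    intro a _
    obtain ⟨J, hJ⟩ : ∃ J : Finset ℕ, J = (range K).filter (fun j => A j a) := ⟨_, rfl⟩
    have e1 : ∑ j ∈ range K, (if A j a then (1 : ℝ) else 0) = J.card := by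
      rw [hJ, card_filter]; push_cast; rfl
    have e2 : ∑ x ∈ (range K).offDiag, (if A x.1 a ∧ A x.2 a then (1 : ℝ) else 0) = J.offDiag.card := by
      have : J.offDiag = (range K).offDiag.filter (fun x => A x.1 a ∧ A x.2 a) := by
        ext x
        rw [mem_filter, mem_offDiag, mem_offDiag, hJ, mem_filter, mem_filter]
        tauto
      rw [this, card_filter]; push_cast; rfl
    rw [e1, e2, offDiag_card]
    have h3 : J.card ≤ J.card * J.card := Nat.le_mul_self _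
    rw [Nat.cast_sub h3]
    push_cast
    by_cases hne : J.Nonempty
    · rw [if_pos]
      · nlinarith [sq_nonneg ((J.card : ℝ) - 1)]
      · obtain ⟨j, hj⟩ := hne
        rw [hJ, mem_filter, mem_range] at hj
        exact ⟨j, hj.1, hj.2⟩
    · rw [not_nonempty_iff_eq_empty.1 hne, card_empty]
      have : (0 : ℝ) ≤ if ∃ j < K, A j a then (1 : ℝ) else 0 := by split_ifs <;> norm_num
      simpa using this
  rw [hn]
  refine le_trans ?_ (sum_le_sum hpt)
  rw [sum_sub_distrib, sum_comm, sum_comm (s := G) (t := (range K).offDiag)]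
  have h1 : ∑ j ∈ range K, ∑ a ∈ G, (if A j a then (1 : ℝ) else 0) = K * p := by
    have : ∀ j ∈ range K, ∑ a ∈ G, (if A j a then (1 : ℝ) else 0) = p := by
      intro j _
      have h2 := form_card p hp W hW (v j) (μ j)
      rw [hG, hA]
      rw [card_filter] at h2
      exact_mod_cast h2
    rw [sum_congr rfl this, sum_const, card_range, nsmul_eq_mul]
  have h2 : ∑ x ∈ (range K).offDiag, ∑ a ∈ G, (if A x.1 a ∧ A x.2 a then (1 : ℝ) else 0) ≤ (K : ℝ) ^ 2 := by
    have : ∀ x ∈ (range K).offDiag, ∑ a ∈ G, (if A x.1 a ∧ A x.2 a then (1 : ℝ) else 0) ≤ 1 := by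
      intro x hx
      rw [mem_offDiag, mem_range, mem_range] at hx
      have h2 := two_card p hp W hW (v x.1) (μ x.1) (v x.2) (μ x.2) (hμ _ hx.1 _ hx.2.1 hx.2.2)
      rw [card_filter] at h2
      rw [hG, hA]
      exact_mod_cast h2
    refine (sum_le_card_nsmul _ _ _ this).trans ?_
    rw [nsmul_eq_mul, mul_one, offDiag_card, card_range]
    have : ((K * K - K : ℕ) : ℝ) ≤ ((K * K : ℕ) : ℝ) := by exact_mod_cast Nat.sub_le _ _
    rw [sq]
    exact_mod_cast this
  rw [h1]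
  linarith

end Pool.Agent.N913.KU
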