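import Pool.Agent.N913.KU.U4

set_option autoImplicit false
set_option linter.unusedSectionVars false

/-! The mean of a product of sieve models of linear forms in two variables: the local densities. -/

namespace Pool.Agent.N913.KU

open Finset
open Pool.Agent.H373R2.T7
open Pool.Agent.N913.KT (rh_le)
open Pool.Agent.N913.MT (tot_prod)

/-- the factor of a prime -/
noncomputable def bp (p : ℕ) : ℝ := (1 - 1 / (p : ℝ))⁻¹

theorem fac (p : ℕ) (hp : p.Prime) : 0 < 1 - 1 / (p : ℝ) ∧ 1 - 1 / (p : ℝ) ≤ 1 := by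
  have h6 : (1 : ℝ) < p := by exact_mod_cast hp.one_lt
  have h1 : 1 / (p : ℝ) < 1 := by rw [div_lt_one (by linarith)]; exact h6
  have h7 : 0 ≤ 1 / (p : ℝ) := by positivity
  constructor <;> linarith

theorem bp_ge (p : ℕ) (hp : p.Prime) : 1 ≤ bp p := by
  unfold bp
  rw [one_le_inv₀ (fac p hp).1]
  exact (fac p hp).2

theorem prod_sub (S T : Finset ℕ) (h : T ⊆ S) (hS : ∀ p ∈ S, p.Prime) : ∏ p ∈ T, bp p ≤ ∏ p ∈ S, bp p := by
  rw [← prod_sdiff h]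
  have h1 : 1 ≤ ∏ p ∈ S \ T, bp p := by
    have := prod_le_prod (s := S \ T) (f := fun _ => (1 : ℝ)) (g := bp) (fun _ _ => zero_le_one)
      (fun p hp => bp_ge p (hS p (mem_sdiff.1 hp).1))
    rwa [prod_const_one] at this
  have h2 : 0 ≤ ∏ p ∈ T, bp p := prod_nonneg fun p hp => zero_le_one.trans (bp_ge p (hS p (h hp)))
  calc ∏ p ∈ T, bp p = 1 * ∏ p ∈ T, bp p := (one_mul _).symm
    _ ≤ _ := mul_le_mul_of_nonneg_right h1 h2

theorem prodb (n : ℕ) (hn : 1 ≤ n) : (n : ℝ) / Nat.totient n = ∏ p ∈ n.primeFactors, bp p := by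
  have hn0 : (0 : ℝ) < n := by exact_mod_cast hn
  rw [tot_prod n]
  unfold bp
  rw [prod_inv_distrib]
  have h1 : 0 < ∏ p ∈ n.primeFactors, (1 - 1 / (p : ℝ)) :=
    prod_pos fun p hp => (fac p (Nat.prime_of_mem_primeFactors hp)).1
  field_simp

theorem ratio (W z0 : ℕ) (hW : 1 ≤ W) (δ : ℕ) (hδ : 1 ≤ δ) (hz : 2 ≤ z0)
    (hWz : ∀ p : ℕ, p.Prime → ¬ p ∣ W → z0 ≤ p) (η : ℝ) (hη0 : 0 ≤ η) (hη : η ≤ 1 / 2)
    (hδη : Real.log δ ≤ η * (z0 * Real.log z0)) (T : Finset ℕ) (hT : ∀ p ∈ T, p.Prime ∧ ¬ p ∣ W ∧ p ∣ δ) :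
    ∏ p ∈ T, bp p ≤ 1 + 2 * η := by
  have h1 := rh_le W z0 hW δ hδ hz hWz η hη0 hη hδη
  have hWδ : 1 ≤ W * δ := Nat.mul_pos hW hδ
  rw [prodb _ hWδ, prodb W hW] at h1
  have hsub : W.primeFactors ∪ T ⊆ (W * δ).primeFactors := by
    intro p hp
    rw [mem_union] at hp
    rw [Nat.mem_primeFactors]
    rcases hp with h | h
    · rw [Nat.mem_primeFactors] at h
      exact ⟨h.1, h.2.1.mul_right δ, by omega⟩
    · exact ⟨(hT p h).1, (hT p h).2.2.mul_left W, by omega⟩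
  have hdis : Disjoint W.primeFactors T := by
    rw [disjoint_left]
    intro p hp hp'
    rw [Nat.mem_primeFactors] at hp
    exact (hT p hp').2.1 hp.2.1
  have h2 := prod_sub _ _ hsub (fun p hp => Nat.prime_of_mem_primeFactors hp)
  rw [prod_union hdis] at h2
  have h3 : 0 < ∏ p ∈ W.primeFactors, bp p :=
    prod_pos fun p hp => lt_of_lt_of_le zero_lt_one (bp_ge p (Nat.prime_of_mem_primeFactors hp))
  have h4 := h2.trans h1
  rw [mul_comm (1 + 2 * η)] at h4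
  exact le_of_mul_le_mul_left h4 h3

theorem local_le (K : ℕ) (W z0 z : ℕ) (hW : 1 ≤ W) (hz : 2 ≤ z0) (hzK : 2 * K ≤ z0) (hzz : z0 ≤ z)
    (hWz : ∀ p : ℕ, p.Prime → ¬ p ∣ W → z0 ≤ p) (v μ : ℕ → ℤ)
    (hv : ∀ j < K, (v j).natAbs.Coprime W) (η : ℝ) (hη0 : 0 ≤ η) (hη : η ≤ 1 / 2)
    (hμ : ∀ i < K, ∀ j < K, i ≠ j → μ i ≠ μ j)
    (hμ2 : ∀ i < K, ∀ j < K, i ≠ j → Real.log ((μ i - μ j).natAbs : ℕ) ≤ η * (z0 * Real.log z0)) :
    ((Vz z)⁻¹) ^ K * ∏ p ∈ pz z, (1 - (n2 (QQ K W v μ) p : ℝ) / (p : ℝ) ^ 2) ≤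
      ((W : ℝ) / Nat.totient W) ^ K * Real.exp (2 * K ^ 2 / (z0 - 1 : ℕ)) * ((1 + 2 * η) ^ K) ^ (K ^ 2) := by
  classical
  have hVz : ((Vz z)⁻¹) ^ K = ∏ p ∈ pz z, bp p ^ K := by
    unfold Vz bp
    rw [prod_pow, prod_inv_distrib]
  rw [hVz, ← prod_mul_distrib]
  obtain ⟨Ap, hAp⟩ : ∃ Ap : ℕ → ℝ, Ap = fun p => if p ∣ W then bp p ^ K else 1 := ⟨_, rfl⟩
  obtain ⟨Bq, hBq⟩ : ∃ Bq : ℕ → ℝ, Bq = fun p => if p ∣ W then 1 else Real.exp (2 * K ^ 2 / (p : ℝ) ^ 2) :=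
    ⟨_, rfl⟩
  obtain ⟨Cx, hCx⟩ : ∃ Cx : ℕ × ℕ → ℕ → ℝ, Cx = fun x p =>
    if ¬ p ∣ W ∧ (p : ℤ) ∣ μ x.1 - μ x.2 then bp p ^ K else 1 := ⟨_, rfl⟩
  have hb1 : ∀ p ∈ pz z, 1 ≤ bp p ^ K := fun p hp => one_le_pow₀ (bp_ge p (mem_pz.1 hp).2)
  have hC1 : ∀ p ∈ pz z, ∀ x, 1 ≤ Cx x p := by
    intro p hp x
    rw [hCx]
    simp only
    split_ifs
    · exact hb1 p hp
    · exact le_rfl
  have hCp : ∀ p ∈ pz z, ∀ S : Finset (ℕ × ℕ), 1 ≤ ∏ x ∈ S, Cx x p := by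
    intro p hp S
    have := prod_le_prod (s := S) (f := fun _ => (1 : ℝ)) (g := fun x => Cx x p) (fun _ _ => zero_le_one)
      (fun x _ => hC1 p hp x)
    rwa [prod_const_one] at this
  have hn0 : ∀ p ∈ pz z, 0 ≤ 1 - (n2 (QQ K W v μ) p : ℝ) / (p : ℝ) ^ 2 ∧
      1 - (n2 (QQ K W v μ) p : ℝ) / (p : ℝ) ^ 2 ≤ 1 := by
    intro p hp
    have hp0 : (0 : ℝ) < p := by exact_mod_cast (mem_pz.1 hp).2.pos
    constructor
    · rw [sub_nonneg, div_le_one (by positivity)]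
      have : n2 (QQ K W v μ) p ≤ p * p := by
        unfold n2
        refine (card_filter_le _ _).trans ?_
        rw [card_product, card_range]
      rw [sq]
      exact_mod_cast this
    · have : 0 ≤ (n2 (QQ K W v μ) p : ℝ) / (p : ℝ) ^ 2 := by positivity
      linarith
  have hpt : ∀ p ∈ pz z, bp p ^ K * (1 - (n2 (QQ K W v μ) p : ℝ) / (p : ℝ) ^ 2) ≤
      Ap p * Bq p * ∏ x ∈ (range K).offDiag, Cx x p := by
    intro p hp
    have hpp := (mem_pz.1 hp).2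
    have h0 := hn0 p hp
    have hbK := hb1 p hp
    have hb0 : 0 ≤ bp p ^ K := by linarith
    have hub : bp p ^ K * (1 - (n2 (QQ K W v μ) p : ℝ) / (p : ℝ) ^ 2) ≤ bp p ^ K := by
      have := mul_le_mul_of_nonneg_left h0.2 hb0
      linarith
    have hC := hCp p hp (range K).offDiag
    by_cases hpW : p ∣ W
    · have e1 : Ap p = bp p ^ K := by rw [hAp]; exact if_pos hpW
      have e2 : Bq p = 1 := by rw [hBq]; exact if_pos hpW
      rw [e1, e2, mul_one]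
      calc _ ≤ bp p ^ K * 1 := by linarith
        _ ≤ _ := mul_le_mul_of_nonneg_left hC hb0
    · have e1 : Ap p = 1 := by rw [hAp]; exact if_neg hpW
      have e2 : Bq p = Real.exp (2 * K ^ 2 / (p : ℝ) ^ 2) := by rw [hBq]; exact if_neg hpW
      rw [e1, e2, one_mul]
      have hB1 : 1 ≤ Real.exp (2 * K ^ 2 / (p : ℝ) ^ 2) := by
        rw [← Real.exp_zero]
        exact Real.exp_le_exp.2 (by positivity)
      by_cases hbad : ∃ x ∈ (range K).offDiag, (p : ℤ) ∣ μ x.1 - μ x.2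
      · obtain ⟨x, hx, hd⟩ := hbad
        have h1 : bp p ^ K ≤ ∏ x ∈ (range K).offDiag, Cx x p := by
          rw [← mul_prod_erase _ _ hx]
          have e3 : Cx x p = bp p ^ K := by rw [hCx]; exact if_pos ⟨hpW, hd⟩
          rw [e3]
          have := hCp p hp ((range K).offDiag.erase x)
          calc bp p ^ K = bp p ^ K * 1 := (mul_one _).symm
            _ ≤ _ := mul_le_mul_of_nonneg_left this hb0
        calc _ ≤ bp p ^ K := hub
          _ ≤ ∏ x ∈ (range K).offDiag, Cx x p := h1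
          _ = 1 * ∏ x ∈ (range K).offDiag, Cx x p := (one_mul _).symm
          _ ≤ _ := mul_le_mul_of_nonneg_right hB1 (by linarith)
      · push Not at hbad
        have hge := n2_ge K W v μ p hpp hpW (fun i hi j hj hij =>
          hbad (i, j) (mem_offDiag.2 ⟨mem_range.2 hi, mem_range.2 hj, hij⟩))
        have hpz : z0 ≤ p := hWz p hpp hpW
        have hp0 : (0 : ℝ) < p := by exact_mod_cast hpp.pos
        have hKp : 2 * (K : ℝ) ≤ p := by exact_mod_cast hzK.trans hpz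
        obtain ⟨y, hy⟩ : ∃ y : ℝ, y = K / p := ⟨_, rfl⟩
        have hy0 : 0 ≤ y := by rw [hy]; positivity
        have hy1 : y ≤ 1 / 2 := by
          rw [hy, div_le_iff₀ hp0]; linarith
        have h1 : 1 - (n2 (QQ K W v μ) p : ℝ) / (p : ℝ) ^ 2 ≤ 1 - y + y ^ 2 := by
          have h2 : y - y ^ 2 ≤ (n2 (QQ K W v μ) p : ℝ) / (p : ℝ) ^ 2 := by
            rw [le_div_iff₀ (by positivity), hy]
            refine le_trans (le_of_eq ?_) hge
            field_simp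
          linarith
        have h2 : 1 - y ≤ (1 - 1 / (p : ℝ)) ^ K := by
          have h3 := one_add_mul_le_pow (a := -(1 / (p : ℝ))) (by
            have : 1 / (p : ℝ) ≤ 1 := by
              rw [div_le_one hp0]
              exact_mod_cast hpp.one_lt.le
            linarith) K
          have e : 1 + (K : ℝ) * -(1 / (p : ℝ)) = 1 - y := by rw [hy]; ring
          rw [e] at h3
          exact h3
        have h3 : 1 - y + y ^ 2 ≤ (1 - y) * (1 + 2 * y ^ 2) := by nlinarith [sq_nonneg y]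
        have h4 : 1 + 2 * y ^ 2 ≤ Real.exp (2 * K ^ 2 / (p : ℝ) ^ 2) := by
          have h5 := Real.add_one_le_exp (2 * (K : ℝ) ^ 2 / (p : ℝ) ^ 2)
          have e : 2 * y ^ 2 = 2 * (K : ℝ) ^ 2 / (p : ℝ) ^ 2 := by rw [hy, div_pow]; ring
          rw [e]
          linarith
        have h5 : 1 - (n2 (QQ K W v μ) p : ℝ) / (p : ℝ) ^ 2 ≤
            (1 - 1 / (p : ℝ)) ^ K * Real.exp (2 * K ^ 2 / (p : ℝ) ^ 2) := by
          refine h1.trans (h3.trans ?_)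
          exact mul_le_mul h2 h4 (by positivity) (by linarith)
        have h6 : bp p ^ K * (1 - 1 / (p : ℝ)) ^ K = 1 := by
          rw [← mul_pow]
          unfold bp
          rw [inv_mul_cancel₀ (fac p hpp).1.ne', one_pow]
        calc _ ≤ bp p ^ K * ((1 - 1 / (p : ℝ)) ^ K * Real.exp (2 * K ^ 2 / (p : ℝ) ^ 2)) :=
              mul_le_mul_of_nonneg_left h5 hb0
          _ = Real.exp (2 * K ^ 2 / (p : ℝ) ^ 2) * 1 := by rw [← mul_assoc, h6]; ring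
          _ ≤ _ := mul_le_mul_of_nonneg_left hC (by positivity)
  refine (prod_le_prod (fun p hp => mul_nonneg (by linarith [hb1 p hp]) (hn0 p hp).1) hpt).trans ?_
  rw [prod_mul_distrib, prod_mul_distrib, prod_comm]
  have hA0 : ∀ p ∈ pz z, 0 ≤ Ap p := by
    intro p hp
    rw [hAp]
    simp only
    split_ifs
    · linarith [hb1 p hp]
    · exact zero_le_one
  have hB0 : ∀ p ∈ pz z, 0 ≤ Bq p := by
    intro p hp
    rw [hBq]
    simp only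
    split_ifs
    · exact zero_le_one
    · positivity
  have hPA : ∏ p ∈ pz z, Ap p ≤ ((W : ℝ) / Nat.totient W) ^ K := by
    rw [hAp, ← prod_filter, prod_pow]
    apply pow_le_pow_left₀ (prod_nonneg fun p hp => by
      have := bp_ge p (mem_pz.1 (mem_filter.1 hp).1).2
      linarith)
    rw [prodb W hW]
    apply prod_sub
    · intro p hp
      rw [mem_filter] at hp
      rw [Nat.mem_primeFactors]
      exact ⟨(mem_pz.1 hp.1).2, hp.2, by omega⟩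
    · intro p hp
      exact Nat.prime_of_mem_primeFactors hp
  have hPB : ∏ p ∈ pz z, Bq p ≤ Real.exp (2 * K ^ 2 / (z0 - 1 : ℕ)) := by
    have e : ∀ p ∈ pz z, Bq p = Real.exp (if p ∣ W then 0 else 2 * K ^ 2 * (1 / (p : ℝ) ^ 2)) := by
      intro p _
      rw [hBq]
      simp only
      split_ifs
      · rw [Real.exp_zero]
      · rw [mul_one_div]
    rw [prod_congr rfl e, ← Real.exp_sum]
    apply Real.exp_le_exp.2
    have h1 : ∑ p ∈ pz z, (if p ∣ W then (0 : ℝ) else 2 * K ^ 2 * (1 / (p : ℝ) ^ 2)) ≤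
        ∑ n ∈ Ioc (z0 - 1) z, 2 * (K : ℝ) ^ 2 * (1 / (n : ℝ) ^ 2) := by
      have h2 : ∀ p ∈ pz z, (if p ∣ W then (0 : ℝ) else 2 * K ^ 2 * (1 / (p : ℝ) ^ 2)) =
          if ¬ p ∣ W then 2 * (K : ℝ) ^ 2 * (1 / (p : ℝ) ^ 2) else 0 := by
        intro p _
        split_ifs <;> first | rfl | contradiction
      rw [sum_congr rfl h2, ← sum_filter]
      apply sum_le_sum_of_subset_of_nonneg
      · intro p hp
        rw [mem_filter, mem_pz] at hp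
        rw [mem_Ioc]
        have := hWz p hp.1.2 hp.2
        omega
      · intro n _ _
        positivity
    refine h1.trans ?_
    rw [← mul_sum]
    have e9 : 2 * (K : ℝ) ^ 2 / ((z0 - 1 : ℕ) : ℝ) = 2 * (K : ℝ) ^ 2 * (1 / ((z0 - 1 : ℕ) : ℝ)) := by ring
    rw [e9]
    have h3 := tail_sq (z0 - 1) z (by omega) (by omega)
    have h4 : (0 : ℝ) ≤ 1 / (z : ℝ) := by positivity
    have h5 : (0 : ℝ) ≤ 2 * (K : ℝ) ^ 2 := by positivity
    exact mul_le_mul_of_nonneg_left (h3.trans (show 1 / ((z0 - 1 : ℕ) : ℝ) - 1 / (z : ℝ) ≤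
      1 / ((z0 - 1 : ℕ) : ℝ) by linarith)) h5
  have hPC : ∏ x ∈ (range K).offDiag, ∏ p ∈ pz z, Cx x p ≤ ((1 + 2 * η) ^ K) ^ (K ^ 2) := by
    have h1 : ∀ x ∈ (range K).offDiag, ∏ p ∈ pz z, Cx x p ≤ (1 + 2 * η) ^ K := by
      intro x hx
      rw [mem_offDiag, mem_range, mem_range] at hx
      rw [hCx, ← prod_filter, prod_pow]
      apply pow_le_pow_left₀ (prod_nonneg fun p hp => by
        have := bp_ge p (mem_pz.1 (mem_filter.1 hp).1).2
        linarith)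
      apply ratio W z0 hW (μ x.1 - μ x.2).natAbs (Int.natAbs_pos.2 (sub_ne_zero.2 (hμ _ hx.1 _ hx.2.1 hx.2.2)))
        hz hWz η hη0 hη (hμ2 _ hx.1 _ hx.2.1 hx.2.2)
      intro p hp
      rw [mem_filter, mem_pz] at hp
      exact ⟨hp.1.2, hp.2.1, Int.natCast_dvd.1 hp.2.2⟩
    have h2 := prod_le_prod (s := (range K).offDiag) (f := fun x => ∏ p ∈ pz z, Cx x p)
      (g := fun _ => (1 + 2 * η) ^ K) (fun x _ => prod_nonneg fun p hp => by linarith [hC1 p hp x]) h1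
    refine h2.trans ?_
    rw [prod_const]
    apply pow_le_pow_right₀ (one_le_pow₀ (by linarith))
    rw [offDiag_card, card_range, sq]
    exact Nat.sub_le _ _
  have p1 : 0 ≤ ∏ p ∈ pz z, Bq p := prod_nonneg hB0
  have p2 : 0 ≤ ∏ x ∈ (range K).offDiag, ∏ p ∈ pz z, Cx x p :=
    prod_nonneg fun x _ => prod_nonneg fun p hp => by linarith [hC1 p hp x]
  have hω0 : 0 ≤ ((W : ℝ) / Nat.totient W) ^ K := by positivity
  apply mul_le_mul (mul_le_mul hPA hPB p1 hω0) hPC p2 (by positivity)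

theorem two_par (K E U : ℕ) (hK : 1 ≤ K) : ∃ N0 : ℕ, ∀ N : ℕ, N0 ≤ N → ∀ z : ℕ, 1 ≤ z →
    (z : ℝ) ≤ Real.log N ^ E → ∀ W z0 : ℕ, 1 ≤ W → 2 ≤ z0 → 2 * K ≤ z0 → z0 ≤ z →
    (∀ p : ℕ, p.Prime → ¬ p ∣ W → z0 ≤ p) → ∀ v μ : ℕ → ℤ,
    (∀ j < K, (v j).natAbs.Coprime W) → ∀ η : ℝ, 0 ≤ η → η ≤ 1 / 2 →
    (∀ i < K, ∀ j < K, i ≠ j → μ i ≠ μ j) →
    (∀ i < K, ∀ j < K, i ≠ j → Real.log ((μ i - μ j).natAbs : ℕ) ≤ η * (z0 * Real.log z0)) →
    ∑ n ∈ Icc 1 N, ∑ m ∈ Icc 1 N, ∏ j ∈ range K, gz z (v j + W * (n * μ j + m)) ≤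
      (N : ℝ) ^ 2 * (((W : ℝ) / Nat.totient W) ^ K * Real.exp (2 * K ^ 2 / (z0 - 1 : ℕ)) *
        ((1 + 2 * η) ^ K) ^ (K ^ 2) + 1 / Real.log N ^ U) := by
  classical
  obtain ⟨N0, hN0⟩ := sys2 K E (U + K) hK
  obtain ⟨N1, hN1⟩ := Vz_inv_small E
  obtain ⟨N2, hN2⟩ := ev_L' 1
  refine ⟨max N0 (max N1 N2), fun N hN z hz hzE W z0 hW hz0 hzK hzz hWz v μ hv η hη0 hη hμ hμ2 => ?_⟩
  have a1 := hN0 N ((le_max_left _ _).trans hN) z hz hzE (QQ K W v μ) (QQ_per K W v μ)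
    (fun p hp => n2_le K W v μ hv p hp)
  have a2 := hN1 N (((le_max_left _ _).trans (le_max_right _ _)).trans hN) z hz hzE
  have a3 := hN2 N (((le_max_right _ _).trans (le_max_right _ _)).trans hN)
  obtain ⟨L, hL⟩ : ∃ L, L = Real.log N := ⟨_, rfl⟩
  rw [← hL] at a1 a2 a3 ⊢
  have hV0 : 0 ≤ (Vz z)⁻¹ := (inv_pos.2 (Vz_pos z)).le
  obtain ⟨G, hG⟩ : ∃ G : ℝ, G = (((Icc 1 N ×ˢ Icc 1 N).filter (fun n : ℕ × ℕ =>
    ∀ p ∈ pz z, ¬ QQ K W v μ p n.1 n.2)).card : ℕ) := ⟨_, rfl⟩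
  have h1 : ∑ n ∈ Icc 1 N, ∑ m ∈ Icc 1 N, ∏ j ∈ range K, gz z (v j + W * (n * μ j + m)) =
      ((Vz z)⁻¹) ^ K * G := by
    rw [← sum_product', hG, card_filter, Nat.cast_sum, mul_sum]
    apply sum_congr rfl
    intro x _
    have h2 : ∀ m : ℤ, gz z m = if ∀ p ∈ pz z, ¬ (p : ℤ) ∣ m then (Vz z)⁻¹ else 0 := by
      intro m
      unfold gz lamz
      have : (∀ p ∈ pz z, ¬ p ∣ m.natAbs) ↔ (∀ p ∈ pz z, ¬ (p : ℤ) ∣ m) := by
        apply forall₂_congr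
        intro p _
        rw [Int.natCast_dvd]
      by_cases h : ∀ p ∈ pz z, ¬ (p : ℤ) ∣ m
      · rw [if_pos h, if_pos (this.2 h)]
      · rw [if_neg h, if_neg (fun h' => h (this.1 h'))]
    by_cases hx : ∀ p ∈ pz z, ¬ QQ K W v μ p x.1 x.2
    · rw [if_pos hx, Nat.cast_one, mul_one]
      have h3 : ∀ j ∈ range K, gz z (v j + W * (x.1 * μ j + x.2)) = (Vz z)⁻¹ := by
        intro j hj
        rw [h2, if_pos]
        intro p hp hd
        exact hx p hp ⟨j, mem_range.1 hj, hd⟩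
      rw [prod_congr rfl h3, prod_const, card_range]
    · rw [if_neg hx, Nat.cast_zero, mul_zero]
      push Not at hx
      obtain ⟨p, hp, j, hj, hd⟩ := hx
      apply prod_eq_zero (mem_range.2 hj)
      rw [h2, if_neg]
      intro h
      exact h p hp hd
  rw [h1]
  rw [← hG] at a1
  have hloc := local_le K W z0 z hW hz0 hzK hzz hWz v μ hv η hη0 hη hμ hμ2
  obtain ⟨Pq, hPq⟩ : ∃ Pq : ℝ, Pq = ∏ p ∈ pz z, (1 - (n2 (QQ K W v μ) p : ℝ) / (p : ℝ) ^ 2) := ⟨_, rfl⟩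
  rw [← hPq] at a1 hloc
  have h3 : G ≤ (N : ℝ) ^ 2 * Pq + (N : ℝ) ^ 2 / L ^ (U + K) := by linarith [(abs_le.1 a1).2]
  have h4 := mul_le_mul_of_nonneg_left h3 (pow_nonneg hV0 K)
  have hN2 : (0 : ℝ) ≤ (N : ℝ) ^ 2 := by positivity
  have h5 := mul_le_mul_of_nonneg_left hloc hN2
  have h6 : ((Vz z)⁻¹) ^ K * ((N : ℝ) ^ 2 / L ^ (U + K)) ≤ (N : ℝ) ^ 2 * (1 / L ^ U) := by
    have h7 : ((Vz z)⁻¹) ^ K ≤ L ^ K := pow_le_pow_left₀ hV0 a2 K
    have hL0 : 0 < L := by linarith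
    calc ((Vz z)⁻¹) ^ K * ((N : ℝ) ^ 2 / L ^ (U + K)) ≤ L ^ K * ((N : ℝ) ^ 2 / L ^ (U + K)) :=
          mul_le_mul_of_nonneg_right h7 (by positivity)
      _ = _ := by
          rw [pow_add]
          field_simp
  calc _ ≤ ((Vz z)⁻¹) ^ K * ((N : ℝ) ^ 2 * Pq + (N : ℝ) ^ 2 / L ^ (U + K)) := h4
    _ = (N : ℝ) ^ 2 * (((Vz z)⁻¹) ^ K * Pq) + ((Vz z)⁻¹) ^ K * ((N : ℝ) ^ 2 / L ^ (U + K)) := by ring
    _ ≤ _ := add_le_add h5 h6
    _ = _ := by ring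

end Pool.Agent.N913.KU
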