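import Pool.Agent.N913.KU.U5
import Pool.Agent.N913.KS.S3

set_option autoImplicit false
set_option linter.unusedSectionVars false

/-! Translations; the difference of the primes and the model at one position. -/

namespace Pool.Agent.N913.KU

open Finset Polynomial
open Pool.Agent.H373R2.T7
open Pool.Agent.N913.MT (th th_nonneg th_le)
open Pool.Agent.N913.KT (pol)
open Pool.Agent.N913.KS (Bx mem_Bx strip transl ev blk pol_add Nw Nw_eval Nw_deg Nw_coeff)

theorem transS {ι : Type} [Fintype ι] [DecidableEq ι] (H W σ : ℕ) (cs s : ι → ℤ) (hs : ∀ i, (W : ℤ) ∣ s i)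
    (hσ : ∀ i, |s i| ≤ σ) (F : (ι → ℤ) → ℝ) (B : ℝ)
    (hF : ∀ c ∈ Bx H W cs, |F (c + s)| ≤ B) (hF' : ∀ c ∈ Bx H W cs, |F c| ≤ B) :
    |∑ c ∈ Bx H W cs, F (c + s) - ∑ c ∈ Bx H W cs, F c| ≤ 2 * B * (strip H W σ cs).card := by
  classical
  have h := transl H W σ cs s hs hσ (fun c => if |F c| ≤ B then F c + B else 0) (by
    intro c
    split_ifs with h1
    · linarith [neg_abs_le (F c)]
    · exact le_rfl) (2 * B) (by
    intro c hc
    rw [if_pos (hF c hc)]
    linarith [le_abs_self (F (c + s)), hF c hc]) (by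
    intro c hc
    rw [if_pos (hF' c hc)]
    linarith [le_abs_self (F c), hF' c hc])
  have e1 : ∑ c ∈ Bx H W cs, (if |F (c + s)| ≤ B then F (c + s) + B else 0) =
      ∑ c ∈ Bx H W cs, (F (c + s) + B) := sum_congr rfl fun c hc => if_pos (hF c hc)
  have e2 : ∑ c ∈ Bx H W cs, (if |F c| ≤ B then F c + B else 0) =
      ∑ c ∈ Bx H W cs, (F c + B) := sum_congr rfl fun c hc => if_pos (hF' c hc)
  rw [e1, e2, sum_add_distrib, sum_add_distrib, add_sub_add_right_eq_sub] at h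
  exact h

theorem avgS {ι : Type} [Fintype ι] [DecidableEq ι] {J : Type} (S : Finset J) (H W σ : ℕ) (cs : ι → ℤ)
    (s : J → ι → ℤ) (hs : ∀ x ∈ S, ∀ i, (W : ℤ) ∣ s x i)
    (hσ : ∀ x ∈ S, ∀ i, |s x i| ≤ σ) (F : (ι → ℤ) → ℝ) (B : ℝ)
    (hF : ∀ c : ι → ℤ, (∀ i, |c i| ≤ H + σ) → |F c| ≤ B) :
    |∑ c ∈ Bx H W cs, ∑ x ∈ S, F (c + s x) - S.card * ∑ c ∈ Bx H W cs, F c| ≤
      S.card * (2 * B * (strip H W σ cs).card) := by
  rw [sum_comm]
  have e : ∑ x ∈ S, ∑ c ∈ Bx H W cs, F (c + s x) - S.card * ∑ c ∈ Bx H W cs, F c =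
      ∑ x ∈ S, (∑ c ∈ Bx H W cs, F (c + s x) - ∑ c ∈ Bx H W cs, F c) := by
    rw [sum_sub_distrib, sum_const, nsmul_eq_mul]
  rw [e]
  refine (abs_sum_le_sum_abs _ _).trans ?_
  rw [← nsmul_eq_mul]
  apply sum_le_card_nsmul
  intro x hx
  apply transS H W σ cs (s x) (hs x hx) (hσ x hx)
  · intro c hc
    rw [mem_Bx] at hc
    apply hF
    intro i
    rw [Pi.add_apply]
    have := abs_add_le (c i) (s x i)
    linarith [(hc i).1, hσ x hx i]
  · intro c hc
    rw [mem_Bx] at hc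
    apply hF
    intro i
    have : (0 : ℤ) ≤ σ := Int.natCast_nonneg _
    linarith [(hc i).1]

/-- the vector of a family of polynomials -/
noncomputable def sh {r : ℕ} (N : ℕ) (q : Fin r → ℤ[X]) : Fin r × Fin N → ℤ := fun x => (q x.1).coeff x.2

theorem ev_sh {r N : ℕ} (P : Fin r → ℤ[X]) (c : Fin r × Fin N → ℤ) (q : Fin r → ℤ[X])
    (hq : ∀ a, (q a).natDegree < N) (x : Fin r × ℤ) :
    ev P (c + sh N q) x = ev P c x + (q x.1).eval x.2 := by
  unfold ev
  have e : blk (c + sh N q) x.1 = fun i => blk c x.1 i + 1 * (q x.1).coeff i := by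
    funext i
    unfold blk sh
    rw [Pi.add_apply, one_mul]
  rw [e, pol_add _ _ _ (hq x.1), eval_add, C_1, one_mul]

/-- one position: the primes minus the model -/
theorem onepos {r N : ℕ} (P : Fin r → ℤ[X]) (R z Y M : ℕ) (hM : 2 * Y < M) (B Lam : ℝ)
    (hV : ∀ t : ℕ, ‖∑ m ∈ Icc (-(Y : ℤ)) Y, (vz R z m : ℂ) *
      Pool.Agent.H807R2.Dav.ee ((t : ℝ) * ((m : ℝ) / M))‖ ≤ B)
    (hLam : 1 ≤ Lam) (hv : ∀ m : ℤ, |m| ≤ Y → |vz R z m| ≤ Lam)
    (φ : ℕ → ℤ → ℝ) (hφ : ∀ i, ∀ m : ℤ, |m| ≤ Y → |φ i m| ≤ Lam)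
    (W : ℕ) (hW : 1 ≤ W) (H σ U T : ℕ) (hU : 1 ≤ U) (cs : Fin r × Fin N → ℤ)
    (s : ℕ → Fin r × ℤ) (K : ℕ) (A1 A2 : Finset ℕ) (j : ℕ) (hj : j < K)
    (hA : (range K).erase j = A1 ∪ A2) (hdis : Disjoint A1 A2)
    (hc1 : (A1.filter (fun i => (s i).1 = (s j).1)).card < N)
    (hc2 : (A2.filter (fun i => (s i).1 = (s j).1)).card < N)
    (hT : ∀ l < K, |(s l).2| ≤ T) (hinj : ∀ l < K, l ≠ j → s l ≠ s j)
    (hσ : 2 * (W * U * (1 + T) ^ N) ≤ σ)
    (hY : ∀ c : Fin r × Fin N → ℤ, (∀ i, |c i| ≤ H + σ) → ∀ x : Fin r × ℤ, |x.2| ≤ T →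
      |ev P c x| ≤ Y) :
    |∑ c ∈ Bx H W cs, vz R z (ev P c (s j)) * ∏ i ∈ (range K).erase j, φ i (ev P c (s i))| ≤
      (Bx H W cs).card * (B * Lam ^ (2 * K) / U) + 2 * Lam ^ K * (strip H W σ cs).card := by
  classical
  have hU0 : (0 : ℝ) < U := by exact_mod_cast hU
  have hB0 : 0 ≤ B := (norm_nonneg _).trans (hV 0)
  obtain ⟨t, ht⟩ : ∃ t : ℕ → ℤ, t = fun l => (s l).2 := ⟨_, rfl⟩
  obtain ⟨F1, hF1⟩ : ∃ F1, F1 = A1.filter (fun i => (s i).1 = (s j).1) := ⟨_, rfl⟩
  obtain ⟨F2, hF2⟩ : ∃ F2, F2 = A2.filter (fun i => (s i).1 = (s j).1) := ⟨_, rfl⟩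
  rw [← hF1] at hc1
  rw [← hF2] at hc2
  have hA1K : ∀ i ∈ A1, i < K ∧ i ≠ j := by
    intro i hi
    have : i ∈ (range K).erase j := by rw [hA]; exact mem_union_left _ hi
    rw [mem_erase, mem_range] at this
    exact ⟨this.2, this.1⟩
  have hA2K : ∀ i ∈ A2, i < K ∧ i ≠ j := by
    intro i hi
    have : i ∈ (range K).erase j := by rw [hA]; exact mem_union_right _ hi
    rw [mem_erase, mem_range] at this
    exact ⟨this.2, this.1⟩
  obtain ⟨q, hq⟩ : ∃ q : ℕ × ℕ → Fin r → ℤ[X], q = fun y a =>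
    if a = (s j).1 then C ((W : ℤ) * y.1) * Nw t F1 + C ((W : ℤ) * y.2) * Nw t F2 else 0 := ⟨_, rfl⟩
  have hqd : ∀ y a, (q y a).natDegree < N := by
    intro y a
    rw [hq]
    simp only
    split_ifs
    · refine lt_of_le_of_lt (natDegree_add_le _ _) ?_
      rw [max_lt_iff]
      constructor
      · exact lt_of_le_of_lt (natDegree_C_mul_le _ _) (by rw [Nw_deg]; exact hc1)
      · exact lt_of_le_of_lt (natDegree_C_mul_le _ _) (by rw [Nw_deg]; exact hc2)
    · rw [natDegree_zero]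
      omega
  have hqc : ∀ y ∈ range U ×ˢ range U, ∀ x : Fin r × Fin N, |sh N (q y) x| ≤ σ := by
    intro y hy x
    rw [mem_product, mem_range, mem_range] at hy
    unfold sh
    rw [hq]
    simp only
    split_ifs
    · rw [coeff_add, coeff_C_mul, coeff_C_mul]
      have b1 : ∀ F : Finset ℕ, F.card < N → (∀ l ∈ F, |t l| ≤ T) → ∀ w : ℕ, w < U →
          |(W : ℤ) * w * (Nw t F).coeff x.2| ≤ (W * U * (1 + T) ^ N : ℕ) := by
        intro F hF hFt w hw
        rw [abs_mul]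
        have h2 := Nw_coeff t T F hFt x.2
        have h2' : (1 + (T : ℤ)) ^ F.card ≤ (1 + (T : ℤ)) ^ N :=
          pow_le_pow_right₀ (by linarith [Int.natCast_nonneg T]) hF.le
        have h3 : |(W : ℤ) * w| ≤ W * U := by
          rw [abs_of_nonneg (by positivity)]
          exact mul_le_mul_of_nonneg_left (by exact_mod_cast hw.le) (by positivity)
        calc |(W : ℤ) * w| * |(Nw t F).coeff x.2| ≤ (W * U) * (1 + (T : ℤ)) ^ N :=
              mul_le_mul h3 (h2.trans h2') (abs_nonneg _) (by positivity)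
          _ = ((W * U * (1 + T) ^ N : ℕ) : ℤ) := by push_cast; ring
      have h1 := b1 F1 hc1 (fun l hl => by
        rw [ht]
        rw [hF1, mem_filter] at hl
        exact hT l (hA1K l hl.1).1) y.1 hy.1
      have h2 := b1 F2 hc2 (fun l hl => by
        rw [ht]
        rw [hF2, mem_filter] at hl
        exact hT l (hA2K l hl.1).1) y.2 hy.2
      refine (abs_add_le _ _).trans ((add_le_add h1 h2).trans ?_)
      have : 2 * (W * U * (1 + T) ^ N) ≤ σ := hσ
      have h3 : ((2 * (W * U * (1 + T) ^ N) : ℕ) : ℤ) ≤ σ := by exact_mod_cast this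
      push_cast at h3 ⊢
      linarith
    · rw [coeff_zero, abs_zero]
      exact Int.natCast_nonneg _
  have hqW : ∀ y : ℕ × ℕ, ∀ x : Fin r × Fin N, (W : ℤ) ∣ sh N (q y) x := by
    intro y x
    unfold sh
    rw [hq]
    simp only
    split_ifs
    · rw [coeff_add, coeff_C_mul, coeff_C_mul]
      exact dvd_add (Dvd.dvd.mul_right (Dvd.intro _ rfl) _) (Dvd.dvd.mul_right (Dvd.intro _ rfl) _)
    · rw [coeff_zero]
      exact dvd_zero _
  obtain ⟨F, hFd⟩ : ∃ F : (Fin r × Fin N → ℤ) → ℝ, F = fun c =>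
    vz R z (ev P c (s j)) * ∏ i ∈ (range K).erase j, φ i (ev P c (s i)) := ⟨_, rfl⟩
  have hFb : ∀ c : Fin r × Fin N → ℤ, (∀ i, |c i| ≤ H + σ) → |F c| ≤ Lam ^ K := by
    intro c hc
    rw [hFd]
    simp only
    rw [abs_mul, abs_prod]
    have h1 := hv _ (hY c hc (s j) (hT j hj))
    have h2 : ∏ i ∈ (range K).erase j, |φ i (ev P c (s i))| ≤ Lam ^ (K - 1) := by
      refine (prod_le_prod (fun _ _ => abs_nonneg _) (g := fun _ => Lam) ?_).trans (le_of_eq ?_)
      · intro i hi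
        rw [mem_erase, mem_range] at hi
        exact hφ i _ (hY c hc (s i) (hT i hi.2))
      · rw [prod_const, card_erase_of_mem (mem_range.2 hj), card_range]
    calc |vz R z (ev P c (s j))| * ∏ i ∈ (range K).erase j, |φ i (ev P c (s i))| ≤ Lam * Lam ^ (K - 1) :=
          mul_le_mul h1 h2 (prod_nonneg fun _ _ => abs_nonneg _) (by linarith)
      _ = Lam ^ K := by rw [← pow_succ']; congr 1; omega
  have havg := avgS (range U ×ˢ range U) H W σ cs (fun y => sh N (q y)) (fun y _ x => hqW y x) hqc F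
    (Lam ^ K) hFb
  -- the inner sums
  have hp1 : (Nw t F1).eval (s j).2 ≠ 0 := by
    rw [Nw_eval, prod_ne_zero_iff]
    intro l hl h0
    rw [hF1, mem_filter] at hl
    apply hinj l (hA1K l hl.1).1 (hA1K l hl.1).2
    rw [ht] at h0
    exact Prod.ext hl.2 (by linarith)
  have hp2 : (Nw t F2).eval (s j).2 ≠ 0 := by
    rw [Nw_eval, prod_ne_zero_iff]
    intro l hl h0
    rw [hF2, mem_filter] at hl
    apply hinj l (hA2K l hl.1).1 (hA2K l hl.1).2
    rw [ht] at h0
    exact Prod.ext hl.2 (by linarith)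
  have hW0 : (W : ℤ) ≠ 0 := by exact_mod_cast (by omega : W ≠ 0)
  have hin : ∀ c ∈ Bx H W cs, |∑ y ∈ range U ×ˢ range U, F (c + sh N (q y))| ≤
      B * U * Lam ^ K * Lam ^ K := by
    intro c hc
    rw [mem_Bx] at hc
    have hce : ∀ y ∈ range U ×ˢ range U, ∀ i, |(c + sh N (q y)) i| ≤ H + σ := by
      intro y hy i
      rw [Pi.add_apply]
      have := abs_add_le (c i) (sh N (q y) i)
      linarith [(hc i).1, hqc y hy i]
    have hev : ∀ y : ℕ × ℕ, ∀ x : Fin r × ℤ, ev P (c + sh N (q y)) x = ev P c x + (q y x.1).eval x.2 :=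
      fun y x => ev_sh P c (q y) (hqd y) x
    -- values
    have v1 : ∀ y : ℕ × ℕ, ∀ i ∈ A1, (q y (s i).1).eval (s i).2 =
        if (s i).1 = (s j).1 then (W : ℤ) * y.2 * (Nw t F2).eval (s i).2 else 0 := by
      intro y i hi
      rw [hq]
      simp only
      split_ifs with h
      · rw [eval_add, eval_mul, eval_mul, eval_C, eval_C]
        have h0 : (Nw t F1).eval (s i).2 = 0 := by
          rw [Nw_eval, prod_eq_zero (i := i)]
          · rw [hF1, mem_filter]; exact ⟨hi, h⟩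
          · rw [ht]; exact sub_self _
        rw [h0, mul_zero, zero_add]
      · rw [eval_zero]
    have v2 : ∀ y : ℕ × ℕ, ∀ i ∈ A2, (q y (s i).1).eval (s i).2 =
        if (s i).1 = (s j).1 then (W : ℤ) * y.1 * (Nw t F1).eval (s i).2 else 0 := by
      intro y i hi
      rw [hq]
      simp only
      split_ifs with h
      · rw [eval_add, eval_mul, eval_mul, eval_C, eval_C]
        have h0 : (Nw t F2).eval (s i).2 = 0 := by
          rw [Nw_eval, prod_eq_zero (i := i)]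
          · rw [hF2, mem_filter]; exact ⟨hi, h⟩
          · rw [ht]; exact sub_self _
        rw [h0, mul_zero, add_zero]
      · rw [eval_zero]
    have v3 : ∀ y : ℕ × ℕ, (q y (s j).1).eval (s j).2 =
        (W : ℤ) * (Nw t F1).eval (s j).2 * y.1 + (W : ℤ) * (Nw t F2).eval (s j).2 * y.2 := by
      intro y
      rw [hq]
      simp only [if_true]
      rw [eval_add, eval_mul, eval_mul, eval_C, eval_C]
      ring
    obtain ⟨xa, hxa⟩ : ∃ xa : ℕ → ℝ, xa = fun a : ℕ => ∏ i ∈ A2, φ i (ev P c (s i) +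
      if (s i).1 = (s j).1 then (W : ℤ) * a * (Nw t F1).eval (s i).2 else 0) := ⟨_, rfl⟩
    obtain ⟨yb, hyb⟩ : ∃ yb : ℕ → ℝ, yb = fun b : ℕ => ∏ i ∈ A1, φ i (ev P c (s i) +
      if (s i).1 = (s j).1 then (W : ℤ) * b * (Nw t F2).eval (s i).2 else 0) := ⟨_, rfl⟩
    have hFe : ∀ y : ℕ × ℕ, F (c + sh N (q y)) = xa y.1 * yb y.2 *
        vz R z (ev P c (s j) + (W : ℤ) * (Nw t F1).eval (s j).2 * y.1 + (W : ℤ) * (Nw t F2).eval (s j).2 * y.2) := by
      intro y
      rw [hFd]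
      simp only
      rw [hA, prod_union hdis, hev, v3, hxa, hyb]
      have e1 : ∏ i ∈ A1, φ i (ev P (c + sh N (q y)) (s i)) = ∏ i ∈ A1, φ i (ev P c (s i) +
          if (s i).1 = (s j).1 then (W : ℤ) * y.2 * (Nw t F2).eval (s i).2 else 0) :=
        prod_congr rfl fun i hi => by rw [hev, v1 y i hi]
      have e2 : ∏ i ∈ A2, φ i (ev P (c + sh N (q y)) (s i)) = ∏ i ∈ A2, φ i (ev P c (s i) +
          if (s i).1 = (s j).1 then (W : ℤ) * y.1 * (Nw t F1).eval (s i).2 else 0) :=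
        prod_congr rfl fun i hi => by rw [hev, v2 y i hi]
      rw [e1, e2, add_assoc (ev P c (s j))]
      ring
    rw [sum_congr rfl (fun y _ => hFe y), sum_product]
    have hpos : ∀ a ∈ range U, a < U := fun a ha => mem_range.1 ha
    have h0U : (0 : ℕ) ∈ range U := mem_range.2 hU
    apply u2 (vz R z) Y M hM B hV xa yb U (Lam ^ K) (Lam ^ K) (by positivity) (by positivity)
    · intro a ha
      rw [hxa]
      simp only
      rw [abs_prod]
      refine (prod_le_prod (fun _ _ => abs_nonneg _) (g := fun _ => Lam) ?_).trans ?_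
      · intro i hi
        apply hφ
        have h1 := hY _ (hce (a, 0) (mem_product.2 ⟨ha, h0U⟩)) (s i) (hT i (hA2K i hi).1)
        rw [hev, v2 _ i hi] at h1
        exact h1
      · rw [prod_const]
        apply pow_le_pow_right₀ hLam
        have h1 : A2 ⊆ range K := fun i hi => mem_range.2 (hA2K i hi).1
        have := card_le_card h1
        rwa [card_range] at this
    · intro b hb
      rw [hyb]
      simp only
      rw [abs_prod]
      refine (prod_le_prod (fun _ _ => abs_nonneg _) (g := fun _ => Lam) ?_).trans ?_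
      · intro i hi
        apply hφ
        have h1 := hY _ (hce (0, b) (mem_product.2 ⟨h0U, hb⟩)) (s i) (hT i (hA1K i hi).1)
        rw [hev, v1 _ i hi] at h1
        exact h1
      · rw [prod_const]
        apply pow_le_pow_right₀ hLam
        have h1 : A1 ⊆ range K := fun i hi => mem_range.2 (hA1K i hi).1
        have := card_le_card h1
        rwa [card_range] at this
    · exact mul_ne_zero hW0 hp1
    · exact mul_ne_zero hW0 hp2
    · intro a ha b hb
      have h1 := hY _ (hce (a, b) (mem_product.2 ⟨ha, hb⟩)) (s j) (hT j hj)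
      rw [hev, v3, ← add_assoc] at h1
      exact h1
  rw [card_product, card_range] at havg
  obtain ⟨S0, hS0⟩ : ∃ S0, S0 = ∑ c ∈ Bx H W cs, F c := ⟨_, rfl⟩
  obtain ⟨S1, hS1⟩ : ∃ S1, S1 = ∑ c ∈ Bx H W cs, ∑ y ∈ range U ×ˢ range U, F (c + sh N (q y)) := ⟨_, rfl⟩
  rw [← hS0, ← hS1] at havg
  have h1 : |S1| ≤ (Bx H W cs).card * (B * U * Lam ^ K * Lam ^ K) := by
    rw [hS1]
    refine (abs_sum_le_sum_abs _ _).trans ?_
    rw [← nsmul_eq_mul]
    exact sum_le_card_nsmul _ _ _ hin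
  push_cast at havg
  have h2 : (U : ℝ) * U * |S0| ≤ (Bx H W cs).card * (B * U * Lam ^ K * Lam ^ K) +
      U * U * (2 * Lam ^ K * (strip H W σ cs).card) := by
    have e : (U : ℝ) * U * |S0| = |(U : ℝ) * U * S0| := by
      rw [abs_mul, abs_of_nonneg (by positivity : (0 : ℝ) ≤ (U : ℝ) * U)]
    rw [e]
    have e2 : (U : ℝ) * U * S0 = S1 - (S1 - U * U * S0) := by ring
    rw [e2]
    exact (abs_sub _ _).trans (add_le_add h1 havg)
  have hgoal : ∑ c ∈ Bx H W cs, vz R z (ev P c (s j)) * ∏ i ∈ (range K).erase j, φ i (ev P c (s i)) = S0 := by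
    rw [hS0, hFd]
  rw [hgoal]
  have hUU : (0 : ℝ) < (U : ℝ) * U := by positivity
  apply le_of_mul_le_mul_left _ hUU
  refine h2.trans (le_of_eq ?_)
  rw [two_mul K, pow_add]
  field_simp

end Pool.Agent.N913.KU
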