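import Pool.Agent.N913.KU.U6

set_option autoImplicit false
set_option linter.unusedSectionVars false

/-! The pair moments: telescoping; the average over two parameters. -/

namespace Pool.Agent.N913.KU

open Finset Polynomial
open Pool.Agent.H373R2.T7
open Pool.Agent.N913.MT (th th_nonneg th_le)
open Pool.Agent.N913.KT (pol)
open Pool.Agent.N913.KS (Bx mem_Bx strip transl ev blk pol_add Nw Nw_eval Nw_deg Nw_coeff Fw ev_cop)

theorem gz_nonneg (z : ℕ) (m : ℤ) : 0 ≤ gz z m := by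
  unfold gz lamz
  split_ifs
  · exact (inv_pos.2 (Vz_pos z)).le
  · exact le_rfl

theorem gz_le (z : ℕ) (m : ℤ) (Lam : ℝ) (h : (Vz z)⁻¹ ≤ Lam) : gz z m ≤ Lam := by
  unfold gz lamz
  split_ifs
  · exact h
  · exact (inv_pos.2 (Vz_pos z)).le.trans h

theorem tele {r N : ℕ} (P : Fin r → ℤ[X]) (R z Y M : ℕ) (hM : 2 * Y < M) (B Lam : ℝ)
    (hV : ∀ t : ℕ, ‖∑ m ∈ Icc (-(Y : ℤ)) Y, (vz R z m : ℂ) *
      Pool.Agent.H807R2.Dav.ee ((t : ℝ) * ((m : ℝ) / M))‖ ≤ B)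
    (hLam : 1 ≤ Lam) (hth : Real.log Y ≤ Lam) (hgz : (Vz z)⁻¹ ≤ Lam)
    (W : ℕ) (hW : 1 ≤ W) (H σ U T : ℕ) (hU : 1 ≤ U) (cs : Fin r × Fin N → ℤ)
    (s : ℕ → Fin r × ℤ) (k : ℕ)
    (hc1 : ∀ a, ((range k).filter (fun i => (s i).1 = a)).card < N)
    (hc2 : ∀ a, ((Ico k (2 * k)).filter (fun i => (s i).1 = a)).card < N)
    (hT : ∀ l < 2 * k, |(s l).2| ≤ T) (hinj : ∀ l < 2 * k, ∀ l' < 2 * k, l ≠ l' → s l ≠ s l')
    (hσ : 2 * (W * U * (1 + T) ^ N) ≤ σ)
    (hY : ∀ c : Fin r × Fin N → ℤ, (∀ i, |c i| ≤ H + σ) → ∀ x : Fin r × ℤ, |x.2| ≤ T →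
      |ev P c x| ≤ Y) :
    |∑ c ∈ Bx H W cs, Fw P R s (2 * k) c - ∑ c ∈ Bx H W cs, ∏ i ∈ range (2 * k), gz z (ev P c (s i))| ≤
      2 * k * ((Bx H W cs).card * (B * Lam ^ (2 * (2 * k)) / U) +
        2 * Lam ^ (2 * k) * (strip H W σ cs).card) := by
  classical
  obtain ⟨Er, hEr⟩ : ∃ Er, Er = (Bx H W cs).card * (B * Lam ^ (2 * (2 * k)) / U) +
    2 * Lam ^ (2 * k) * (strip H W σ cs).card := ⟨_, rfl⟩
  rw [← hEr]
  obtain ⟨φ, hφ⟩ : ∃ φ : ℕ → ℕ → ℤ → ℝ, φ = fun j i m => if i < j then gz z m else th R m.natAbs :=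
    ⟨_, rfl⟩
  obtain ⟨S, hS⟩ : ∃ S : ℕ → ℝ, S = fun j => ∑ c ∈ Bx H W cs, ∏ i ∈ range (2 * k), φ j i (ev P c (s i)) :=
    ⟨_, rfl⟩
  have h0 : ∑ c ∈ Bx H W cs, Fw P R s (2 * k) c = S 0 := by
    rw [hS]
    apply sum_congr rfl
    intro c _
    unfold Fw
    apply prod_congr rfl
    intro i _
    rw [hφ]
    exact (if_neg (Nat.not_lt_zero i)).symm
  have h1 : ∑ c ∈ Bx H W cs, ∏ i ∈ range (2 * k), gz z (ev P c (s i)) = S (2 * k) := by
    rw [hS]
    apply sum_congr rfl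
    intro c _
    apply prod_congr rfl
    intro i hi
    rw [hφ]
    exact (if_pos (mem_range.1 hi)).symm
  have hbth : ∀ m : ℤ, |m| ≤ Y → th R m.natAbs ≤ Lam := by
    intro m hm
    refine le_trans ?_ hth
    apply th_le
    rw [← Int.natCast_natAbs] at hm
    exact_mod_cast hm
  have hv : ∀ m : ℤ, |m| ≤ Y → |vz R z m| ≤ Lam := by
    intro m hm
    unfold vz
    rw [abs_le]
    have a1 := hbth m hm
    have a2 := th_nonneg R m.natAbs
    have a3 := gz_nonneg z m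
    have a4 := gz_le z m Lam hgz
    constructor <;> linarith
  have hφb : ∀ j i, ∀ m : ℤ, |m| ≤ Y → |φ j i m| ≤ Lam := by
    intro j i m hm
    rw [hφ]
    simp only
    split_ifs
    · rw [abs_of_nonneg (gz_nonneg z m)]
      exact gz_le z m Lam hgz
    · rw [abs_of_nonneg (th_nonneg R m.natAbs)]
      exact hbth m hm
  have hstep : ∀ j < 2 * k, |S j - S (j + 1)| ≤ Er := by
    intro j hj
    have e : S j - S (j + 1) = ∑ c ∈ Bx H W cs, vz R z (ev P c (s j)) *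
        ∏ i ∈ (range (2 * k)).erase j, φ j i (ev P c (s i)) := by
      rw [hS]
      simp only
      rw [← sum_sub_distrib]
      apply sum_congr rfl
      intro c _
      rw [← mul_prod_erase (range (2 * k)) (fun i => φ j i (ev P c (s i))) (mem_range.2 hj),
        ← mul_prod_erase (range (2 * k)) (fun i => φ (j + 1) i (ev P c (s i))) (mem_range.2 hj)]
      have e1 : ∏ i ∈ (range (2 * k)).erase j, φ (j + 1) i (ev P c (s i)) =
          ∏ i ∈ (range (2 * k)).erase j, φ j i (ev P c (s i)) := by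
        apply prod_congr rfl
        intro i hi
        rw [mem_erase] at hi
        rw [hφ]
        simp only
        by_cases h : i < j
        · rw [if_pos h, if_pos (by omega)]
        · rw [if_neg h, if_neg (by omega)]
      rw [e1, hφ]
      simp only
      rw [if_neg (lt_irrefl j), if_pos (Nat.lt_succ_self j)]
      unfold vz
      ring
    rw [e, hEr]
    apply onepos P R z Y M hM B Lam hV hLam hv (φ j) (hφb j) W hW H σ U T hU cs s (2 * k)
      ((range k).erase j) ((Ico k (2 * k)).erase j) j hj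
    · ext i
      simp only [mem_erase, mem_union, mem_range, mem_Ico]
      omega
    · rw [disjoint_left]
      intro i g1 g2
      rw [mem_erase, mem_range] at g1
      rw [mem_erase, mem_Ico] at g2
      omega
    · exact lt_of_le_of_lt (card_le_card (filter_subset_filter _ (erase_subset _ _))) (hc1 _)
    · exact lt_of_le_of_lt (card_le_card (filter_subset_filter _ (erase_subset _ _))) (hc2 _)
    · exact hT
    · intro l hl hne
      exact hinj l hl j hj hne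
    · exact hσ
    · exact hY
  have hall : ∀ n, n ≤ 2 * k → |S 0 - S n| ≤ n * Er := by
    intro n
    induction n with
    | zero => intro _; simp
    | succ n ih =>
      intro hn
      have g1 := ih (by omega)
      have g2 := hstep n (by omega)
      have e : S 0 - S (n + 1) = (S 0 - S n) + (S n - S (n + 1)) := by ring
      rw [e]
      refine (abs_add_le _ _).trans ?_
      push_cast
      linarith
  rw [h0, h1]
  have := hall (2 * k) le_rfl
  push_cast at this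
  exact this

theorem avg2 {r N : ℕ} (hN : 2 ≤ N) (P : Fin r → ℤ[X]) (z : ℕ) (Lam : ℝ) (hgz : (Vz z)⁻¹ ≤ Lam)
    (W H σ U : ℕ) (hU : 1 ≤ U) (cs : Fin r × Fin N → ℤ) (s : ℕ → Fin r × ℤ) (K : ℕ)
    (κ : Fin r → ℤ) (Tκ : ℕ) (hκ : ∀ a, |κ a| ≤ Tκ) (hσ : W * U * (1 + Tκ) ≤ σ) (D : ℝ)
    (hD : ∀ c ∈ Bx H W cs, ∑ n ∈ Icc 1 U, ∑ m ∈ Icc 1 U, ∏ j ∈ range K,
      gz z (ev P c (s j) + W * (n * ((s j).2 + κ (s j).1) + m)) ≤ (U : ℝ) ^ 2 * D) :
    ∑ c ∈ Bx H W cs, ∏ j ∈ range K, gz z (ev P c (s j)) ≤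
      (Bx H W cs).card * D + 2 * Lam ^ K * (strip H W σ cs).card := by
  classical
  have hU0 : (0 : ℝ) < U := by exact_mod_cast hU
  obtain ⟨q, hq⟩ : ∃ q : ℕ × ℕ → Fin r → ℤ[X],
    q = fun y a => C ((W : ℤ) * y.1) * (X + C (κ a)) + C ((W : ℤ) * y.2) := ⟨_, rfl⟩
  have hqd : ∀ y a, (q y a).natDegree < N := by
    intro y a
    rw [hq]
    simp only
    refine lt_of_le_of_lt (natDegree_add_le _ _) ?_
    rw [max_lt_iff, natDegree_C]
    constructor
    · refine lt_of_le_of_lt (natDegree_C_mul_le _ _) ?_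
      rw [natDegree_X_add_C]
      omega
    · omega
  have hqc : ∀ y ∈ Icc 1 U ×ˢ Icc 1 U, ∀ x : Fin r × Fin N, |sh N (q y) x| ≤ σ := by
    intro y hy x
    rw [mem_product, mem_Icc, mem_Icc] at hy
    unfold sh
    rw [hq]
    simp only
    rw [coeff_add, coeff_C_mul, coeff_add]
    have hσ' : ((W * U * (1 + Tκ) : ℕ) : ℤ) ≤ σ := by exact_mod_cast hσ
    push_cast at hσ'
    have y1 : (y.1 : ℤ) ≤ U := by exact_mod_cast hy.1.2
    have y2 : (y.2 : ℤ) ≤ U := by exact_mod_cast hy.2.2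
    have w0 : (0 : ℤ) ≤ W := Int.natCast_nonneg _
    have t0 : (0 : ℤ) ≤ Tκ := Int.natCast_nonneg _
    have u0 : (0 : ℤ) ≤ y.1 := Int.natCast_nonneg _
    have u1 : (0 : ℤ) ≤ y.2 := Int.natCast_nonneg _
    have b1 : (W : ℤ) * y.1 ≤ W * U := mul_le_mul_of_nonneg_left y1 w0
    have b2 : (W : ℤ) * y.2 ≤ W * U := mul_le_mul_of_nonneg_left y2 w0
    have b3 : (0 : ℤ) ≤ W * y.1 := mul_nonneg w0 u0
    have b4 : (0 : ℤ) ≤ W * y.2 := mul_nonneg w0 u1
    have b5 : (0 : ℤ) ≤ W * U := b3.trans b1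
    have b6 : (0 : ℤ) ≤ W * U * Tκ := mul_nonneg b5 t0
    by_cases h0 : (x.2 : ℕ) = 0
    · rw [h0, coeff_X_zero, coeff_C_zero, coeff_C_zero, zero_add]
      refine (abs_add_le _ _).trans ?_
      rw [abs_mul, abs_of_nonneg b3, abs_of_nonneg b4]
      have b7 : (W : ℤ) * y.1 * |κ x.1| ≤ W * U * Tκ := mul_le_mul b1 (hκ x.1) (abs_nonneg _) b5
      linarith
    · rw [coeff_C_ne_zero h0, coeff_C_ne_zero h0, add_zero, add_zero]
      by_cases h1 : (x.2 : ℕ) = 1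
      · rw [h1, coeff_X_one, mul_one, abs_of_nonneg b3]
        linarith
      · rw [coeff_X_of_ne_one h1, mul_zero, abs_zero]
        exact Int.natCast_nonneg _
  have hqW : ∀ y : ℕ × ℕ, ∀ x : Fin r × Fin N, (W : ℤ) ∣ sh N (q y) x := by
    intro y x
    unfold sh
    rw [hq]
    simp only
    rw [C_mul, C_mul, mul_assoc, ← mul_add, coeff_C_mul]
    exact Dvd.intro _ rfl
  obtain ⟨F, hFd⟩ : ∃ F : (Fin r × Fin N → ℤ) → ℝ, F = fun c => ∏ j ∈ range K, gz z (ev P c (s j)) :=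
    ⟨_, rfl⟩
  have hFb : ∀ c : Fin r × Fin N → ℤ, (∀ i, |c i| ≤ H + σ) → |F c| ≤ Lam ^ K := by
    intro c _
    rw [hFd]
    simp only
    rw [abs_prod]
    refine (prod_le_prod (fun _ _ => abs_nonneg _) (g := fun _ => Lam) ?_).trans (le_of_eq ?_)
    · intro i _
      rw [abs_of_nonneg (gz_nonneg _ _)]
      exact gz_le _ _ _ hgz
    · rw [prod_const, card_range]
  have havg := avgS (Icc 1 U ×ˢ Icc 1 U) H W σ cs (fun y => sh N (q y)) (fun y _ x => hqW y x) hqc F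
    (Lam ^ K) hFb
  have hin : ∀ c ∈ Bx H W cs, ∑ y ∈ Icc 1 U ×ˢ Icc 1 U, F (c + sh N (q y)) ≤ (U : ℝ) ^ 2 * D := by
    intro c hc
    refine le_trans (le_of_eq ?_) (hD c hc)
    rw [sum_product]
    apply sum_congr rfl
    intro n _
    apply sum_congr rfl
    intro m _
    rw [hFd]
    simp only
    apply prod_congr rfl
    intro j _
    rw [ev_sh P c (q (n, m)) (hqd (n, m))]
    congr 2
    rw [hq]
    simp only
    rw [eval_add, eval_mul, eval_C, eval_C, eval_add, eval_X, eval_C]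
    ring
  obtain ⟨S0, hS0⟩ : ∃ S0, S0 = ∑ c ∈ Bx H W cs, F c := ⟨_, rfl⟩
  obtain ⟨S1, hS1⟩ : ∃ S1, S1 = ∑ c ∈ Bx H W cs, ∑ y ∈ Icc 1 U ×ˢ Icc 1 U, F (c + sh N (q y)) := ⟨_, rfl⟩
  rw [← hS0, ← hS1, card_product, Nat.card_Icc, Nat.add_sub_cancel] at havg
  have h1 : S1 ≤ (Bx H W cs).card * ((U : ℝ) ^ 2 * D) := by
    rw [hS1, ← nsmul_eq_mul]
    exact sum_le_card_nsmul _ _ _ hin
  push_cast at havg
  have hgoal : ∑ c ∈ Bx H W cs, ∏ j ∈ range K, gz z (ev P c (s j)) = S0 := by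
    rw [hS0, hFd]
  rw [hgoal]
  have hUU : (0 : ℝ) < (U : ℝ) * U := by positivity
  apply le_of_mul_le_mul_left _ hUU
  have h2 := (abs_le.1 havg).1
  calc (U : ℝ) * U * S0 ≤ S1 + U * U * (2 * Lam ^ K * (strip H W σ cs).card) := by linarith
    _ ≤ (Bx H W cs).card * ((U : ℝ) ^ 2 * D) + U * U * (2 * Lam ^ K * (strip H W σ cs).card) := by
        linarith
    _ = _ := by ring

theorem pairU {r N : ℕ} (hN : 2 ≤ N) (P : Fin r → ℤ[X]) (R z Y M : ℕ) (hM : 2 * Y < M) (B Lam : ℝ)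
    (hV : ∀ t : ℕ, ‖∑ m ∈ Icc (-(Y : ℤ)) Y, (vz R z m : ℂ) *
      Pool.Agent.H807R2.Dav.ee ((t : ℝ) * ((m : ℝ) / M))‖ ≤ B)
    (hLam : 1 ≤ Lam) (hth : Real.log Y ≤ Lam) (hgz : (Vz z)⁻¹ ≤ Lam)
    (W : ℕ) (hW : 1 ≤ W) (H σ U T : ℕ) (hU : 1 ≤ U) (hT1 : 1 ≤ T) (cs : Fin r × Fin N → ℤ)
    (s : ℕ → Fin r × ℤ) (k : ℕ)
    (hc1 : ∀ a, ((range k).filter (fun i => (s i).1 = a)).card < N)
    (hc2 : ∀ a, ((Ico k (2 * k)).filter (fun i => (s i).1 = a)).card < N)
    (hT : ∀ l < 2 * k, |(s l).2| ≤ T) (hinj : ∀ l < 2 * k, ∀ l' < 2 * k, l ≠ l' → s l ≠ s l')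
    (hcop : ∀ l < 2 * k, (ev P cs (s l)).natAbs.Coprime W)
    (hσ : 2 * (W * U * (1 + T) ^ N) ≤ σ) (hσ2 : W * U * (1 + T) ^ (r + 2) ≤ σ)
    (hY : ∀ c : Fin r × Fin N → ℤ, (∀ i, |c i| ≤ H + σ) → ∀ x : Fin r × ℤ, |x.2| ≤ T →
      |ev P c x| ≤ Y)
    (D : ℝ) (hD : ∀ v μ : ℕ → ℤ, (∀ j < 2 * k, (v j).natAbs.Coprime W) →
      (∀ i < 2 * k, ∀ j < 2 * k, i ≠ j → μ i ≠ μ j) →
      (∀ i < 2 * k, ∀ j < 2 * k, i ≠ j → (μ i - μ j).natAbs ≤ (2 * T) ^ (r + 2)) →
      ∑ n ∈ Icc 1 U, ∑ m ∈ Icc 1 U, ∏ j ∈ range (2 * k), gz z (v j + W * (n * μ j + m)) ≤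
        (U : ℝ) ^ 2 * D) :
    ∑ c ∈ Bx H W cs, Fw P R s (2 * k) c ≤
      (Bx H W cs).card * (D + 2 * k * (B * Lam ^ (2 * (2 * k)) / U)) +
      (2 * k + 1) * (2 * Lam ^ (2 * k) * (strip H W σ cs).card) := by
  have h1 := tele P R z Y M hM B Lam hV hLam hth hgz W hW H σ U T hU cs s k hc1 hc2 hT hinj hσ hY
  have hT1' : (1 : ℤ) ≤ T := by exact_mod_cast hT1
  have h2r : r + 1 ≤ 2 ^ r := Nat.lt_two_pow_self
  have h2 := avg2 hN P z Lam hgz W H σ U hU cs s (2 * k) (fun a => (a : ℤ) * (2 * T + 1)) (r * (2 * T + 1))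
    (by
      intro a
      have ha : ((a : ℕ) : ℤ) ≤ r := by exact_mod_cast a.2.le
      have ha0 : (0 : ℤ) ≤ ((a : ℕ) : ℤ) := Int.natCast_nonneg _
      rw [abs_of_nonneg (mul_nonneg ha0 (by linarith))]
      push_cast
      exact mul_le_mul_of_nonneg_right ha (by linarith))
    (by
      refine le_trans (Nat.mul_le_mul_left _ ?_) hσ2
      rw [pow_add]
      have g1 : r + 1 ≤ (1 + T) ^ r := h2r.trans (Nat.pow_le_pow_left (by omega) r)
      have g2 : 2 * T + 1 ≤ (1 + T) ^ 2 := by nlinarith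
      calc 1 + r * (2 * T + 1) ≤ (r + 1) * (2 * T + 1) := by
            have : 0 ≤ 2 * T := Nat.zero_le _
            rw [add_mul, one_mul]
            omega
        _ ≤ _ := Nat.mul_le_mul g1 g2) D (by
      intro c hc
      rw [mem_Bx] at hc
      have hdis : ∀ i < 2 * k, ∀ j < 2 * k, i ≠ j →
          (s i).2 + (((s i).1 : ℕ) : ℤ) * (2 * T + 1) ≠ (s j).2 + (((s j).1 : ℕ) : ℤ) * (2 * T + 1) := by
        intro i hi j hj hij h
        apply hinj i hi j hj hij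
        have t1 := abs_le.1 (hT i hi)
        have t2 := abs_le.1 (hT j hj)
        have e : ((((s i).1 : ℕ) : ℤ) - (((s j).1 : ℕ) : ℤ)) * (2 * T + 1) = (s j).2 - (s i).2 := by
          linarith
        have hab : (((s i).1 : ℕ) : ℤ) = (((s j).1 : ℕ) : ℤ) := by
          rcases lt_trichotomy (((s i).1 : ℕ) : ℤ) (((s j).1 : ℕ) : ℤ) with g | g | g
          · exfalso
            have g1 : (((s i).1 : ℕ) : ℤ) - (((s j).1 : ℕ) : ℤ) ≤ -1 := by omega
            have g2 := mul_le_mul_of_nonneg_right g1 (show (0 : ℤ) ≤ 2 * T + 1 by linarith)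
            linarith [t1.1, t1.2, t2.1, t2.2]
          · exact g
          · exfalso
            have g1 : 1 ≤ (((s i).1 : ℕ) : ℤ) - (((s j).1 : ℕ) : ℤ) := by omega
            have g2 := mul_le_mul_of_nonneg_right g1 (show (0 : ℤ) ≤ 2 * T + 1 by linarith)
            linarith [t1.1, t1.2, t2.1, t2.2]
        rw [hab] at h
        refine Prod.ext (Fin.ext (by exact_mod_cast hab)) (by linarith)
      exact hD (fun j => ev P c (s j)) (fun j => (s j).2 + (((s j).1 : ℕ) : ℤ) * (2 * T + 1))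
        (fun j hj => (ev_cop P c cs W (fun i => (hc i).2) (s j)).2 (hcop j hj)) hdis (by
        intro i hi j hj _
        have t1 := abs_le.1 (hT i hi)
        have t2 := abs_le.1 (hT j hj)
        have a1 : (((s i).1 : ℕ) : ℤ) ≤ r := by exact_mod_cast (s i).1.2.le
        have a2 : (((s j).1 : ℕ) : ℤ) ≤ r := by exact_mod_cast (s j).1.2.le
        have a3 : (0 : ℤ) ≤ (((s i).1 : ℕ) : ℤ) := Int.natCast_nonneg _
        have a4 : (0 : ℤ) ≤ (((s j).1 : ℕ) : ℤ) := Int.natCast_nonneg _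
        have b0 : (0 : ℤ) ≤ 2 * T + 1 := by linarith
        have b1 := mul_le_mul_of_nonneg_right a1 b0
        have b2 := mul_le_mul_of_nonneg_right a2 b0
        have b3 := mul_nonneg a3 b0
        have b4 := mul_nonneg a4 b0
        have hb : |((s i).2 + (((s i).1 : ℕ) : ℤ) * (2 * T + 1)) -
            ((s j).2 + (((s j).1 : ℕ) : ℤ) * (2 * T + 1))| ≤ 2 * T + r * (2 * T + 1) := by
          rw [abs_le]
          constructor <;> linarith [t1.1, t1.2, t2.1, t2.2]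
        have hnat : 2 * T + r * (2 * T + 1) ≤ (2 * T) ^ (r + 2) := by
          rw [pow_add]
          have g1 : r + 1 ≤ (2 * T) ^ r := h2r.trans (Nat.pow_le_pow_left (by omega) r)
          have g2 : 2 * T + 1 ≤ (2 * T) ^ 2 := by nlinarith
          calc 2 * T + r * (2 * T + 1) ≤ (r + 1) * (2 * T + 1) := by
                rw [add_mul, one_mul]
                omega
            _ ≤ _ := Nat.mul_le_mul g1 g2
        have hb' : ((((s i).2 + (((s i).1 : ℕ) : ℤ) * (2 * T + 1)) -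
            ((s j).2 + (((s j).1 : ℕ) : ℤ) * (2 * T + 1))).natAbs : ℤ) ≤
            ((2 * T + r * (2 * T + 1) : ℕ) : ℤ) := by
          rw [Int.natCast_natAbs]
          push_cast
          exact hb
        have hb2 : (((s i).2 + (((s i).1 : ℕ) : ℤ) * (2 * T + 1)) -
            ((s j).2 + (((s j).1 : ℕ) : ℤ) * (2 * T + 1))).natAbs ≤ 2 * T + r * (2 * T + 1) := by
          exact_mod_cast hb'
        exact hb2.trans hnat))
  have h3 := (abs_le.1 h1).2
  calc ∑ c ∈ Bx H W cs, Fw P R s (2 * k) c ≤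
      ∑ c ∈ Bx H W cs, ∏ j ∈ range (2 * k), gz z (ev P c (s j)) +
      2 * k * ((Bx H W cs).card * (B * Lam ^ (2 * (2 * k)) / U) +
        2 * Lam ^ (2 * k) * (strip H W σ cs).card) := by linarith
    _ ≤ ((Bx H W cs).card * D + 2 * Lam ^ (2 * k) * (strip H W σ cs).card) +
      2 * k * ((Bx H W cs).card * (B * Lam ^ (2 * (2 * k)) / U) +
        2 * Lam ^ (2 * k) * (strip H W σ cs).card) := by linarith
    _ = _ := by ring

end Pool.Agent.N913.KU
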