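import Pool.Agent.N913.KU.U8
import Pool.Agent.N913.KS.S5

set_option autoImplicit false
set_option linter.unusedSectionVars false

/-! Concentration in a class, with parameters, with fewer coefficients. -/

namespace Pool.Agent.N913.KU

open Finset Polynomial Filter
open Pool.Agent.H373R2.T7
open Pool.Agent.N913.MT (th th_nonneg th_le tot_prod Wz Wz_le Wz_pos dvd_Wz evt_log_pow evt_log_ge)
open Pool.Agent.N913.MG (BVz AP1 kappa2)
open Pool.Agent.N913.KT (zK WK LK TK evt_ll sw pol_size exists_eta)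
open Pool.Agent.N913.KS (Bx mem_Bx strip strip_card ev Fw pr bc ev_size Fk fk_evt DK FK UK YK SK Bx_card)

theorem bc_lo {r : ℕ} (k : ℕ) (t t' : ℕ → Fin r × ℤ) (a : Fin r) :
    ((range k).filter (fun i => (pr k t t' i).1 = a)).card = bc k t a := by
  unfold bc
  congr 1
  apply filter_congr
  intro i hi
  unfold pr
  rw [if_pos (mem_range.1 hi)]

theorem bc_hi {r : ℕ} (k : ℕ) (t t' : ℕ → Fin r × ℤ) (a : Fin r) :
    ((Ico k (2 * k)).filter (fun i => (pr k t t' i).1 = a)).card = bc k t' a := by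
  unfold bc
  rw [card_filter, card_filter, sum_Ico_eq_sum_range]
  have e : 2 * k - k = k := by omega
  rw [e]
  apply sum_congr rfl
  intro i _
  have e2 : pr k t t' (k + i) = t' i := by
    unfold pr
    rw [if_neg (by omega), Nat.add_sub_cancel_left]
  rw [e2]

theorem size_Y {r N N' k v d A E H : ℕ} {κ η ξ δ' c0 : ℝ} (hNN : N ≤ N')
    (hF : Fk k N' v E d A κ η ξ δ' c0 H) (P : Fin r → ℤ[X]) (hPd : ∀ a, (P a).natDegree ≤ d)
    (hP : ∀ a i, |((P a).coeff i : ℝ)| ≤ H * Real.log H ^ A) (c : Fin r × Fin N → ℤ)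
    (hc : ∀ i, |c i| ≤ H + SK k N' v E κ H) (x : Fin r × ℤ) (hx : |x.2| ≤ TK E H) :
    |ev P c x| + (WK κ H * (2 * TK E H) ^ N * UK k N' v E H : ℕ) + 1 ≤ YK N' E d A H := by
  have hT1 : (1 : ℝ) ≤ TK E H := by exact_mod_cast hF.T1
  have h1 := ev_size P hPd (H * Real.log H ^ A) hP c (H + SK k N' v E κ H) (by positivity)
    (fun i => by
    have := hc i
    have h2 : ((|c i| : ℤ) : ℝ) ≤ ((H + SK k N' v E κ H : ℤ) : ℝ) := by exact_mod_cast this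
    push_cast at h2
    exact h2) x (TK E H) hT1 (by
    have h2 : ((|x.2| : ℤ) : ℝ) ≤ ((TK E H : ℤ) : ℝ) := by exact_mod_cast hx
    push_cast at h2
    exact h2)
  have h2 := hF.Ybd
  have hNr : (N : ℝ) ≤ N' := by exact_mod_cast hNN
  have h4 : (N : ℝ) * (H + SK k N' v E κ H) * (TK E H : ℝ) ^ N ≤
      (N' : ℝ) * (H + SK k N' v E κ H) * (TK E H : ℝ) ^ N' := by
    have h5 : (TK E H : ℝ) ^ N ≤ (TK E H : ℝ) ^ N' := pow_le_pow_right₀ hT1 hNN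
    gcongr
  have h6 : WK κ H * (2 * TK E H) ^ N * UK k N' v E H ≤ WK κ H * (2 * TK E H) ^ N' * UK k N' v E H := by
    have h7 : (2 * TK E H) ^ N ≤ (2 * TK E H) ^ N' :=
      Nat.pow_le_pow_right (by have := hF.T1; omega) hNN
    gcongr
  have h8 : ((WK κ H * (2 * TK E H) ^ N * UK k N' v E H : ℕ) : ℝ) ≤
      ((WK κ H * (2 * TK E H) ^ N' * UK k N' v E H : ℕ) : ℝ) := by exact_mod_cast h6
  have h3 : ((|ev P c x| + (WK κ H * (2 * TK E H) ^ N * UK k N' v E H : ℕ) + 1 : ℤ) : ℝ) ≤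
      ((YK N' E d A H : ℤ) : ℝ) := by
    push_cast at h1 h2 h4 h8 ⊢
    linarith
  exact_mod_cast h3

/-- numerical constants for the pair moments -/
theorem consts (k : ℕ) (μ : ℝ) (hμ : 0 < μ) : ∃ η : ℝ, 0 < η ∧ η ≤ 1 / 2 ∧ ∃ Z1 : ℕ, ∀ z0 : ℕ, Z1 ≤ z0 →
    Real.exp (2 * ((2 * k : ℕ) : ℝ) ^ 2 / ((z0 - 1 : ℕ) : ℝ)) *
      ((1 + 2 * η) ^ (2 * k)) ^ ((2 * k) ^ 2) ≤ 1 + μ := by
  obtain ⟨m, hm⟩ : ∃ m, m = min 1 (μ / 3) := ⟨_, rfl⟩
  have hm0 : 0 < m := by rw [hm]; positivity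
  have hm1 : m ≤ 1 := by rw [hm]; exact min_le_left _ _
  have hm2 : 3 * m ≤ μ := by
    have : m ≤ μ / 3 := by rw [hm]; exact min_le_right _ _
    linarith
  obtain ⟨η, h1, h2, h3⟩ := exists_eta ((2 * k) * (2 * k) ^ 2) m hm0
  have hl : 0 < Real.log (1 + m) := Real.log_pos (by linarith)
  refine ⟨η, h1, h2, ⌈2 * ((2 * k : ℕ) : ℝ) ^ 2 / Real.log (1 + m)⌉₊ + 2, fun z0 hz => ?_⟩
  have hz1 : (⌈2 * ((2 * k : ℕ) : ℝ) ^ 2 / Real.log (1 + m)⌉₊ : ℝ) ≤ ((z0 - 1 : ℕ) : ℝ) := by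
    exact_mod_cast (by omega : ⌈2 * ((2 * k : ℕ) : ℝ) ^ 2 / Real.log (1 + m)⌉₊ ≤ z0 - 1)
  have hz2 : (1 : ℝ) ≤ ((z0 - 1 : ℕ) : ℝ) := by exact_mod_cast (by omega : 1 ≤ z0 - 1)
  have hz3 := (Nat.le_ceil (2 * ((2 * k : ℕ) : ℝ) ^ 2 / Real.log (1 + m))).trans hz1
  have e1 : Real.exp (2 * ((2 * k : ℕ) : ℝ) ^ 2 / ((z0 - 1 : ℕ) : ℝ)) ≤ 1 + m := by
    rw [← Real.exp_log (show (0 : ℝ) < 1 + m by linarith)]
    apply Real.exp_le_exp.2
    rw [div_le_iff₀ (by linarith)]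
    rw [div_le_iff₀ hl] at hz3
    rw [mul_comm (Real.log (1 + m))]
    exact hz3
  have e2 : ((1 + 2 * η) ^ (2 * k)) ^ ((2 * k) ^ 2) ≤ 1 + m := by
    rw [← pow_mul]
    have : (1 + 2 * η) ^ (2 * k * (2 * k) ^ 2) ≤ (1 + 2 * η) ^ (2 * (2 * k * (2 * k) ^ 2)) :=
      pow_le_pow_right₀ (by linarith) (by omega)
    linarith
  have hp : 0 ≤ ((1 + 2 * η) ^ (2 * k)) ^ ((2 * k) ^ 2) := by positivity
  calc _ ≤ (1 + m) * (1 + m) := mul_le_mul e1 e2 hp (by linarith)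
    _ ≤ 1 + μ := by nlinarith

end Pool.Agent.N913.KU
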